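import Pool.Agent.Helper72.Cyc.Trans

/-!
# The Moore bound
-/

set_option linter.unusedSectionVars false

namespace Pool.Agent.Helper72.Cyc

open SimpleGraph Finset

/-- A non-backtracking walk with a repeated vertex contains a short cycle. -/
lemma nb_repeat {V : Type*} {G : SimpleGraph V} {g : ℕ} (hG : NoShort G g) {u : ℕ → V} {l : ℕ}
    (hadj : ∀ i < l, G.Adj (u i) (u (i + 1))) (hnb : ∀ i, i + 2 ≤ l → u (i + 2) ≠ u i)
    {i j : ℕ} (hij : i < j) (hj : j ≤ l) (heq : u i = u j) : g ≤ l := by
  classical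
  have hex : ∃ d, 0 < d ∧ ∃ i, i + d ≤ l ∧ u i = u (i + d) :=
    ⟨j - i, by omega, i, by omega, by rw [heq]; congr 1; omega⟩
  obtain ⟨hd0, a, ha, hua⟩ := Nat.find_spec hex
  have hmin := fun d (hd : d < Nat.find hex) => Nat.find_min hex hd
  set d := Nat.find hex with hd
  have h1 : d ≠ 1 := by
    intro h
    rw [h] at ha hua
    exact (hadj a (by omega)).ne hua
  have h2 : d ≠ 2 := by
    intro h
    rw [h] at ha hua
    exact hnb a ha hua.symm
  obtain ⟨m, hm⟩ : ∃ m, d = m + 3 := ⟨d - 3, by omega⟩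
  rw [hm] at ha hua
  have := hG m (fun b => u (a + b.val)) (by
    have key : ∀ b c : Fin (m + 3), b.val < c.val → u (a + b.val) ≠ u (a + c.val) := by
      intro b c hbc h
      apply hmin (c.val - b.val) (by have := c.2; omega)
      refine ⟨by omega, a + b.val, by have := c.2; omega, ?_⟩
      rw [h]; congr 1; omega
    intro b c hbc
    simp only at hbc
    rcases lt_trichotomy b.val c.val with h | h | h
    · exact absurd hbc (key b c h)
    · exact Fin.ext h
    · exact absurd hbc.symm (key c b h)) (by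
    intro b
    show G.Adj (u (a + b.val)) (u (a + (b + 1 : Fin (m + 3)).val))
    by_cases hb : b.val + 1 < m + 3
    · have : (b + 1 : Fin (m + 3)).val = b.val + 1 := by
        rw [Fin.val_add]
        have h1 : ((1 : Fin (m + 3)) : ℕ) = 1 := rfl
        rw [h1, Nat.mod_eq_of_lt hb]
      rw [this]
      exact hadj (a + b.val) (by omega)
    · have hb' : b.val = m + 2 := by have := b.2; omega
      have : (b + 1 : Fin (m + 3)).val = 0 := by
        rw [Fin.val_add]
        have h1 : ((1 : Fin (m + 3)) : ℕ) = 1 := rfl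
        rw [h1, hb', Nat.mod_self]
      rw [this, hb', add_zero, hua]
      exact hadj (a + (m + 2)) (by omega))
  omega

/-- Non-backtracking walks of length `k` from `v`. -/
def IsNB {V : Type*} (G : SimpleGraph V) (v : V) (k : ℕ) (w : Fin (k + 1) → V) : Prop :=
  w 0 = v ∧ (∀ (i : ℕ) (h : i < k), G.Adj (w ⟨i, by omega⟩) (w ⟨i + 1, by omega⟩)) ∧
    (∀ (i : ℕ) (h : i + 2 ≤ k), w ⟨i + 2, by omega⟩ ≠ w ⟨i, by omega⟩)

lemma nb_end_inj {V : Type*} {G : SimpleGraph V} {g k : ℕ} (hG : NoShort G g)
    (hg : 2 * k + 1 ≤ g) {v : V} {w w' : Fin (k + 1) → V} (hw : IsNB G v k w)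
    (hw' : IsNB G v k w') (hend : w (Fin.last k) = w' (Fin.last k)) : w = w' := by
  classical
  by_contra hne
  have hex : ∃ i, ∃ h : i < k + 1, w ⟨i, h⟩ ≠ w' ⟨i, h⟩ := by
    by_contra hcon
    push Not at hcon
    exact hne (funext fun i => hcon i.1 i.2)
  obtain ⟨hi0, hdiff⟩ := Nat.find_spec hex
  have hmin := fun d (hd : d < Nat.find hex) => Nat.find_min hex hd
  set i0 := Nat.find hex with hi0def
  have hagree : ∀ i, i < i0 → ∀ h : i < k + 1, w ⟨i, h⟩ = w' ⟨i, h⟩ := by
    intro i hi h
    by_contra hc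
    exact hmin i hi ⟨h, hc⟩
  have hpos : 0 < i0 := by
    rcases Nat.eq_zero_or_pos i0 with h0 | h
    · exfalso
      apply hdiff
      have e1 : (⟨i0, hi0⟩ : Fin (k + 1)) = 0 := Fin.ext h0
      rw [e1, hw.1, hw'.1]
    · exact h
  have hlt : i0 < k := by
    rcases Nat.lt_or_ge i0 k with h | h
    · exact h
    · exfalso
      apply hdiff
      have e1 : (⟨i0, hi0⟩ : Fin (k + 1)) = Fin.last k := Fin.ext (by simp; omega)
      rw [e1, hend]
  let W : ℕ → V := fun i => w ⟨min i k, by omega⟩
  let W' : ℕ → V := fun i => w' ⟨min i k, by omega⟩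
  have hW : ∀ i (h : i < k + 1), W i = w ⟨i, h⟩ := by
    intro i h
    simp only [W]
    congr 1
    exact Fin.ext (by simp only; omega)
  have hW' : ∀ i (h : i < k + 1), W' i = w' ⟨i, h⟩ := by
    intro i h
    simp only [W']
    congr 1
    exact Fin.ext (by simp only; omega)
  have hWadj : ∀ i, i < k → G.Adj (W i) (W (i + 1)) := by
    intro i hi
    rw [hW i (by omega), hW (i + 1) (by omega)]
    exact hw.2.1 i hi
  have hWadj' : ∀ i, i < k → G.Adj (W' i) (W' (i + 1)) := by
    intro i hi
    rw [hW' i (by omega), hW' (i + 1) (by omega)]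
    exact hw'.2.1 i hi
  have hWnb : ∀ i, i + 2 ≤ k → W (i + 2) ≠ W i := by
    intro i hi
    rw [hW i (by omega), hW (i + 2) (by omega)]
    exact hw.2.2 i hi
  have hWnb' : ∀ i, i + 2 ≤ k → W' (i + 2) ≠ W' i := by
    intro i hi
    rw [hW' i (by omega), hW' (i + 2) (by omega)]
    exact hw'.2.2 i hi
  set l := k - i0 + 1 with hl
  let u : ℕ → V := fun i => if i ≤ l then W (k - i) else W' (i0 - 1 + (i - l))
  have hu1 : ∀ i, i ≤ l → u i = W (k - i) := by
    intro i hi; simp only [u]; rw [if_pos hi]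
  have hu2 : ∀ i, l ≤ i → u i = W' (i0 - 1 + (i - l)) := by
    intro i hi
    rcases Nat.eq_or_lt_of_le hi with h | h
    · rw [hu1 i (by omega)]
      have e1 : k - i = i0 - 1 := by omega
      have e2 : i0 - 1 + (i - l) = i0 - 1 := by omega
      rw [e1, e2, hW (i0 - 1) (by omega), hW' (i0 - 1) (by omega)]
      exact hagree (i0 - 1) (by omega) (by omega)
    · simp only [u]; rw [if_neg (by omega)]
  have hfin := nb_repeat hG (u := u) (l := 2 * l) (by
    intro i hi
    by_cases h : i + 1 ≤ l
    · rw [hu1 i (by omega), hu1 (i + 1) h]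
      have := (hWadj (k - (i + 1)) (by omega)).symm
      have e : k - (i + 1) + 1 = k - i := by omega
      rwa [e] at this
    · rw [hu2 i (by omega), hu2 (i + 1) (by omega)]
      have := hWadj' (i0 - 1 + (i - l)) (by omega)
      have e : i0 - 1 + (i - l) + 1 = i0 - 1 + (i + 1 - l) := by omega
      rwa [e] at this) (by
    intro i hi
    by_cases h : i + 2 ≤ l
    · rw [hu1 i (by omega), hu1 (i + 2) h]
      have := (hWnb (k - (i + 2)) (by omega)).symm
      have e : k - (i + 2) + 2 = k - i := by omega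
      rwa [e] at this
    · by_cases h' : l ≤ i
      · rw [hu2 i h', hu2 (i + 2) (by omega)]
        have := hWnb' (i0 - 1 + (i - l)) (by omega)
        have e : i0 - 1 + (i - l) + 2 = i0 - 1 + (i + 2 - l) := by omega
        rwa [e] at this
      · rw [hu1 i (by omega), hu2 (i + 2) (by omega)]
        have e1 : k - i = i0 := by omega
        have e2 : i0 - 1 + (i + 2 - l) = i0 := by omega
        rw [e1, e2, hW i0 hi0, hW' i0 hi0]
        exact hdiff.symm) (i := 0) (j := 2 * l) (by omega) le_rfl (by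
    rw [hu1 0 (by omega), hu2 (2 * l) (by omega)]
    have e1 : k - 0 = k := by omega
    have e2 : i0 - 1 + (2 * l - l) = k := by omega
    rw [e1, e2, hW k (by omega), hW' k (by omega)]
    exact hend)
  omega

open scoped Classical in
/-- The finset of non-backtracking walks. -/
noncomputable def NB {V : Type*} [Fintype V] (G : SimpleGraph V) (v : V) (k : ℕ) :
    Finset (Fin (k + 1) → V) := {w | IsNB G v k w}

lemma mem_NB {V : Type*} [Fintype V] {G : SimpleGraph V} {v : V} {k : ℕ} {w : Fin (k + 1) → V} :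
    w ∈ NB G v k ↔ IsNB G v k w := by
  simp only [NB, Finset.mem_filter, Finset.mem_univ, true_and]

lemma isNB_snoc {V : Type*} {G : SimpleGraph V} {v : V} {k : ℕ} {w : Fin (k + 1) → V}
    (hw : IsNB G v k w) {x : V} (hx : G.Adj (w (Fin.last k)) x)
    (hx' : ∀ h : 1 ≤ k, x ≠ w ⟨k - 1, by omega⟩) :
    IsNB G v (k + 1) (Fin.snoc (α := fun _ => V) w x) := by
  have hlt : ∀ (i : ℕ) (h : i < k + 1), (Fin.snoc (α := fun _ => V) w x : Fin (k + 2) → V)
      ⟨i, by omega⟩ = w ⟨i, h⟩ := by
    intro i h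
    exact Fin.snoc_castSucc (α := fun _ => V) x w ⟨i, h⟩
  have hlast : (Fin.snoc (α := fun _ => V) w x : Fin (k + 2) → V) ⟨k + 1, by omega⟩ = x :=
    Fin.snoc_last (α := fun _ => V) x w
  refine ⟨?_, ?_, ?_⟩
  · have := hlt 0 (by omega)
    exact this.trans hw.1
  · intro i hi
    by_cases h : i < k
    · rw [hlt i (by omega), hlt (i + 1) (by omega)]
      exact hw.2.1 i h
    · have e : i = k := by omega
      subst e
      rw [hlt i (by omega), hlast]
      exact hx
  · intro i hi
    by_cases h : i + 2 ≤ k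
    · rw [hlt i (by omega), hlt (i + 2) (by omega)]
      exact hw.2.2 i h
    · have e : i + 1 = k := by omega
      subst e
      rw [hlt i (by omega), hlast]
      exact hx' (by omega)

lemma card_NB_ge {V : Type*} [Fintype V] [DecidableEq V] {G : SimpleGraph V} [DecidableRel G.Adj]
    {d : ℕ} (hd : ∀ v, d + 1 ≤ G.degree v) (v : V) (k : ℕ) : d ^ k ≤ (NB G v k).card := by
  induction k with
  | zero =>
    rw [pow_zero]
    apply Finset.card_pos.2
    refine ⟨fun _ => v, ?_⟩
    rw [mem_NB]
    exact ⟨rfl, fun i h => absurd h (by omega), fun i h => absurd h (by omega)⟩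
  | succ k ih =>
    let E : (Fin (k + 1) → V) → Finset V := fun w =>
      (G.neighborFinset (w (Fin.last k))).erase (w ⟨k - 1, by omega⟩)
    have hE : ∀ w ∈ NB G v k, d ≤ (E w).card := by
      intro w _
      have h1 := hd (w (Fin.last k))
      have h2 := Finset.pred_card_le_card_erase (s := G.neighborFinset (w (Fin.last k)))
        (a := w ⟨k - 1, by omega⟩)
      rw [G.card_neighborFinset_eq_degree] at h2
      show d ≤ ((G.neighborFinset (w (Fin.last k))).erase (w ⟨k - 1, by omega⟩)).card
      omega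
    have h1 : (NB G v k).card * d ≤ ((NB G v k).sigma E).card := by
      rw [Finset.card_sigma, ← smul_eq_mul]
      exact Finset.card_nsmul_le_sum _ _ _ hE
    have h2 : ((NB G v k).sigma E).card ≤ (NB G v (k + 1)).card := by
      apply Finset.card_le_card_of_injOn
        (fun q : (_ : Fin (k + 1) → V) × V => (Fin.snoc (α := fun _ => V) q.1 q.2 : Fin (k + 2) → V))
      · rintro ⟨w, x⟩ hq
        rw [Finset.mem_coe, Finset.mem_sigma, mem_NB] at hq
        rw [Finset.mem_coe, mem_NB]
        have hx := hq.2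
        simp only [E, Finset.mem_erase, mem_neighborFinset] at hx
        exact isNB_snoc hq.1 hx.2 (fun _ => hx.1)
      · rintro ⟨w, x⟩ _ ⟨w', x'⟩ _ h
        simp only at h
        have h1 : w = w' := by
          funext i
          have := congrFun h i.castSucc
          simpa using this
        have h2 : x = x' := by
          have := congrFun h (Fin.last (k + 1))
          simpa using this
        rw [h1, h2]
    calc d ^ (k + 1) = d ^ k * d := pow_succ _ _
      _ ≤ (NB G v k).card * d := Nat.mul_le_mul_right _ ih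
      _ ≤ _ := h1.trans h2

/-- The Moore bound. -/
lemma moore {V : Type*} [Fintype V] [DecidableEq V] {G : SimpleGraph V} [DecidableRel G.Adj]
    {g k d : ℕ} (hG : NoShort G g) (hg : 2 * k + 1 ≤ g) (hd : ∀ v, d + 1 ≤ G.degree v) (v : V) :
    d ^ k ≤ Fintype.card V := by
  refine (card_NB_ge hd v k).trans ?_
  rw [← Finset.card_univ]
  apply Finset.card_le_card_of_injOn (fun w => w (Fin.last k))
  · intro w _; exact Finset.mem_coe.2 (Finset.mem_univ _)
  · intro w hw w' hw' h
    rw [Finset.mem_coe, mem_NB] at hw hw'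
    exact nb_end_inj hG hg hw hw' h

/-- Upper bound for the number of edges. -/
lemma maxEdges_le_moore {g k : ℕ} (hk : 1 ≤ k) (hg : 2 * k + 1 ≤ g) (n : ℕ) :
    (maxEdges n g : ℝ) ≤ n * ((n : ℝ) ^ ((1 : ℝ) / k) + 1) := by
  classical
  induction n with
  | zero =>
    obtain ⟨G, _, hcard⟩ := exists_maxEdges 0 g
    have h1 := G.sum_degrees_eq_twice_card_edges
    rw [Finset.univ_eq_empty, Finset.sum_empty] at h1
    have : maxEdges 0 g = 0 := by omega
    rw [this]; simp
  | succ n ih =>
    obtain ⟨G, hG, hcard⟩ := exists_maxEdges (n + 1) g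
    -- vertex of minimum degree
    obtain ⟨v, _, hv⟩ := Finset.exists_min_image Finset.univ (fun v => G.degree v)
      ⟨(0 : Fin (n + 1)), Finset.mem_univ _⟩
    have hpow : (G.degree v - 1) ^ k ≤ n + 1 := by
      rcases Nat.eq_zero_or_pos (G.degree v) with h0 | hpos
      · rw [h0, Nat.zero_sub, zero_pow (by omega)]; omega
      · have := moore (d := G.degree v - 1) hG hg (fun w => by
          have := hv w (Finset.mem_univ _); omega) v
        rwa [Fintype.card_fin] at this
    have hdegr : (G.degree v : ℝ) ≤ ((n + 1 : ℕ) : ℝ) ^ ((1 : ℝ) / k) + 1 := by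
      have h1 : ((G.degree v - 1 : ℕ) : ℝ) ≤ ((n + 1 : ℕ) : ℝ) ^ ((1 : ℝ) / k) := by
        have h2 : (((G.degree v - 1 : ℕ) : ℝ)) ^ (k : ℕ) ≤ ((n + 1 : ℕ) : ℝ) := by
          exact_mod_cast hpow
        have h3 := Real.rpow_le_rpow (by positivity) h2 (show (0 : ℝ) ≤ 1 / k by positivity)
        rw [← Real.rpow_natCast, ← Real.rpow_mul (by positivity), mul_one_div_cancel
          (by positivity), Real.rpow_one] at h3
        exact h3
      have h4 : (G.degree v : ℝ) ≤ ((G.degree v - 1 : ℕ) : ℝ) + 1 := by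
        exact_mod_cast (by omega : G.degree v ≤ G.degree v - 1 + 1)
      linarith
    have h2 : (G.induce {v}ᶜ).edgeFinset.card = G.edgeFinset.card - G.degree v :=
      by rw [card_edgeFinset_induce_compl_singleton, card_edgeFinset_deleteIncidenceSet]
    have h3 : (G.induce {v}ᶜ).edgeFinset.card ≤ maxEdges n g := by
      apply card_edges_le_maxEdges
      · exact hG.comap Subtype.val Subtype.val_injective (fun a b hab => hab)
      · rw [Fintype.card_compl_set, Fintype.card_fin]; simp
    have h4 : G.edgeFinset.card ≤ maxEdges n g + G.degree v := by omega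
    have h5 : (G.edgeFinset.card : ℝ) ≤ maxEdges n g + G.degree v := by exact_mod_cast h4
    rw [← hcard]
    have h6 : (n : ℝ) ^ ((1 : ℝ) / k) ≤ ((n + 1 : ℕ) : ℝ) ^ ((1 : ℝ) / k) := by
      apply Real.rpow_le_rpow (by positivity) _ (by positivity)
      push_cast; linarith
    have h7 : (n : ℝ) * ((n : ℝ) ^ ((1 : ℝ) / k) + 1) ≤
        n * (((n + 1 : ℕ) : ℝ) ^ ((1 : ℝ) / k) + 1) :=
      mul_le_mul_of_nonneg_left (by linarith) (by positivity)
    have h8 : ((n + 1 : ℕ) : ℝ) * (((n + 1 : ℕ) : ℝ) ^ ((1 : ℝ) / k) + 1) =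
        n * (((n + 1 : ℕ) : ℝ) ^ ((1 : ℝ) / k) + 1) + (((n + 1 : ℕ) : ℝ) ^ ((1 : ℝ) / k) + 1) := by
      push_cast; ring
    rw [h8]
    linarith

end Pool.Agent.Helper72.Cyc
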