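import Pool.Agent.Helper72.Cyc.Trans

/-!
# Bipartite incidence graphs
-/

set_option linter.unusedSectionVars false

namespace Pool.Agent.Helper72.Cyc

open SimpleGraph Finset

/-- The bipartite graph of a relation. -/
def bip {A B : Type*} (I : A → B → Prop) : SimpleGraph (A ⊕ B) where
  Adj u v := (∃ a b, I a b ∧ u = Sum.inl a ∧ v = Sum.inr b) ∨
    (∃ a b, I a b ∧ v = Sum.inl a ∧ u = Sum.inr b)
  symm := ⟨fun _ _ h => h.symm⟩
  loopless := ⟨by
    rintro u (⟨a, b, -, h1, h2⟩ | ⟨a, b, -, h1, h2⟩)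
    · rw [h1] at h2; exact Sum.inl_ne_inr h2
    · rw [h1] at h2; exact Sum.inl_ne_inr h2⟩

lemma bip_adj_lr {A B : Type*} {I : A → B → Prop} {a : A} {b : B} :
    (bip I).Adj (Sum.inl a) (Sum.inr b) ↔ I a b := by
  constructor
  · rintro (⟨a', b', h, h1, h2⟩ | ⟨a', b', -, h1, -⟩)
    · rw [Sum.inl.injEq] at h1
      rw [Sum.inr.injEq] at h2
      rw [h1, h2]; exact h
    · exact absurd h1 Sum.inr_ne_inl
  · intro h; exact Or.inl ⟨a, b, h, rfl, rfl⟩

lemma bip_isLeft {A B : Type*} {I : A → B → Prop} {u v : A ⊕ B} (h : (bip I).Adj u v) :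
    v.isLeft = !u.isLeft := by
  rcases h with ⟨a, b, -, rfl, rfl⟩ | ⟨a, b, -, rfl, rfl⟩ <;> rfl

/-- Cast to the cyclic index set. -/
def cc (m : ℕ) (j : ℕ) : Fin (m + 3) := ⟨j % (m + 3), Nat.mod_lt _ (by omega)⟩

lemma cc_succ (m j : ℕ) : cc m (j + 1) = cc m j + 1 := by
  apply Fin.ext
  rw [Fin.val_add]
  have h1 : ((1 : Fin (m + 3)) : ℕ) = 1 := rfl
  rw [h1]
  simp only [cc]
  rw [Nat.mod_add_mod]

lemma cc_zero (m : ℕ) : cc m 0 = 0 := by
  apply Fin.ext
  simp [cc]

lemma cc_self (m : ℕ) : cc m (m + 3) = 0 := by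
  apply Fin.ext
  simp [cc]

lemma cc_val {m j : ℕ} (h : j < m + 3) : (cc m j).val = j := Nat.mod_eq_of_lt h

lemma bip_seq_left {A B : Type*} {I : A → B → Prop} {m : ℕ} {f : Fin (m + 3) → A ⊕ B}
    (hf : Function.Injective f) (hadj : ∀ i, (bip I).Adj (f i) (f (i + 1)))
    (h0 : (f 0).isLeft = true) :
    ∃ (n : ℕ) (P : Fin (n + 2) → A) (L : Fin (n + 2) → B), m + 3 = 2 * (n + 2) ∧
      Function.Injective P ∧ Function.Injective L ∧ (∀ i, I (P i) (L i)) ∧
      ∀ i, I (P (i + 1)) (L i) := by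
  have hpar : ∀ j : ℕ, (f (cc m j)).isLeft = decide (j % 2 = 0) := by
    intro j
    induction j with
    | zero => rw [cc_zero, h0]; rfl
    | succ j ih =>
      have h1 := bip_isLeft (hadj (cc m j))
      rw [cc_succ, h1, ih]
      by_cases h2 : j % 2 = 0
      · have h3 : ¬ (j + 1) % 2 = 0 := by omega
        simp [h2, h3]
      · have h3 : (j + 1) % 2 = 0 := by omega
        simp [h2, h3]
  have heven : (m + 3) % 2 = 0 := by
    have h1 := hpar (m + 3)
    rw [cc_self, h0] at h1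
    by_contra hcon
    rw [decide_eq_false hcon] at h1
    exact absurd h1 (by simp)
  obtain ⟨n, hn⟩ : ∃ n, m + 3 = 2 * (n + 2) := ⟨(m + 3) / 2 - 2, by omega⟩
  have hP : ∀ i : Fin (n + 2), ∃ a, f (cc m (2 * i.val)) = Sum.inl a := by
    intro i
    have h1 := hpar (2 * i.val)
    rw [decide_eq_true (by omega)] at h1
    exact Sum.isLeft_iff.1 h1
  have hL : ∀ i : Fin (n + 2), ∃ b, f (cc m (2 * i.val + 1)) = Sum.inr b := by
    intro i
    have h1 := hpar (2 * i.val + 1)
    rw [decide_eq_false (by omega)] at h1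
    rw [Sum.isLeft_eq_false] at h1
    exact Sum.isRight_iff.1 h1
  choose P hP using hP
  choose L hL using hL
  refine ⟨n, P, L, hn, ?_, ?_, ?_, ?_⟩
  · intro i j hij
    have h1 : f (cc m (2 * i.val)) = f (cc m (2 * j.val)) := by
      rw [hP, hP, hij]
    have h2 := congrArg Fin.val (hf h1)
    rw [cc_val (by have := i.2; omega), cc_val (by have := j.2; omega)] at h2
    exact Fin.ext (by omega)
  · intro i j hij
    have h1 : f (cc m (2 * i.val + 1)) = f (cc m (2 * j.val + 1)) := by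
      rw [hL, hL, hij]
    have h2 := congrArg Fin.val (hf h1)
    rw [cc_val (by have := i.2; omega), cc_val (by have := j.2; omega)] at h2
    exact Fin.ext (by omega)
  · intro i
    have h1 := hadj (cc m (2 * i.val))
    rw [← cc_succ, hP, hL] at h1
    exact bip_adj_lr.1 h1
  · intro i
    have h1 := hadj (cc m (2 * i.val + 1))
    rw [← cc_succ, hL] at h1
    have h2 : cc m (2 * i.val + 1 + 1) = cc m (2 * (i + 1).val) := by
      by_cases hi : i.val + 1 < n + 2
      · have h3 : (i + 1).val = i.val + 1 := by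
          rw [Fin.val_add]
          have h4 : ((1 : Fin (n + 2)) : ℕ) = 1 := rfl
          rw [h4, Nat.mod_eq_of_lt hi]
        rw [h3]
        congr 1
      · have hi' : i.val = n + 1 := by have := i.2; omega
        have h3 : (i + 1).val = 0 := by
          rw [Fin.val_add]
          have h4 : ((1 : Fin (n + 2)) : ℕ) = 1 := rfl
          rw [h4, hi', Nat.mod_self]
        rw [h3, hi']
        have h5 : 2 * (n + 1) + 1 + 1 = m + 3 := by omega
        rw [h5, cc_self, Nat.mul_zero, cc_zero]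
    rw [h2, hP] at h1
    exact bip_adj_lr.1 h1.symm

lemma bip_seq {A B : Type*} {I : A → B → Prop} {m : ℕ} {f : Fin (m + 3) → A ⊕ B}
    (hf : Function.Injective f) (hadj : ∀ i, (bip I).Adj (f i) (f (i + 1))) :
    ∃ (n : ℕ) (P : Fin (n + 2) → A) (L : Fin (n + 2) → B), m + 3 = 2 * (n + 2) ∧
      Function.Injective P ∧ Function.Injective L ∧ (∀ i, I (P i) (L i)) ∧
      ∀ i, I (P (i + 1)) (L i) := by
  by_cases h0 : (f 0).isLeft = true
  · exact bip_seq_left hf hadj h0
  · apply bip_seq_left (f := fun i => f (i + 1)) (I := I)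
    · intro i j hij
      exact add_right_cancel (hf hij)
    · intro i; exact hadj (i + 1)
    · have h1 := bip_isLeft (hadj 0)
      show (f (0 + 1)).isLeft = true
      rw [h1]
      simpa using h0

open scoped Classical in
lemma card_bip_edges {A B T : Type*} [Fintype A] [Fintype B] [Fintype T] {I : A → B → Prop}
    (φ : T → A) (ψ : T → B) (hI : ∀ t, I (φ t) (ψ t))
    (hinj : ∀ s t, φ s = φ t → ψ s = ψ t → s = t) :
    Fintype.card T ≤ (bip I).edgeFinset.card := by
  rw [← Finset.card_univ]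
  apply Finset.card_le_card_of_injOn (fun t => s(Sum.inl (φ t), Sum.inr (ψ t)))
  · intro t _
    rw [Finset.mem_coe, mem_edgeFinset, mem_edgeSet]
    exact bip_adj_lr.2 (hI t)
  · intro s _ t _ hst
    simp only [Sym2.eq_iff] at hst
    rcases hst with ⟨h1, h2⟩ | ⟨h1, h2⟩
    · exact hinj s t (Sum.inl_injective h1) (Sum.inr_injective h2)
    · exact absurd h1 Sum.inl_ne_inr

end Pool.Agent.Helper72.Cyc
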