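import Pool.Agent.Helper72.Cyc.BlockMain

/-!
# Asymptotics of the largest number of cycles
-/

set_option linter.unusedSectionVars false

namespace Pool.Agent.Helper72.Cyc

open SimpleGraph Finset

lemma gp_induct {g : ℕ} (F : ℕ → ℝ) {C0 C1 : ℝ}
    (hreg : ∀ n s : ℕ, 1 ≤ s → s ≤ n → ((n - s : ℕ) : ℝ) * (F n - F (n - s)) ≤ C0 * s)
    (hblock : ∀ n : ℕ, 1 ≤ n → ∃ s, 1 ≤ s ∧ s ≤ n ∧ GP g s (s * (F n - C1))) :
    ∀ n : ℕ, GP g n (n * (F n - (C0 + C1))) := by
  intro n
  induction n using Nat.strong_induction_on with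
  | _ n ih =>
    rcases Nat.eq_zero_or_pos n with h0 | hpos
    · subst h0
      exact GP_of_nonpos g 0 (by simp)
    · obtain ⟨s, hs1, hs2, hGP⟩ := hblock n hpos
      have h1 := hGP.add (ih (n - s) (by omega))
      have h2 := hreg n s hs1 hs2
      refine h1.mono (by omega) ?_
      have h3 : ((n - s : ℕ) : ℝ) = n - s := by rw [Nat.cast_sub hs2]
      rw [h3] at h2 ⊢
      nlinarith

/-- The number of cycles is at most `(2 ρ + 1) ^ n`. -/
lemma maxCycles_le (g : ℕ) {n : ℕ} (hn : 1 ≤ n) :
    (maxCycles n g : ℝ) ≤ (2 * rho g n + 1) ^ n := by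
  classical
  obtain ⟨G, hG, hcard⟩ := exists_maxCycles n g
  rw [← hcard]
  have h1 := numCycles_le_prod G
  have hnpos : (0 : ℝ) < n := by exact_mod_cast hn
  have h2 : G.edgeFinset.card ≤ maxEdges n g :=
    card_edges_le_maxEdges' hG (by rw [Fintype.card_fin])
  set a : ℝ := (2 * (G.edgeFinset.card : ℝ) + n) / n with ha
  have hapos : 0 < a := by positivity
  have hsum : ∑ v, ((G.degree v : ℝ) + 1) = n * a := by
    have h3 := G.sum_degrees_eq_twice_card_edges
    have h4 : (∑ v, (G.degree v : ℝ)) = 2 * G.edgeFinset.card := by exact_mod_cast h3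
    rw [Finset.sum_add_distrib, h4, Finset.sum_const, Finset.card_univ, Fintype.card_fin, ha]
    field_simp
    simp
  have h5 : ∏ v, (((G.degree v : ℝ) + 1) / a) ≤ 1 := by
    calc ∏ v, (((G.degree v : ℝ) + 1) / a)
        ≤ ∏ v : Fin n, Real.exp (((G.degree v : ℝ) + 1) / a - 1) := by
          apply Finset.prod_le_prod
          · intro v _; positivity
          · intro v _
            have := Real.add_one_le_exp (((G.degree v : ℝ) + 1) / a - 1)
            linarith
      _ = Real.exp (∑ v : Fin n, (((G.degree v : ℝ) + 1) / a - 1)) := (Real.exp_sum _ _).symm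
      _ = 1 := by
          rw [Finset.sum_sub_distrib, ← Finset.sum_div, hsum, Finset.sum_const, Finset.card_univ,
            Fintype.card_fin, mul_div_cancel_right₀ _ hapos.ne']
          simp
  have h6 : ((∏ v, (G.degree v + 1) : ℕ) : ℝ) ≤ a ^ n := by
    rw [Finset.prod_div_distrib, Finset.prod_const, Finset.card_univ, Fintype.card_fin,
      div_le_one (by positivity)] at h5
    push_cast
    exact h5
  have h7 : a ≤ 2 * rho g n + 1 := by
    rw [ha, div_le_iff₀ hnpos]
    have h8 := rho_mul g hn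
    have h9 : (G.edgeFinset.card : ℝ) ≤ maxEdges n g := by exact_mod_cast h2
    nlinarith
  calc ((numCycles G : ℕ) : ℝ) ≤ ((∏ v, (G.degree v + 1) : ℕ) : ℝ) := by exact_mod_cast h1
    _ ≤ a ^ n := h6
    _ ≤ (2 * rho g n + 1) ^ n := by gcongr

lemma two_mul_maxEdges_le (g m : ℕ) : 2 * maxEdges (m + 1) g ≤ (m + 1) * m := by
  classical
  obtain ⟨G, hG, hcard⟩ := exists_maxEdges (m + 1) g
  rw [← hcard]
  have h1 := G.sum_degrees_eq_twice_card_edges
  have h2 : ∑ v, G.degree v ≤ ∑ v : Fin (m + 1), m := by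
    apply Finset.sum_le_sum
    intro v _
    have := G.degree_lt_card_verts v
    rw [Fintype.card_fin] at this
    omega
  rw [Finset.sum_const, Finset.card_univ, Fintype.card_fin, smul_eq_mul] at h2
  omega

lemma rho_step (g : ℕ) {n : ℕ} (hn : 1 ≤ n) :
    (1 + rho g (n + 1)) * n ≤ (1 + rho g n) * (n + 1 : ℕ) := by
  have h1 := maxEdges_step n g
  have h2 := rho_mul g hn
  have h3 := rho_mul g (show 1 ≤ n + 1 by omega)
  have h4 : (2 : ℝ) * maxEdges (n + 1) g ≤ (n + 1) * n := by
    exact_mod_cast two_mul_maxEdges_le g n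
  rw [← h2, ← h3] at h1
  rw [← h3] at h4
  push_cast at h1 h3 h4 ⊢
  have hnpos : (0 : ℝ) < n := by exact_mod_cast hn
  set x := rho g (n + 1)
  set y := rho g n
  -- h1 : x (n+1) (n-1) ≤ y n (n+1),  h4 : 2 x (n+1) ≤ (n+1) n
  have h5 : x * (n - 1) ≤ y * n := by
    have h6 : (x * (n - 1)) * (n + 1) ≤ (y * n) * (n + 1) := by linarith
    exact le_of_mul_le_mul_right h6 (by positivity)
  have h7 : 2 * x ≤ n := by
    have h8 : (2 * x) * (n + 1) ≤ (n : ℝ) * (n + 1) := by linarith
    exact le_of_mul_le_mul_right h8 (by positivity)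
  have hy : 0 ≤ y := rho_nonneg g n
  nlinarith

lemma rho_ratio (g : ℕ) {j n : ℕ} (hj : 1 ≤ j) (hjn : j ≤ n) :
    (1 + rho g n) * j ≤ (1 + rho g j) * n := by
  induction n, hjn using Nat.le_induction with
  | base => exact le_rfl
  | succ n hn ih =>
    have h1 := rho_step g (show 1 ≤ n by omega)
    have hnpos : (0 : ℝ) < n := by exact_mod_cast (show 0 < n by omega)
    have hjpos : (0 : ℝ) < j := by exact_mod_cast (show 0 < j by omega)
    have h2 : ((1 + rho g (n + 1)) * j) * n ≤ ((1 + rho g j) * (n + 1 : ℕ)) * n := by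
      calc ((1 + rho g (n + 1)) * j) * n = ((1 + rho g (n + 1)) * n) * j := by ring
        _ ≤ ((1 + rho g n) * (n + 1 : ℕ)) * j := mul_le_mul_of_nonneg_right h1 hjpos.le
        _ = ((1 + rho g n) * j) * (n + 1 : ℕ) := by ring
        _ ≤ ((1 + rho g j) * n) * (n + 1 : ℕ) := mul_le_mul_of_nonneg_right ih (by positivity)
        _ = _ := by ring
    exact le_of_mul_le_mul_right h2 hnpos

lemma mul_log_div_le {n j : ℝ} (hj : 0 < j) (hjn : j ≤ n) :
    j * Real.log (n / j) ≤ n - j := by
  have h1 : Real.log (n / j) ≤ n / j - 1 := Real.log_le_sub_one_of_pos (div_pos (hj.trans_le hjn) hj)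
  calc j * Real.log (n / j) ≤ j * (n / j - 1) := mul_le_mul_of_nonneg_left h1 hj.le
    _ = n - j := by field_simp

/-- The general lower bound. -/
lemma lower_general {g : ℕ} (hg : 3 ≤ g) {ε : ℝ} (hε : 0 < ε) (hε1 : ε < 1) :
    ∃ C : ℝ, ∀ n : ℕ, GP g n (n * ((1 - ε) * Real.log (1 + rho g n) - C)) := by
  have hgpos : (0 : ℝ) < g := by exact_mod_cast (show 0 < g by omega)
  set δ := ε / g with hδ
  have hδpos : 0 < δ := by positivity
  obtain ⟨C, hC, hblock⟩ := block hg (K := 1) one_pos hδpos
  set c2 := (g : ℝ) * Real.log 12 + Real.log 2 with hc2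
  have hlog12 : 0 ≤ Real.log 12 := Real.log_nonneg (by norm_num)
  have hlog2 : 0 ≤ Real.log 2 := Real.log_nonneg (by norm_num)
  have hc2pos : 0 ≤ c2 := by positivity
  refine ⟨1 + (C + Real.log 2 + δ * c2), ?_⟩
  apply gp_induct (fun n => (1 - ε) * Real.log (1 + rho g n))
  · intro n s hs hsn
    rcases Nat.eq_zero_or_pos (n - s) with h0 | hpos
    · rw [h0]; simp
    · have hj : (0 : ℝ) < ((n - s : ℕ) : ℝ) := by exact_mod_cast hpos
      have hratio := rho_ratio g hpos (Nat.sub_le n s)
      have hρ1 : 0 < 1 + rho g n := by have := rho_nonneg g n; linarith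
      have hρ2 : 0 < 1 + rho g (n - s) := by have := rho_nonneg g (n - s); linarith
      have hnpos : (0 : ℝ) < n := by exact_mod_cast (show 0 < n by omega)
      have hjn : ((n - s : ℕ) : ℝ) ≤ n := by exact_mod_cast Nat.sub_le n s
      have h1 : Real.log (1 + rho g n) - Real.log (1 + rho g (n - s)) ≤
          Real.log (n / ((n - s : ℕ) : ℝ)) := by
        rw [← Real.log_div hρ1.ne' hρ2.ne']
        apply Real.log_le_log (div_pos hρ1 hρ2)
        rw [div_le_div_iff₀ hρ2 hj]
        linarith
      have h2 : 0 ≤ Real.log (n / ((n - s : ℕ) : ℝ)) := by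
        apply Real.log_nonneg
        rw [le_div_iff₀ hj]; linarith
      have h3 := mul_log_div_le hj hjn
      have h4 : (n : ℝ) - ((n - s : ℕ) : ℝ) = s := by rw [Nat.cast_sub hsn]; ring
      rw [h4] at h3
      have h5 : (1 - ε) * Real.log (1 + rho g n) - (1 - ε) * Real.log (1 + rho g (n - s)) ≤
          Real.log (n / ((n - s : ℕ) : ℝ)) := by
        have h6 : (1 - ε) * (Real.log (1 + rho g n) - Real.log (1 + rho g (n - s))) ≤
            (1 - ε) * Real.log (n / ((n - s : ℕ) : ℝ)) :=
          mul_le_mul_of_nonneg_left h1 (by linarith)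
        nlinarith
      calc ((n - s : ℕ) : ℝ) * ((1 - ε) * Real.log (1 + rho g n) -
            (1 - ε) * Real.log (1 + rho g (n - s)))
          ≤ ((n - s : ℕ) : ℝ) * Real.log (n / ((n - s : ℕ) : ℝ)) :=
            mul_le_mul_of_nonneg_left h5 hj.le
        _ ≤ s := h3
        _ = 1 * s := (one_mul _).symm
  · intro n hn
    have hnpos : (0 : ℝ) < n := by exact_mod_cast hn
    by_cases hsmall : rho g n < 1
    · refine ⟨1, le_rfl, hn, GP_of_nonpos g 1 ?_⟩
      have h1 : Real.log (1 + rho g n) ≤ Real.log 2 := by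
        apply Real.log_le_log
        · have := rho_nonneg g n; linarith
        · linarith
      have h0 : 0 ≤ Real.log (1 + rho g n) :=
        Real.log_nonneg (by have := rho_nonneg g n; linarith)
      have h2 : (1 - ε) * Real.log (1 + rho g n) ≤ Real.log 2 := by nlinarith
      have h3 : 0 ≤ δ * c2 := by positivity
      push_cast
      linarith
    · push Not at hsmall
      obtain ⟨m, hm, hmax⟩ := Finset.exists_max_image (Finset.Icc 1 n)
        (fun m => rho g m / (m : ℝ) ^ δ) ⟨1, Finset.mem_Icc.2 ⟨le_rfl, hn⟩⟩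
      rw [Finset.mem_Icc] at hm
      have hmpos : (0 : ℝ) < m := by exact_mod_cast hm.1
      have hmδ : (0 : ℝ) < (m : ℝ) ^ δ := Real.rpow_pos_of_pos hmpos _
      have hnδ : (0 : ℝ) < (n : ℝ) ^ δ := Real.rpow_pos_of_pos hnpos _
      obtain ⟨s, hs1, hs2, hGP⟩ := hblock m hm.1 (by
        intro m' hm'
        rcases Nat.eq_zero_or_pos m' with h0 | hpos
        · subst h0
          have : rho g 0 = 0 := by unfold rho; simp
          rw [this]
          have := rho_nonneg g m
          positivity
        · have h1 := hmax m' (Finset.mem_Icc.2 ⟨hpos, hm'.trans hm.2⟩)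
          have hm'pos : (0 : ℝ) < m' := by exact_mod_cast hpos
          have hm'δ : (0 : ℝ) < (m' : ℝ) ^ δ := Real.rpow_pos_of_pos hm'pos _
          rw [div_le_div_iff₀ hm'δ hmδ] at h1
          rw [Real.div_rpow hm'pos.le hmpos.le, one_mul, mul_div_assoc', le_div_iff₀ hmδ]
          exact h1)
      refine ⟨s, hs1, hs2.trans hm.2, hGP.mono le_rfl ?_⟩
      apply mul_le_mul_of_nonneg_left _ (by positivity)
      -- compare the densities at `m` and `n`
      have h1 := hmax n (Finset.mem_Icc.2 ⟨hn, le_rfl⟩)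
      have hρn : 0 < rho g n := by linarith
      have hρm : 0 < rho g m := by
        have h2 : 0 < rho g n / (n : ℝ) ^ δ := by positivity
        have h3 : 0 < rho g m / (m : ℝ) ^ δ := h2.trans_le h1
        by_contra hcon
        push Not at hcon
        have : rho g m / (m : ℝ) ^ δ ≤ 0 := div_nonpos_of_nonpos_of_nonneg hcon hmδ.le
        linarith
      have h2 : Real.log (rho g n) - δ * Real.log n ≤ Real.log (rho g m) := by
        have h3 : rho g n / (n : ℝ) ^ δ ≤ rho g m := by
          refine h1.trans ?_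
          apply div_le_self hρm.le
          apply Real.one_le_rpow _ hδpos.le
          exact_mod_cast hm.1
        have h4 := Real.log_le_log (by positivity) h3
        rw [Real.log_div hρn.ne' hnδ.ne', Real.log_rpow hnpos] at h4
        exact h4
      have h3 := log_le_rho (show 1 ≤ g by omega) hn hsmall
      rw [← hc2] at h3
      have h4 : δ * Real.log n ≤ ε * Real.log (rho g n) + δ * c2 := by
        have h5 : δ * Real.log n ≤ δ * (g * Real.log (rho g n) + c2) :=
          mul_le_mul_of_nonneg_left h3 hδpos.le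
        have h6 : δ * (g * Real.log (rho g n) + c2) = (δ * g) * Real.log (rho g n) + δ * c2 := by
          ring
        have h7 : δ * g = ε := by rw [hδ]; field_simp
        rw [h6, h7] at h5
        exact h5
      have h5 : Real.log (1 + rho g n) ≤ Real.log 2 + Real.log (rho g n) := by
        rw [← Real.log_mul (by norm_num) hρn.ne']
        apply Real.log_le_log (by linarith)
        linarith
      have h6 : (1 - ε) * Real.log (1 + rho g n) ≤ (1 - ε) * (Real.log 2 + Real.log (rho g n)) :=
        mul_le_mul_of_nonneg_left h5 (by linarith)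
      nlinarith

end Pool.Agent.Helper72.Cyc
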