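import Pool.Agent.Helper72.Cyc.Gadget

/-!
# Closing a gadget: every permutation of a gadget gives a cycle of one graph
-/

namespace Pool.Agent.Helper72.Cyc

open SimpleGraph Finset

section

variable {W : Type*} (G : SimpleGraph W) (R : Finset W) (s : W → W) (g : ℕ)
  (next : R → R)

/-- Oriented relation of the closed-up graph. -/
def crel : W ⊕ (R × Fin g) → W ⊕ (R × Fin g) → Prop
  | Sum.inl a, Sum.inl b => G.Adj a b
  | Sum.inl a, Sum.inr p => a = s p.1 ∧ p.2.val = 0
  | Sum.inr p, Sum.inl a => p.2.val + 1 = g ∧ a = next p.1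
  | Sum.inr p, Sum.inr q => p.1 = q.1 ∧ p.2.val + 1 = q.2.val

/-- The closed-up graph. -/
def closeGraph : SimpleGraph (W ⊕ (R × Fin g)) where
  Adj x y := crel G R s g next x y ∨ crel G R s g next y x
  symm := ⟨fun _ _ h => h.symm⟩
  loopless := ⟨by
    rintro (a | p) (h | h)
    · exact G.loopless.irrefl a h
    · exact G.loopless.irrefl a h
    · exact absurd h.2 (by omega)
    · exact absurd h.2 (by omega)⟩

lemma closeGraph_inl {a b : W} :
    (closeGraph G R s g next).Adj (Sum.inl a) (Sum.inl b) ↔ G.Adj a b := by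
  show (G.Adj a b ∨ G.Adj b a) ↔ _
  rw [G.adj_comm b a, or_self]

open scoped Classical in
/-- The closed-up permutation, as a function. -/
noncomputable def closeFun (σ : Equiv.Perm W) : W ⊕ (R × Fin g) → W ⊕ (R × Fin g)
  | Sum.inl v => if h : σ v ∈ R ∧ 0 < g then Sum.inr (⟨σ v, h.1⟩, ⟨0, h.2⟩) else Sum.inl (σ v)
  | Sum.inr p => if h : p.2.val + 1 < g then Sum.inr (p.1, ⟨p.2.val + 1, h⟩)
      else Sum.inl (next p.1)

end

section

variable {W : Type*} {G : SimpleGraph W} {R : Finset W} {s : W → W} {g : ℕ}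
  {next : R → R}

lemma closeFun_inl_mem {σ : Equiv.Perm W} {v : W} (hg : 0 < g) (h : σ v ∈ R) :
    closeFun R g next σ (Sum.inl v) = Sum.inr (⟨σ v, h⟩, ⟨0, hg⟩) := by
  exact dif_pos (show σ v ∈ R ∧ 0 < g from ⟨h, hg⟩)

lemma closeFun_inl_not {σ : Equiv.Perm W} {v : W} (h : σ v ∉ R) :
    closeFun R g next σ (Sum.inl v) = Sum.inl (σ v) := by
  exact dif_neg (show ¬ (σ v ∈ R ∧ 0 < g) from fun h' => h h'.1)

lemma closeFun_inr_lt {σ : Equiv.Perm W} {r : R} {i : Fin g} (h : i.val + 1 < g) :
    closeFun R g next σ (Sum.inr (r, i)) = Sum.inr (r, ⟨i.val + 1, h⟩) := by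
  exact dif_pos h

lemma closeFun_inr_last {σ : Equiv.Perm W} {r : R} {i : Fin g} (h : ¬ i.val + 1 < g) :
    closeFun R g next σ (Sum.inr (r, i)) = Sum.inl ((next r : R) : W) := by
  exact dif_neg h

lemma closeFun_inj (hg : 0 < g) (hnext : Function.Injective next) (σ : Equiv.Perm W) :
    Function.Injective (closeFun R g next σ) := by
  rintro (v | ⟨r, i⟩) (w | ⟨r', j⟩) h
  · by_cases hv : σ v ∈ R
    · by_cases hw : σ w ∈ R
      · rw [closeFun_inl_mem hg hv, closeFun_inl_mem hg hw] at h
        simp only [Sum.inr.injEq, Prod.mk.injEq, Subtype.mk.injEq] at h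
        rw [σ.injective h.1]
      · rw [closeFun_inl_mem hg hv, closeFun_inl_not hw] at h
        simp at h
    · by_cases hw : σ w ∈ R
      · rw [closeFun_inl_not hv, closeFun_inl_mem hg hw] at h
        simp at h
      · rw [closeFun_inl_not hv, closeFun_inl_not hw] at h
        simp only [Sum.inl.injEq] at h
        rw [σ.injective h]
  · by_cases hv : σ v ∈ R
    · by_cases hj : j.val + 1 < g
      · rw [closeFun_inl_mem hg hv, closeFun_inr_lt hj] at h
        simp only [Sum.inr.injEq, Prod.mk.injEq, Fin.mk.injEq] at h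
        omega
      · rw [closeFun_inl_mem hg hv, closeFun_inr_last hj] at h
        simp at h
    · by_cases hj : j.val + 1 < g
      · rw [closeFun_inl_not hv, closeFun_inr_lt hj] at h
        simp at h
      · rw [closeFun_inl_not hv, closeFun_inr_last hj] at h
        simp only [Sum.inl.injEq] at h
        exact absurd (h ▸ (next r').2) hv
  · by_cases hv : σ w ∈ R
    · by_cases hj : i.val + 1 < g
      · rw [closeFun_inl_mem hg hv, closeFun_inr_lt hj] at h
        simp only [Sum.inr.injEq, Prod.mk.injEq, Fin.mk.injEq] at h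
        omega
      · rw [closeFun_inl_mem hg hv, closeFun_inr_last hj] at h
        simp at h
    · by_cases hj : i.val + 1 < g
      · rw [closeFun_inl_not hv, closeFun_inr_lt hj] at h
        simp at h
      · rw [closeFun_inl_not hv, closeFun_inr_last hj] at h
        simp only [Sum.inl.injEq] at h
        exact absurd (h ▸ (next r).2) hv
  · by_cases hi : i.val + 1 < g
    · by_cases hj : j.val + 1 < g
      · rw [closeFun_inr_lt hi, closeFun_inr_lt hj] at h
        simp only [Sum.inr.injEq, Prod.mk.injEq, Fin.mk.injEq] at h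
        have : i = j := Fin.ext (by omega)
        rw [h.1, this]
      · rw [closeFun_inr_lt hi, closeFun_inr_last hj] at h
        simp at h
    · by_cases hj : j.val + 1 < g
      · rw [closeFun_inr_last hi, closeFun_inr_lt hj] at h
        simp at h
      · rw [closeFun_inr_last hi, closeFun_inr_last hj] at h
        simp only [Sum.inl.injEq] at h
        have h1 : r = r' := hnext (Subtype.ext h)
        have : i = j := Fin.ext (by omega)
        rw [h1, this]

/-- The closed-up permutation. -/
noncomputable def closePerm [Finite W] (hg : 0 < g) (hnext : Function.Injective next)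
    (σ : Equiv.Perm W) : Equiv.Perm (W ⊕ (R × Fin g)) :=
  Equiv.ofBijective (closeFun R g next σ)
    (Finite.injective_iff_bijective.1 (closeFun_inj hg hnext σ))

lemma closePerm_apply [Finite W] (hg : 0 < g) (hnext : Function.Injective next)
    (σ : Equiv.Perm W) (x : W ⊕ (R × Fin g)) :
    closePerm hg hnext σ x = closeFun R g next σ x := rfl

lemma closePerm_adj [Finite W] (hg : 0 < g) (hnext : Function.Injective next)
    {σ : Equiv.Perm W} (hσ : Good G R s σ) (x : W ⊕ (R × Fin g)) :
    (closeGraph G R s g next).Adj x (closePerm hg hnext σ x) := by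
  left
  rw [closePerm_apply]
  rcases x with v | ⟨r, i⟩
  · by_cases hv : σ v ∈ R
    · rw [closeFun_inl_mem hg hv]
      refine ⟨?_, rfl⟩
      have := hσ.close (σ v) hv
      exact (σ.injective this).symm
    · rw [closeFun_inl_not hv]
      exact hσ.adj v
  · by_cases hi : i.val + 1 < g
    · rw [closeFun_inr_lt hi]
      exact ⟨rfl, rfl⟩
    · rw [closeFun_inr_last hi]
      exact ⟨by have := i.2; simp only; omega, rfl⟩

lemma closePerm_injective [Finite W] (hg : 0 < g) (hnext : Function.Injective next)
    {σ τ : Equiv.Perm W} (h : closePerm (g := g) hg hnext σ = closePerm hg hnext τ) : σ = τ := by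
  ext v
  have h1 := congrArg (fun π : Equiv.Perm (W ⊕ (R × Fin g)) => π (Sum.inl v)) h
  simp only [closePerm_apply] at h1
  by_cases hv : σ v ∈ R
  · by_cases hw : τ v ∈ R
    · rw [closeFun_inl_mem hg hv, closeFun_inl_mem hg hw] at h1
      simp only [Sum.inr.injEq, Prod.mk.injEq, Subtype.mk.injEq] at h1
      exact h1.1
    · rw [closeFun_inl_mem hg hv, closeFun_inl_not hw] at h1
      simp at h1
  · by_cases hw : τ v ∈ R
    · rw [closeFun_inl_not hv, closeFun_inl_mem hg hw] at h1
      simp at h1
    · rw [closeFun_inl_not hv, closeFun_inl_not hw] at h1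
      simpa using h1

lemma sameCycle_step {U : Type*} {π : Equiv.Perm U} {x y : U} (h : π.SameCycle x y) :
    π.SameCycle x (π y) := h.trans ⟨1, by simp⟩

lemma closePerm_sameCycle [Finite W] (hg : 0 < g) (hnext : Function.Injective next)
    {σ : Equiv.Perm W} (hσ : Good G R s σ)
    (hchain : ∀ P : R → Prop, (∃ r, P r) → (∀ r, P r → P (next r)) → ∀ r, P r)
    (x y : W ⊕ (R × Fin g)) : (closePerm hg hnext σ).SameCycle x y := by
  classical
  have := Fintype.ofFinite W
  set π := closePerm (g := g) hg hnext σ with hπ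
  have ha : ∀ r ∈ R, ∀ k : ℕ, π.SameCycle (Sum.inl r) (Sum.inl ((σ ^ k) r)) := by
    intro r hr k
    induction k with
    | zero => exact ⟨0, by simp⟩
    | succ k ih =>
      rw [pow_succ', Equiv.Perm.mul_apply]
      by_cases hv : σ ((σ ^ k) r) ∈ R
      · have h1 : σ.SameCycle r (σ ((σ ^ k) r)) := ⟨((k + 1 : ℕ) : ℤ), by
          rw [zpow_natCast, pow_succ', Equiv.Perm.mul_apply]⟩
        have h2 := hσ.uniq r hr _ hv h1
        rw [← h2]
      · have h3 : π (Sum.inl ((σ ^ k) r)) = Sum.inl (σ ((σ ^ k) r)) := by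
          rw [hπ, closePerm_apply, closeFun_inl_not hv]
        rw [← h3]
        exact sameCycle_step ih
  have hb : ∀ r ∈ R, π.SameCycle (Sum.inl r) (Sum.inl (s r)) := by
    intro r hr
    have h1 : σ.SameCycle r (s r) := ⟨-1, by
      rw [zpow_neg_one, Equiv.Perm.inv_eq_iff_eq]; exact (hσ.close r hr).symm⟩
    obtain ⟨k, -, hk⟩ := h1.exists_pow_eq'
    have := ha r hr k
    rwa [hk] at this
  have hc : ∀ (r : R) (i : ℕ) (hi : i < g),
      π.SameCycle (Sum.inl (r : W)) (Sum.inr (r, ⟨i, hi⟩)) := by
    intro r i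
    induction i with
    | zero =>
      intro hi
      have h1 := sameCycle_step (hb r r.2)
      have h2 : σ (s r) = r := hσ.close r r.2
      have h3 : σ (s r) ∈ R := by rw [h2]; exact r.2
      rw [hπ, closePerm_apply, closeFun_inl_mem hg h3, ← hπ] at h1
      have h4 : (⟨σ (s r), h3⟩ : R) = r := Subtype.ext h2
      rwa [h4] at h1
    | succ i ih =>
      intro hi
      have h1 := sameCycle_step (ih (by omega))
      rw [hπ, closePerm_apply, closeFun_inr_lt hi, ← hπ] at h1
      exact h1
  have hd : ∀ r : R, π.SameCycle (Sum.inl (r : W)) (Sum.inl ((next r : R) : W)) := by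
    intro r
    have h1 := sameCycle_step (hc r (g - 1) (by omega))
    rw [hπ, closePerm_apply, closeFun_inr_last (by simp only; omega), ← hπ] at h1
    exact h1
  have hall : ∀ r r' : R, π.SameCycle (Sum.inl (r : W)) (Sum.inl (r' : W)) := by
    intro r
    apply hchain (fun r' => π.SameCycle (Sum.inl (r : W)) (Sum.inl (r' : W)))
    · exact ⟨r, ⟨0, by simp⟩⟩
    · intro r' h
      exact h.trans (hd r')
  have hrep : ∀ x : W ⊕ (R × Fin g), ∃ r : R, π.SameCycle (Sum.inl (r : W)) x := by
    rintro (v | ⟨r, i⟩)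
    · obtain ⟨r, hr, h1⟩ := hσ.cover v
      obtain ⟨k, -, hk⟩ := h1.exists_pow_eq'
      refine ⟨⟨r, hr⟩, ?_⟩
      have := ha r hr k
      rwa [hk] at this
    · exact ⟨r, hc r i.1 i.2⟩
  obtain ⟨r, hr⟩ := hrep x
  obtain ⟨r', hr'⟩ := hrep y
  exact hr.symm.trans ((hall r r').trans hr')


lemma nbr_up {r : R} {j : Fin g} {y : W ⊕ (R × Fin g)}
    (h : (closeGraph G R s g next).Adj (Sum.inr (r, j)) y) (hj : j.val + 1 < g) :
    y = Sum.inr (r, ⟨j.val + 1, hj⟩) ∨
      y = if 0 < j.val then Sum.inr (r, ⟨j.val - 1, by omega⟩) else Sum.inl (s r) := by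
  rcases y with a | ⟨r', j'⟩
  · rcases h with h | h
    · exact absurd h.1 (by simp only; omega)
    · right
      have h2 : j.val = 0 := h.2
      rw [if_neg (by omega)]
      rw [h.1]
  · rcases h with h | h
    · left
      have h1 : r = r' := h.1
      have h2 : j.val + 1 = j'.val := h.2
      subst h1
      congr 2
      exact Fin.ext h2.symm
    · right
      have h1 : r' = r := h.1
      have h2 : j'.val + 1 = j.val := h.2
      subst h1
      rw [if_pos (by omega)]
      congr 2
      apply Fin.ext
      simp only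
      omega

lemma nbr_down {r : R} {j : Fin g} {y : W ⊕ (R × Fin g)}
    (h : (closeGraph G R s g next).Adj (Sum.inr (r, j)) y) (hj : 0 < j.val) :
    y = Sum.inr (r, ⟨j.val - 1, by omega⟩) ∨
      y = if h : j.val + 1 < g then Sum.inr (r, ⟨j.val + 1, h⟩) else Sum.inl (next r : W) := by
  rcases y with a | ⟨r', j'⟩
  · rcases h with h | h
    · right
      have h2 : j.val + 1 = g := h.1
      rw [dif_neg (by omega)]
      rw [h.2]
    · exact absurd h.2 (by simp only; omega)
  · rcases h with h | h
    · right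
      have h1 : r = r' := h.1
      have h2 : j.val + 1 = j'.val := h.2
      subst h1
      rw [dif_pos (by omega)]
      congr 2
      exact Fin.ext h2.symm
    · left
      have h1 : r' = r := h.1
      have h2 : j'.val + 1 = j.val := h.2
      subst h1
      congr 2
      apply Fin.ext
      simp only
      omega

lemma fin_add_sub_ne {m : ℕ} (i : Fin (m + 3)) : i + 1 ≠ i - 1 := by
  intro h
  have h1 : i + (1 + 1) = i := by
    rw [← add_assoc, h, sub_add_cancel]
  have h2 : (1 + 1 : Fin (m + 3)) = 0 := by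
    simpa using h1
  have h3 := congrArg Fin.val h2
  have h4 : ((1 : Fin (m + 3)) : ℕ) = 1 := rfl
  rw [Fin.val_add, h4, Nat.mod_eq_of_lt (by omega)] at h3
  exact absurd h3 (by simp)

lemma noShort_close (hG : NoShort G g) : NoShort (closeGraph G R s g next) g := by
  intro m f hf hadj
  have hadj' : ∀ i, (closeGraph G R s g next).Adj (f i) (f (i - 1)) := by
    intro i
    have := (hadj (i - 1)).symm
    rwa [sub_add_cancel] at this
  by_cases hex : ∃ (i : Fin (m + 3)) (r : R) (j : Fin g), f i = Sum.inr (r, j)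
  · obtain ⟨i0, r, j0, h0⟩ := hex
    have hup : ∀ j : ℕ, ∀ hj : j + 1 < g, (∃ i, f i = Sum.inr (r, ⟨j, by omega⟩)) →
        ∃ i, f i = Sum.inr (r, ⟨j + 1, hj⟩) := by
      rintro j hj ⟨i, hi⟩
      have h1 := hadj i
      have h2 := hadj' i
      rw [hi] at h1 h2
      rcases nbr_up h1 hj with h3 | h3
      · exact ⟨_, h3⟩
      · rcases nbr_up h2 hj with h4 | h4
        · exact ⟨_, h4⟩
        · exact absurd (hf (h3.trans h4.symm)) (fin_add_sub_ne i)
    have hdn : ∀ j : ℕ, ∀ hj : j + 1 < g, (∃ i, f i = Sum.inr (r, ⟨j + 1, hj⟩)) →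
        ∃ i, f i = Sum.inr (r, ⟨j, by omega⟩) := by
      rintro j hj ⟨i, hi⟩
      have h1 := hadj i
      have h2 := hadj' i
      rw [hi] at h1 h2
      rcases nbr_down h1 (by simp) with h3 | h3
      · exact ⟨_, h3⟩
      · rcases nbr_down h2 (by simp) with h4 | h4
        · exact ⟨_, h4⟩
        · exact absurd (hf (h3.trans h4.symm)) (fin_add_sub_ne i)
    have hzero : ∀ j : ℕ, ∀ hj : j < g, (∃ i, f i = Sum.inr (r, ⟨j, hj⟩)) →
        ∃ i, f i = Sum.inr (r, ⟨0, by omega⟩) := by
      intro j
      induction j with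
      | zero => intro hj h; exact h
      | succ j ih => intro hj h; exact ih (by omega) (hdn j hj h)
    have hall : ∀ j : ℕ, ∀ hj : j < g, ∃ i, f i = Sum.inr (r, ⟨j, hj⟩) := by
      intro j
      induction j with
      | zero => intro hj; exact hzero j0.1 j0.2 ⟨i0, h0⟩
      | succ j ih => intro hj; exact hup j hj (ih (by omega))
    have hch : ∀ j : Fin g, ∃ i, f i = Sum.inr (r, j) := fun j => hall j.1 j.2
    choose F hF using hch
    have hinj : Function.Injective F := by
      intro a b hab
      have := hF a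
      rw [hab, hF b] at this
      simp only [Sum.inr.injEq, Prod.mk.injEq, true_and] at this
      exact this.symm
    have := Fintype.card_le_of_injective F hinj
    simpa using this
  · push Not at hex
    have h : ∀ i, ∃ a, f i = Sum.inl a := by
      intro i
      rcases hi : f i with a | ⟨r, j⟩
      · exact ⟨a, rfl⟩
      · exact absurd hi (hex i r j)
    choose f' hf' using h
    apply hG m f'
    · intro i j hij
      apply hf
      rw [hf', hf', hij]
    · intro i
      have := hadj i
      rw [hf' i, hf' (i + 1), closeGraph_inl] at this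
      exact this

end


/-- A cyclic order on a nonempty finset. -/
lemma exists_next_perm {W : Type*} (R : Finset W) (hR : R.Nonempty) :
    ∃ next : R → R, Function.Injective next ∧
      ∀ P : R → Prop, (∃ r, P r) → (∀ r, P r → P (next r)) → ∀ r, P r := by
  obtain ⟨c, hc⟩ : ∃ c, R.card = c + 1 := ⟨R.card - 1, by have := hR.card_pos; omega⟩
  let e : R ≃ Fin (c + 1) := R.equivFin.trans (finCongr hc)
  refine ⟨fun r => e.symm (e r + 1), ?_, ?_⟩
  · intro a b hab
    have := e.symm.injective hab
    exact e.injective (add_right_cancel this)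
  · rintro P ⟨r0, h0⟩ hP
    have h1 : ∀ i : Fin (c + 1), P (e.symm (e r0 + i)) := by
      intro i
      induction i using Fin.induction with
      | zero => simpa using h0
      | succ i ih =>
        have := hP _ ih
        simp only [Equiv.apply_symm_apply] at this
        rw [add_assoc, Fin.coeSucc_eq_succ] at this
        exact this
    intro r
    have := h1 (e r - e r0)
    simpa using this

/-- A gadget with at least two permutations produces many cycles. -/
lemma HasGadget.le_maxCycles {g n L : ℕ} (hg : 3 ≤ g) (h : HasGadget g n L) (hL : 2 ≤ L) :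
    L ≤ maxCycles n g := by
  classical
  obtain ⟨W, i1, G, R, s, hG, hcard, F, hF, hgood⟩ := h
  have hR : R.Nonempty := by
    rw [Finset.nonempty_iff_ne_empty]
    rintro rfl
    have hF2 : 0 < F.card := by omega
    obtain ⟨σ, hσ⟩ := Finset.card_pos.1 hF2
    have hempty : IsEmpty W := ⟨fun v => by
      obtain ⟨r, hr, -⟩ := (hgood σ hσ).cover v
      simp at hr⟩
    have h1 : F.card ≤ 1 := Finset.card_le_one.2 (fun a _ b _ => Subsingleton.elim a b)
    omega
  obtain ⟨next, hinj, hchain⟩ := exists_next_perm R hR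
  have hg0 : 0 < g := by omega
  obtain ⟨r0, hr0⟩ := hR
  have hU : Fintype.card (W ⊕ (R × Fin g)) = Fintype.card W + R.card * g := by
    rw [Fintype.card_sum, Fintype.card_prod, Fintype.card_coe, Fintype.card_fin]
  have hRpos : 1 ≤ R.card := Finset.card_pos.2 ⟨r0, hr0⟩
  have hge : 3 ≤ Fintype.card (W ⊕ (R × Fin g)) := by
    rw [hU]
    nlinarith
  have h1 : (F.image (closePerm (g := g) hg0 hinj)).card ≤
      numCycles (closeGraph G R s g next) := by
    apply card_le_numCycles _ hge _ _ _ (Sum.inr (⟨r0, hr0⟩, ⟨0, hg0⟩))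
      (Sum.inr (⟨r0, hr0⟩, ⟨1, by omega⟩))
    · intro π hπ
      rw [Finset.mem_image] at hπ
      obtain ⟨σ, _, rfl⟩ := hπ
      rw [closePerm_apply, closeFun_inr_lt (by simp only; omega)]
    · intro π hπ
      rw [Finset.mem_image] at hπ
      obtain ⟨σ, hσ, rfl⟩ := hπ
      exact closePerm_adj hg0 hinj (hgood σ hσ)
    · intro π hπ
      rw [Finset.mem_image] at hπ
      obtain ⟨σ, hσ, rfl⟩ := hπ
      exact closePerm_sameCycle hg0 hinj (hgood σ hσ) hchain
  rw [Finset.card_image_of_injective _ (fun σ τ h => closePerm_injective hg0 hinj h)] at h1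
  refine hF.trans (h1.trans ?_)
  apply numCycles_le_maxCycles (noShort_close hG)
  rw [hU]
  rw [mul_comm]
  exact hcard

end Pool.Agent.Helper72.Cyc
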