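import Pool.Agent.Helper72.Cyc.Clean
import Pool.Agent.Helper72.Cyc.Close

/-!
# A greedy lower bound for the number of edges in graphs of given girth
-/

set_option linter.unusedSectionVars false

namespace Pool.Agent.Helper72.Cyc

open SimpleGraph Finset

section

variable {V : Type*} [Fintype V] [DecidableEq V] (G : SimpleGraph V) [DecidableRel G.Adj]

/-- Balls. -/
def ball (u : V) : ℕ → Finset V
  | 0 => {u}
  | i + 1 => ball u i ∪ (ball u i).biUnion (fun v => G.neighborFinset v)

lemma card_ball_le {D : ℕ} (hD : ∀ v, G.degree v ≤ D) (u : V) (i : ℕ) :
    (ball G u i).card ≤ (D + 1) ^ i := by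
  induction i with
  | zero => simp [ball]
  | succ i ih =>
    have h1 : (ball G u (i + 1)).card ≤ (ball G u i).card + (ball G u i).card * D := by
      rw [ball]
      refine (Finset.card_union_le _ _).trans ?_
      apply Nat.add_le_add_left
      apply Finset.card_biUnion_le_card_mul
      intro v _
      rw [G.card_neighborFinset_eq_degree]; exact hD v
    calc (ball G u (i + 1)).card ≤ (ball G u i).card + (ball G u i).card * D := h1
      _ = (ball G u i).card * (D + 1) := by ring
      _ ≤ (D + 1) ^ i * (D + 1) := Nat.mul_le_mul_right _ ih
      _ = (D + 1) ^ (i + 1) := (pow_succ _ _).symm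

lemma ball_mono (u : V) {i j : ℕ} (h : i ≤ j) : ball G u i ⊆ ball G u j := by
  induction j, h using Nat.le_induction with
  | base => exact Finset.Subset.refl _
  | succ j _ ih => exact ih.trans (by rw [ball]; exact Finset.subset_union_left)

lemma ball_step {u v w : V} {i : ℕ} (hv : v ∈ ball G u i) (h : G.Adj v w) : w ∈ ball G u (i + 1) := by
  rw [ball, Finset.mem_union]
  right
  rw [Finset.mem_biUnion]
  exact ⟨v, hv, by rw [mem_neighborFinset]; exact h⟩

lemma ball_seq {m : ℕ} {f : Fin (m + 3) → V}
    (hadj : ∀ i : Fin (m + 2), G.Adj (f i.castSucc) (f i.succ)) (i : Fin (m + 3)) :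
    f i ∈ ball G (f 0) i.val := by
  induction i using Fin.induction with
  | zero => simp [ball]
  | succ i ih => exact ball_step G ih (hadj i)

/-- A short cycle created by the new edge `uv` puts `v` in a ball around `u`. -/
lemma mem_ball_of_short {g : ℕ} (hG : NoShort G g) {u v : V}
    (h : ¬ NoShort (G ⊔ edge u v) g) : v ∈ ball G u g := by
  unfold NoShort at h
  push Not at h
  obtain ⟨m, f, hf, hadj, hlt⟩ := h
  -- some edge of the cycle is not in `G`
  have hex : ∃ i, ¬ G.Adj (f i) (f (i + 1)) := by
    by_contra hcon
    push Not at hcon
    have := hG m f hf hcon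
    omega
  obtain ⟨i0, hi0⟩ := hex
  have hedge : ∀ i, ¬ G.Adj (f i) (f (i + 1)) →
      (f i = u ∧ f (i + 1) = v) ∨ (f i = v ∧ f (i + 1) = u) := by
    intro i hi
    have := hadj i
    rw [sup_adj] at this
    rcases this with h1 | h1
    · exact absurd h1 hi
    · rw [edge_adj] at h1
      rcases h1.1 with h2 | h2
      · left; exact h2
      · right; exact h2
  have huniq : ∀ i, ¬ G.Adj (f i) (f (i + 1)) → i = i0 := by
    intro i hi
    have hne : ∀ a b : Fin (m + 3), f a = f (b + 1) → f (a + 1) = f b → False := by
      intro a b h1 h2
      have e1 := hf h1
      have e2 := hf h2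
      apply fin_add_sub_ne a
      rw [e2, e1]
      simp
    rcases hedge i hi with ⟨h1, h2⟩ | ⟨h1, h2⟩
    · rcases hedge i0 hi0 with ⟨h3, h4⟩ | ⟨h3, h4⟩
      · exact hf (h1.trans h3.symm)
      · exact (hne i i0 (h1.trans h4.symm) (h2.trans h3.symm)).elim
    · rcases hedge i0 hi0 with ⟨h3, h4⟩ | ⟨h3, h4⟩
      · exact (hne i i0 (h1.trans h4.symm) (h2.trans h3.symm)).elim
      · exact hf (h1.trans h3.symm)
  have hgood : ∀ i, i ≠ i0 → G.Adj (f i) (f (i + 1)) := by
    intro i hi
    by_contra hc
    exact hi (huniq i hc)
  have hlast : ((Fin.last (m + 2) : Fin (m + 3)) + 1) = 0 := Fin.last_add_one _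
  have hcs : ∀ i : Fin (m + 2), i.castSucc ≠ Fin.last (m + 2) := fun i => (Fin.castSucc_lt_last i).ne
  rcases hedge i0 hi0 with ⟨h1, h2⟩ | ⟨h1, h2⟩
  · -- going backwards from `u = f i0`
    have h3 := ball_seq G (f := fun i => f (i0 - i)) (fun i => by
      have h4 : i0 - i.castSucc = (i0 - i.succ) + 1 := by
        rw [← Fin.coeSucc_eq_succ]
        abel
      have h5 : G.Adj (f (i0 - i.succ)) (f (i0 - i.succ + 1)) := by
        apply hgood
        intro h
        have h6 : i.succ = (0 : Fin (m + 3)) := by
          have := sub_eq_self.1 h
          exact this
        exact Fin.succ_ne_zero i h6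
      show G.Adj (f (i0 - i.castSucc)) (f (i0 - i.succ))
      rw [h4]
      exact h5.symm) (Fin.last (m + 2))
    simp only [sub_zero] at h3
    have h7 : i0 - Fin.last (m + 2) = i0 + 1 := by
      have : (1 : Fin (m + 3)) = - Fin.last (m + 2) := by
        rw [eq_neg_iff_add_eq_zero]; exact (add_comm _ _).trans hlast
      rw [this]; abel
    rw [h7, h1, h2] at h3
    exact ball_mono G u (by simp only [Fin.val_last]; omega) h3
  · -- going forwards from `u = f (i0 + 1)`
    have h3 := ball_seq G (f := fun i => f (i0 + 1 + i)) (fun i => by
      have h4 : i0 + 1 + i.succ = (i0 + 1 + i.castSucc) + 1 := by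
        rw [← Fin.coeSucc_eq_succ]
        abel
      show G.Adj (f (i0 + 1 + i.castSucc)) (f (i0 + 1 + i.succ))
      rw [h4]
      apply hgood
      intro h
      have h6 : i.castSucc + 1 = (0 : Fin (m + 3)) := by
        have e : i0 + (i.castSucc + 1) = i0 + 1 + i.castSucc := by abel
        exact add_eq_left.1 (e.trans h)
      rw [Fin.coeSucc_eq_succ] at h6
      exact Fin.succ_ne_zero i h6) (Fin.last (m + 2))
    simp only [add_zero] at h3
    have h7 : i0 + 1 + Fin.last (m + 2) = i0 := by
      rw [add_assoc, add_comm 1, hlast, add_zero]
    rw [h7, h1, h2] at h3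
    exact ball_mono G u (by simp only [Fin.val_last]; omega) h3

end

/-- The greedy bound. -/
lemma erdos_sachs {g D m : ℕ} (hg : 1 ≤ g) (hm : 2 * (D + 1) ^ g ≤ m) :
    D * m ≤ 4 * maxEdges m g := by
  classical
  -- an edge-maximal graph with maximum degree at most `D`
  have hne : (Finset.univ.filter (fun G : SimpleGraph (Fin m) => NoShort G g ∧
      ∀ v, G.degree v ≤ D)).Nonempty := by
    refine ⟨⊥, ?_⟩
    rw [Finset.mem_filter]
    exact ⟨Finset.mem_univ _, noShort_bot g, fun v => by
      rw [← card_neighborFinset_eq_degree]; simp⟩
  obtain ⟨G, hG, hmax⟩ := Finset.exists_max_image _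
    (fun G : SimpleGraph (Fin m) => G.edgeFinset.card) hne
  rw [Finset.mem_filter] at hG
  obtain ⟨-, hNS, hdeg⟩ := hG
  have hbound : G.edgeFinset.card ≤ maxEdges m g :=
    card_edges_le_maxEdges' hNS (by rw [Fintype.card_fin])
  set low := Finset.univ.filter (fun v => G.degree v < D) with hlow
  have hlowcard : low.card ≤ (D + 1) ^ g := by
    rcases Finset.eq_empty_or_nonempty low with h0 | ⟨u, hu⟩
    · rw [h0]; simp
    · have hsub : low ⊆ ball G u g := by
        intro v hv
        by_cases huv : u = v
        · rw [← huv]
          exact ball_mono G u (Nat.zero_le g) (by simp [ball])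
        · by_cases hadj : G.Adj u v
          · exact ball_mono G u hg (ball_step G (i := 0) (by simp [ball]) hadj)
          · apply mem_ball_of_short G hNS
            intro hcon
            rw [hlow, Finset.mem_filter] at hu hv
            have hmem : (G ⊔ edge u v) ∈ (Finset.univ.filter
                (fun G : SimpleGraph (Fin m) => NoShort G g ∧ ∀ v, G.degree v ≤ D)) := by
              rw [Finset.mem_filter]
              refine ⟨Finset.mem_univ _, hcon, ?_⟩
              intro x
              have hnb : ∀ w, (G ⊔ edge u v).Adj x w → G.Adj x w ∨ (x = u ∧ w = v) ∨ (x = v ∧ w = u) := by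
                intro w hw
                rw [sup_adj] at hw
                rcases hw with h1 | h1
                · left; exact h1
                · rw [edge_adj] at h1
                  rcases h1.1 with h2 | h2
                  · right; left; exact h2
                  · right; right; exact h2
              rw [← card_neighborFinset_eq_degree]
              by_cases hxu : x = u
              · refine (Finset.card_le_card (t := insert v (G.neighborFinset x)) ?_).trans ?_
                · intro w hw
                  rw [mem_neighborFinset] at hw
                  rw [Finset.mem_insert, mem_neighborFinset]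
                  rcases hnb w hw with h1 | h1 | h1
                  · right; exact h1
                  · left; exact h1.2
                  · exact absurd (hxu.symm.trans h1.1) huv
                · have h2 := Finset.card_insert_le v (G.neighborFinset x)
                  rw [G.card_neighborFinset_eq_degree, hxu] at h2
                  have h3 := hu.2
                  rw [hxu]
                  omega
              · by_cases hxv : x = v
                · refine (Finset.card_le_card (t := insert u (G.neighborFinset x)) ?_).trans ?_
                  · intro w hw
                    rw [mem_neighborFinset] at hw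
                    rw [Finset.mem_insert, mem_neighborFinset]
                    rcases hnb w hw with h1 | h1 | h1
                    · right; exact h1
                    · exact absurd h1.1 hxu
                    · left; exact h1.2
                  · have h2 := Finset.card_insert_le u (G.neighborFinset x)
                    rw [G.card_neighborFinset_eq_degree, hxv] at h2
                    have h3 := hv.2
                    rw [hxv]
                    omega
                · refine (Finset.card_le_card (t := G.neighborFinset x) ?_).trans ?_
                  · intro w hw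
                    rw [mem_neighborFinset] at hw ⊢
                    rcases hnb w hw with h1 | h1 | h1
                    · exact h1
                    · exact absurd h1.1 hxu
                    · exact absurd h1.1 hxv
                  · rw [G.card_neighborFinset_eq_degree]
                    exact hdeg x
            have h1 := hmax _ hmem
            have h2 : G.edgeFinset ⊂ (G ⊔ edge u v).edgeFinset := by
              rw [edgeFinset_ssubset_edgeFinset]
              refine lt_of_le_of_ne le_sup_left ?_
              intro heq
              apply hadj
              rw [heq, sup_adj]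
              right
              rw [edge_adj]
              exact ⟨Or.inl ⟨rfl, rfl⟩, huv⟩
            have h3 := Finset.card_lt_card h2
            have h4 : (G ⊔ edge u v).edgeFinset.card ≤ G.edgeFinset.card := by
              refine le_trans (le_of_eq ?_) h1
              exact card_edges_inst _ _ _
            omega
      exact (Finset.card_le_card hsub).trans (card_ball_le G hdeg u g)
  -- count degrees
  have hsum := G.sum_degrees_eq_twice_card_edges
  have h1 : (m - low.card) * D ≤ ∑ v, G.degree v := by
    have hc : (lowᶜ).card = m - low.card := by rw [Finset.card_compl, Fintype.card_fin]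
    calc (m - low.card) * D = ∑ v ∈ lowᶜ, D := by rw [Finset.sum_const, hc, smul_eq_mul]
      _ ≤ ∑ v ∈ lowᶜ, G.degree v := by
          apply Finset.sum_le_sum
          intro v hv
          rw [hlow, Finset.mem_compl, Finset.mem_filter] at hv
          push Not at hv
          exact hv (Finset.mem_univ _)
      _ ≤ ∑ v, G.degree v := Finset.sum_le_sum_of_subset (Finset.subset_univ _)
  rw [hsum] at h1
  have h2 : m ≤ 2 * (m - low.card) := by omega
  calc D * m ≤ D * (2 * (m - low.card)) := Nat.mul_le_mul_left _ h2
    _ = 2 * ((m - low.card) * D) := by ring
    _ ≤ 2 * (2 * G.edgeFinset.card) := Nat.mul_le_mul_left _ h1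
    _ ≤ 4 * maxEdges m g := by omega

end Pool.Agent.Helper72.Cyc
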