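import Pool.Agent.Helper72.Cyc.AlgCyc
import Pool.Agent.Helper72.Cyc.Bip

/-!
# The algebraic graphs of girth at least 6, 8 and 12
-/

set_option linter.unusedSectionVars false

namespace Pool.Agent.Helper72.Cyc

open SimpleGraph Finset

section

variable {F : Type*} [Field F]

lemma fin_add_one_ne {n : ℕ} (i : Fin (n + 2)) : i + 1 ≠ i := by
  intro h
  have h1 : (1 : Fin (n + 2)) = 0 := add_eq_left.1 h
  have h2 := congrArg Fin.val h1
  simp at h2

/-- Girth at least six. -/
def inc2 (P L : F × F) : Prop := P.2 + L.2 = P.1 * L.1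

/-- Girth at least eight. -/
def inc3 (P L : F × F × F) : Prop :=
  P.2.1 + L.2.1 = P.1 * L.1 ∧ P.2.2 + L.2.2 = P.1 * L.2.1

/-- Girth at least twelve. -/
def inc5 (P L : F × F × F × F × F) : Prop :=
  P.2.1 + L.2.1 = P.1 * L.1 ∧ P.2.2.1 + L.2.2.1 = P.1 * L.2.1 ∧
    P.2.2.2.1 + L.2.2.2.1 = P.1 * L.2.2.1 ∧
    P.2.2.2.2 + L.2.2.2.2 = P.2.1 * L.2.2.1 - P.2.2.1 * L.2.1

lemma inc2_line {P L L' : F × F} (h : inc2 P L) (h' : inc2 P L') (ha : L'.1 = L.1) : L' = L := by
  obtain ⟨a, b⟩ := L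
  obtain ⟨a', b'⟩ := L'
  simp only [inc2] at h h' ha
  subst ha
  have hb : b' = b := by linear_combination h' - h
  rw [hb]

lemma inc2_point {P P' L : F × F} (h : inc2 P L) (h' : inc2 P' L) (ha : P'.1 = P.1) : P' = P := by
  obtain ⟨a, b⟩ := P
  obtain ⟨a', b'⟩ := P'
  simp only [inc2] at h h' ha
  subst ha
  have hb : b' = b := by linear_combination h' - h
  rw [hb]

lemma inc3_line {P L L' : F × F × F} (h : inc3 P L) (h' : inc3 P L') (ha : L'.1 = L.1) :
    L' = L := by
  obtain ⟨a, b, c⟩ := L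
  obtain ⟨a', b', c'⟩ := L'
  simp only [inc3] at h h' ha
  subst ha
  have hb : b' = b := by linear_combination h'.1 - h.1
  subst hb
  have hc : c' = c := by linear_combination h'.2 - h.2
  rw [hc]

lemma inc3_point {P P' L : F × F × F} (h : inc3 P L) (h' : inc3 P' L) (ha : P'.1 = P.1) :
    P' = P := by
  obtain ⟨a, b, c⟩ := P
  obtain ⟨a', b', c'⟩ := P'
  simp only [inc3] at h h' ha
  subst ha
  have hb : b' = b := by linear_combination h'.1 - h.1
  subst hb
  have hc : c' = c := by linear_combination h'.2 - h.2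
  rw [hc]

lemma inc5_line {P L L' : F × F × F × F × F} (h : inc5 P L) (h' : inc5 P L')
    (ha : L'.1 = L.1) : L' = L := by
  obtain ⟨a, b, c, d, e⟩ := L
  obtain ⟨a', b', c', d', e'⟩ := L'
  simp only [inc5] at h h' ha
  subst ha
  have hb : b' = b := by linear_combination h'.1 - h.1
  subst hb
  have hc : c' = c := by linear_combination h'.2.1 - h.2.1
  subst hc
  have hd : d' = d := by linear_combination h'.2.2.1 - h.2.2.1
  have he : e' = e := by linear_combination h'.2.2.2 - h.2.2.2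
  rw [hd, he]

lemma inc5_point {P P' L : F × F × F × F × F} (h : inc5 P L) (h' : inc5 P' L)
    (ha : P'.1 = P.1) : P' = P := by
  obtain ⟨a, b, c, d, e⟩ := P
  obtain ⟨a', b', c', d', e'⟩ := P'
  simp only [inc5] at h h' ha
  subst ha
  have hb : b' = b := by linear_combination h'.1 - h.1
  subst hb
  have hc : c' = c := by linear_combination h'.2.1 - h.2.1
  subst hc
  have hd : d' = d := by linear_combination h'.2.2.1 - h.2.2.1
  have he : e' = e := by linear_combination h'.2.2.2 - h.2.2.2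
  rw [hd, he]

lemma noShort_inc2 : NoShort (bip (inc2 (F := F))) 6 := by
  intro m f hf hadj
  obtain ⟨n, P, L, hn, hP, hL, h1, h2⟩ := bip_seq hf hadj
  by_contra hcon
  have hn0 : n = 0 := by omega
  subst hn0
  apply cyc_two (a := fun i => (L i).1) (b := fun i => (L i).2) (x := fun i => (P i).1)
  · intro i
    have e1 := h1 (i + 1)
    have e2 := h2 i
    simp only [inc2] at e1 e2
    linear_combination e1 - e2
  · intro i h
    exact fin_add_one_ne i (hL (inc2_line (h2 i) (h1 (i + 1)) h))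
  · intro i h
    exact fin_add_one_ne i (hP (inc2_point (h1 i) (h2 i) h))

lemma noShort_inc3 : NoShort (bip (inc3 (F := F))) 8 := by
  intro m f hf hadj
  obtain ⟨n, P, L, hn, hP, hL, h1, h2⟩ := bip_seq hf hadj
  by_contra hcon
  have hb : ∀ i, (L (i + 1)).2.1 - (L i).2.1 = (P (i + 1)).1 * ((L (i + 1)).1 - (L i).1) := by
    intro i
    have e1 := (h1 (i + 1)).1
    have e2 := (h2 i).1
    linear_combination e1 - e2
  have hc : ∀ i, (L (i + 1)).2.2 - (L i).2.2 = (P (i + 1)).1 * ((L (i + 1)).2.1 - (L i).2.1) := by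
    intro i
    have e1 := (h1 (i + 1)).2
    have e2 := (h2 i).2
    linear_combination e1 - e2
  have ha : ∀ i, (L (i + 1)).1 ≠ (L i).1 := fun i h =>
    fin_add_one_ne i (hL (inc3_line (h2 i) (h1 (i + 1)) h))
  have hx : ∀ i, (P (i + 1)).1 ≠ (P i).1 := fun i h =>
    fin_add_one_ne i (hP (inc3_point (h1 i) (h2 i) h))
  have hn1 : n = 0 ∨ n = 1 := by omega
  rcases hn1 with rfl | rfl
  · exact cyc_two (a := fun i => (L i).1) (b := fun i => (L i).2.1) (x := fun i => (P i).1)
      hb ha hx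
  · exact cyc_three (a := fun i => (L i).1) (b := fun i => (L i).2.1) (c := fun i => (L i).2.2)
      (x := fun i => (P i).1) hb hc ha hx

lemma noShort_inc5 : NoShort (bip (inc5 (F := F))) 12 := by
  intro m f hf hadj
  obtain ⟨n, P, L, hn, hP, hL, h1, h2⟩ := bip_seq hf hadj
  by_contra hcon
  have hb : ∀ i, (L (i + 1)).2.1 - (L i).2.1 = (P (i + 1)).1 * ((L (i + 1)).1 - (L i).1) := by
    intro i
    have e1 := (h1 (i + 1)).1
    have e2 := (h2 i).1
    linear_combination e1 - e2
  have hc : ∀ i, (L (i + 1)).2.2.1 - (L i).2.2.1 =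
      (P (i + 1)).1 * ((L (i + 1)).2.1 - (L i).2.1) := by
    intro i
    have e1 := (h1 (i + 1)).2.1
    have e2 := (h2 i).2.1
    linear_combination e1 - e2
  have hd : ∀ i, (L (i + 1)).2.2.2.1 - (L i).2.2.2.1 =
      (P (i + 1)).1 * ((L (i + 1)).2.2.1 - (L i).2.2.1) := by
    intro i
    have e1 := (h1 (i + 1)).2.2.1
    have e2 := (h2 i).2.2.1
    linear_combination e1 - e2
  have he : ∀ i, (L (i + 1)).2.2.2.2 - (L i).2.2.2.2 =
      ((P (i + 1)).1 * (L (i + 1)).1 - (L (i + 1)).2.1) * ((L (i + 1)).2.2.1 - (L i).2.2.1) -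
      ((P (i + 1)).1 * (L (i + 1)).2.1 - (L (i + 1)).2.2.1) *
        ((L (i + 1)).2.1 - (L i).2.1) := by
    intro i
    have e1 := (h1 (i + 1)).2.2.2
    have e2 := (h2 i).2.2.2
    have e3 := (h1 (i + 1)).1
    have e4 := (h1 (i + 1)).2.1
    linear_combination e1 - e2 + ((L (i + 1)).2.2.1 - (L i).2.2.1) * e3
      - ((L (i + 1)).2.1 - (L i).2.1) * e4
  have ha : ∀ i, (L (i + 1)).1 ≠ (L i).1 := fun i h =>
    fin_add_one_ne i (hL (inc5_line (h2 i) (h1 (i + 1)) h))
  have hx : ∀ i, (P (i + 1)).1 ≠ (P i).1 := fun i h =>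
    fin_add_one_ne i (hP (inc5_point (h1 i) (h2 i) h))
  have hn1 : n = 0 ∨ n = 1 ∨ n = 2 ∨ n = 3 := by omega
  rcases hn1 with rfl | rfl | rfl | rfl
  · exact cyc_two (a := fun i => (L i).1) (b := fun i => (L i).2.1) (x := fun i => (P i).1)
      hb ha hx
  · exact cyc_three (a := fun i => (L i).1) (b := fun i => (L i).2.1) (c := fun i => (L i).2.2.1)
      (x := fun i => (P i).1) hb hc ha hx
  · exact cyc_four (a := fun i => (L i).1) (b := fun i => (L i).2.1) (c := fun i => (L i).2.2.1)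
      (d := fun i => (L i).2.2.2.1) (e := fun i => (L i).2.2.2.2)
      (x := fun i => (P i).1) hb hc hd he ha hx
  · exact cyc_five (a := fun i => (L i).1) (b := fun i => (L i).2.1) (c := fun i => (L i).2.2.1)
      (d := fun i => (L i).2.2.2.1) (e := fun i => (L i).2.2.2.2)
      (x := fun i => (P i).1) hb hc hd he ha hx

end

end Pool.Agent.Helper72.Cyc
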