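import Pool.Agent.Helper72.Cyc.Matchings

/-!
# From oriented matchings to permutations along edges
-/

set_option linter.unusedSectionVars false

namespace Pool.Agent.Helper72.Cyc

open SimpleGraph Finset

section

variable {V : Type*} [Fintype V] [DecidableEq V] (G : SimpleGraph V) [DecidableRel G.Adj]

open scoped Classical in
/-- Perfect matchings from `A` to `B` along edges. -/
noncomputable def Mt (A B : Finset V) : Finset (A ≃ B) := {N | ∀ a : A, G.Adj a (N a)}

lemma mem_Mt {A B : Finset V} {N : A ≃ B} : N ∈ Mt G A B ↔ ∀ a : A, G.Adj a (N a) := by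
  simp only [Mt, Finset.mem_filter, Finset.mem_univ, true_and]

lemma exists_Mt {r : ℕ} {f : Fin r → V × V} (hf : IsOM G r f) {A B : Finset V}
    (hA : Finset.univ.image (fun j => (f j).1) = A)
    (hB : Finset.univ.image (fun j => (f j).2) = B) :
    ∃ N ∈ Mt G A B, ∃ t : Fin r → A, Function.Bijective t ∧
      ∀ j, (t j : V) = (f j).1 ∧ (N (t j) : V) = (f j).2 := by
  obtain ⟨a1, a2, a3, a4⟩ := hf
  have mA : ∀ j, (f j).1 ∈ A := fun j => by
    rw [← hA, Finset.mem_image]; exact ⟨j, Finset.mem_univ _, rfl⟩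
  have mB : ∀ j, (f j).2 ∈ B := fun j => by
    rw [← hB, Finset.mem_image]; exact ⟨j, Finset.mem_univ _, rfl⟩
  let t : Fin r → A := fun j => ⟨(f j).1, mA j⟩
  let h : Fin r → B := fun j => ⟨(f j).2, mB j⟩
  have ht : Function.Bijective t := by
    constructor
    · intro j k hjk
      exact a2 j k (congrArg Subtype.val hjk)
    · rintro ⟨a, ha⟩
      rw [← hA, Finset.mem_image] at ha
      obtain ⟨j, -, hj⟩ := ha
      exact ⟨j, Subtype.ext hj⟩
  have hh : Function.Bijective h := by
    constructor
    · intro j k hjk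
      exact a3 j k (congrArg Subtype.val hjk)
    · rintro ⟨b, hb⟩
      rw [← hB, Finset.mem_image] at hb
      obtain ⟨j, -, hj⟩ := hb
      exact ⟨j, Subtype.ext hj⟩
  have key : ∀ j, ((Equiv.ofBijective t ht).symm.trans (Equiv.ofBijective h hh)) (t j) = h j := by
    intro j
    rw [Equiv.trans_apply, Equiv.ofBijective_symm_apply_apply]
    rfl
  refine ⟨(Equiv.ofBijective t ht).symm.trans (Equiv.ofBijective h hh), ?_, t, ht, ?_⟩
  · rw [mem_Mt]
    intro a
    obtain ⟨j, rfl⟩ := ht.2 a
    rw [key]
    exact a1 j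
  · intro j
    rw [key]
    exact ⟨rfl, rfl⟩

open scoped Classical in
lemma card_fiber_le {r : ℕ} (A B : Finset V) :
    ((OM G r).filter (fun f => (Finset.univ.image (fun j => (f j).1),
      Finset.univ.image (fun j => (f j).2)) = (A, B))).card ≤ (Mt G A B).card * A.card ^ r := by
  have hex : ∀ f ∈ (OM G r).filter (fun f => (Finset.univ.image (fun j => (f j).1),
      Finset.univ.image (fun j => (f j).2)) = (A, B)), ∃ q : (A ≃ B) × (Fin r → A),
      q ∈ (Mt G A B) ×ˢ (Finset.univ : Finset (Fin r → A)) ∧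
      ∀ j, (q.2 j : V) = (f j).1 ∧ (q.1 (q.2 j) : V) = (f j).2 := by
    intro f hf
    rw [Finset.mem_filter, mem_OM, Prod.mk.injEq] at hf
    obtain ⟨N, hN, t, _, ht⟩ := exists_Mt G hf.1 hf.2.1 hf.2.2
    exact ⟨(N, t), by simp [hN], ht⟩
  rcases Finset.eq_empty_or_nonempty ((OM G r).filter (fun f =>
    (Finset.univ.image (fun j => (f j).1), Finset.univ.image (fun j => (f j).2)) = (A, B)))
    with hemp | ⟨f0, hf0⟩
  · rw [hemp]; simp
  have hne : Nonempty ((A ≃ B) × (Fin r → A)) := ⟨(hex f0 hf0).choose⟩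
  choose! q hq1 hq2 using hex
  have h1 : ((OM G r).filter (fun f => (Finset.univ.image (fun j => (f j).1),
      Finset.univ.image (fun j => (f j).2)) = (A, B))).card ≤
      ((Mt G A B) ×ˢ (Finset.univ : Finset (Fin r → A))).card := by
    apply Finset.card_le_card_of_injOn q
    · intro f hf
      exact hq1 f hf
    · intro f hf f' hf' hff
      funext j
      have h1 := hq2 f hf j
      have h2 := hq2 f' hf' j
      rw [hff] at h1
      exact Prod.ext (h1.1.symm.trans h2.1) (h1.2.symm.trans h2.2)
  refine h1.trans ?_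
  rw [Finset.card_product, Finset.card_univ, Fintype.card_fun, Fintype.card_coe, Fintype.card_fin]

lemma exists_AB {D r : ℕ} (hD : ∀ v, G.degree v ≤ D) (hr : 4 * r * D ≤ G.edgeFinset.card)
    (he : 0 < G.edgeFinset.card) : ∃ A B : Finset V, A.card = r ∧ B.card = r ∧ Disjoint A B ∧
      G.edgeFinset.card ^ r ≤ 4 ^ Fintype.card V * ((Mt G A B).card * r ^ r) := by
  classical
  have h1 := card_OM_ge G hD hr
  let key : (Fin r → V × V) → Finset V × Finset V := fun f => (Finset.univ.image (fun j => (f j).1),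
      Finset.univ.image (fun j => (f j).2))
  have h2 : ∃ y ∈ (Finset.univ : Finset (Finset V × Finset V)),
      ((G.edgeFinset.card : ℝ) ^ r / 4 ^ Fintype.card V) ≤
        (((OM G r).filter (fun f => key f = y)).card : ℝ) := by
    apply Finset.exists_le_card_fiber_of_nsmul_le_card_of_maps_to
    · intro f _; exact Finset.mem_univ _
    · exact ⟨(∅, ∅), Finset.mem_univ _⟩
    · rw [nsmul_eq_mul, Finset.card_univ, Fintype.card_prod, Fintype.card_finset]
      have : (((2 ^ Fintype.card V * 2 ^ Fintype.card V : ℕ)) : ℝ) = 4 ^ Fintype.card V := by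
        push_cast
        rw [← mul_pow]; norm_num
      rw [this, mul_div_cancel₀ _ (by positivity)]
      exact_mod_cast h1
  obtain ⟨⟨A, B⟩, -, h3⟩ := h2
  have hpos : (0 : ℝ) < (G.edgeFinset.card : ℝ) ^ r / 4 ^ Fintype.card V := by
    have : (0 : ℝ) < G.edgeFinset.card := by exact_mod_cast he
    positivity
  have hne : 0 < ((OM G r).filter (fun f => key f = (A, B))).card := by
    have := hpos.trans_le h3
    exact_mod_cast this
  obtain ⟨f, hf⟩ := Finset.card_pos.1 hne
  rw [Finset.mem_filter, mem_OM] at hf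
  have hfk : (Finset.univ.image (fun j => (f j).1), Finset.univ.image (fun j => (f j).2)) = (A, B) :=
    hf.2
  rw [Prod.mk.injEq] at hfk
  obtain ⟨a1, a2, a3, a4⟩ := hf.1
  have hA : A.card = r := by
    rw [← hfk.1, Finset.card_image_of_injective _ (fun j k h => a2 j k h)]; simp
  have hB : B.card = r := by
    rw [← hfk.2, Finset.card_image_of_injective _ (fun j k h => a3 j k h)]; simp
  refine ⟨A, B, hA, hB, ?_, ?_⟩
  · rw [Finset.disjoint_left]
    intro x hx hy
    rw [← hfk.1, Finset.mem_image] at hx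
    rw [← hfk.2, Finset.mem_image] at hy
    obtain ⟨j, -, hj⟩ := hx
    obtain ⟨k, -, hk⟩ := hy
    exact a4 j k (hj.trans hk.symm)
  · have h4 : ((OM G r).filter (fun f => key f = (A, B))).card ≤ (Mt G A B).card * A.card ^ r :=
      card_fiber_le G A B
    rw [hA] at h4
    have h5 : (((OM G r).filter (fun f => key f = (A, B))).card : ℝ) ≤
        ((Mt G A B).card * r ^ r : ℕ) := by exact_mod_cast h4
    have h6 := h3.trans h5
    rw [div_le_iff₀ (by positivity)] at h6
    rw [mul_comm]
    exact_mod_cast h6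

/-- The graph induced on the disjoint union of two finsets. -/
def biGraph (A B : Finset V) : SimpleGraph (A ⊕ B) :=
  G.comap (Sum.elim Subtype.val Subtype.val)

/-- Permutations along the edges. -/
noncomputable def EP {W : Type*} [Fintype W] (H : SimpleGraph W) : Finset (Equiv.Perm W) := by
  classical
  exact {σ | ∀ v, H.Adj v (σ v)}

lemma mem_EP {W : Type*} [Fintype W] {H : SimpleGraph W} {σ : Equiv.Perm W} :
    σ ∈ EP H ↔ ∀ v, H.Adj v (σ v) := by
  simp only [EP, Finset.mem_filter, Finset.mem_univ, true_and]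

/-- The permutation given by two matchings. -/
def twoPerm {A B : Finset V} (N₁ N₂ : A ≃ B) : Equiv.Perm (A ⊕ B) :=
  (Equiv.sumCongr N₁ N₂.symm).trans (Equiv.sumComm B A)

lemma card_EP_ge (A B : Finset V) : (Mt G A B).card * (Mt G A B).card ≤ (EP (biGraph G A B)).card := by
  classical
  rw [← Finset.card_product]
  apply Finset.card_le_card_of_injOn (fun p : (A ≃ B) × (A ≃ B) => twoPerm p.1 p.2)
  · rintro ⟨N₁, N₂⟩ hp
    rw [Finset.mem_coe, Finset.mem_product, mem_Mt, mem_Mt] at hp
    rw [Finset.mem_coe, mem_EP]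
    rintro (a | b)
    · exact hp.1 a
    · have := hp.2 (N₂.symm b)
      rw [Equiv.apply_symm_apply] at this
      exact this.symm
  · rintro ⟨N₁, N₂⟩ _ ⟨M₁, M₂⟩ _ h
    simp only at h
    have h1 : N₁ = M₁ := by
      ext a
      have := congrArg (fun π : Equiv.Perm (A ⊕ B) => π (Sum.inl a)) h
      simpa [twoPerm] using this
    have h2 : N₂.symm = M₂.symm := by
      ext b
      have := congrArg (fun π : Equiv.Perm (A ⊕ B) => π (Sum.inr b)) h
      simpa [twoPerm] using this
    have h3 : N₂ = M₂ := by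
      have := congrArg Equiv.symm h2
      simpa using this
    rw [h1, h3]

lemma biGraph_inj {A B : Finset V} (h : Disjoint A B) :
    Function.Injective (Sum.elim Subtype.val Subtype.val : A ⊕ B → V) := by
  apply Function.Injective.sumElim Subtype.val_injective Subtype.val_injective
  rintro ⟨a, ha⟩ ⟨b, hb⟩ hab
  simp only at hab
  subst hab
  exact Finset.disjoint_left.1 h ha hb

lemma noShort_biGraph {A B : Finset V} (h : Disjoint A B) {g : ℕ} (hG : NoShort G g) :
    NoShort (biGraph G A B) g :=
  hG.comap _ (biGraph_inj h) (fun _ _ hab => hab)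

open scoped Classical in
lemma degree_biGraph {A B : Finset V} (h : Disjoint A B) {D : ℕ} (hD : ∀ v, G.degree v ≤ D)
    (w : A ⊕ B) : (biGraph G A B).degree w ≤ D := by
  refine le_trans ?_ (hD (Sum.elim Subtype.val Subtype.val w))
  rw [← card_neighborFinset_eq_degree, ← card_neighborFinset_eq_degree]
  apply Finset.card_le_card_of_injOn (Sum.elim Subtype.val Subtype.val : A ⊕ B → V)
  · intro x hx
    rw [Finset.mem_coe, mem_neighborFinset] at hx ⊢
    exact hx
  · exact (biGraph_inj h).injOn

end

end Pool.Agent.Helper72.Cyc
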