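import Mathlib

/-!
# Algebraic identities behind the algebraic graphs of girth 6, 8 and 12
-/

namespace Pool.Agent.Helper72.Cyc

section

variable {F : Type*} [Field F]

lemma alg_two {x0 x1 w0 w1 : F} (h0 : w0 + w1 = 0) (h1 : w0 * x0 + w1 * x1 = 0)
    (hw : w0 ≠ 0) (hx : x0 ≠ x1) : False := by
  have h : w0 * (x0 - x1) = 0 := by linear_combination h1 - x1 * h0
  rcases mul_eq_zero.1 h with h | h
  · exact hw h
  · exact hx (sub_eq_zero.1 h)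

lemma alg_three {x0 x1 x2 w0 w1 w2 : F} (h0 : w0 + w1 + w2 = 0)
    (h1 : w0 * x0 + w1 * x1 + w2 * x2 = 0) (h2 : w0 * x0 ^ 2 + w1 * x1 ^ 2 + w2 * x2 ^ 2 = 0)
    (hw : w0 ≠ 0) (hx : x0 ≠ x1) (hx' : x0 ≠ x2) : False := by
  have h : w0 * (x0 - x1) * (x0 - x2) = 0 := by
    linear_combination h2 - (x1 + x2) * h1 + x1 * x2 * h0
  rcases mul_eq_zero.1 h with h | h
  · rcases mul_eq_zero.1 h with h | h
    · exact hw h
    · exact hx (sub_eq_zero.1 h)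
  · exact hx' (sub_eq_zero.1 h)

lemma alg_four_eq {x0 x1 x2 x3 w0 w1 w2 w3 : F} (h0 : w0 + w1 + w2 + w3 = 0)
    (h1 : w0 * x0 + w1 * x1 + w2 * x2 + w3 * x3 = 0)
    (h2 : w0 * x0 ^ 2 + w1 * x1 ^ 2 + w2 * x2 ^ 2 + w3 * x3 ^ 2 = 0)
    (h3 : w0 * x0 ^ 3 + w1 * x1 ^ 3 + w2 * x2 ^ 3 + w3 * x3 ^ 3 = 0)
    (hw : w0 ≠ 0) (h01 : x0 ≠ x1) (h03 : x0 ≠ x3) : x0 = x2 := by
  by_contra h02
  have h : w0 * (x0 - x1) * (x0 - x2) * (x0 - x3) = 0 := by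
    linear_combination h3 - (x1 + x2 + x3) * h2 + (x1 * x2 + x1 * x3 + x2 * x3) * h1
      - x1 * x2 * x3 * h0
  rcases mul_eq_zero.1 h with h | h
  · rcases mul_eq_zero.1 h with h | h
    · rcases mul_eq_zero.1 h with h | h
      · exact hw h
      · exact h01 (sub_eq_zero.1 h)
    · exact h02 (sub_eq_zero.1 h)
  · exact h03 (sub_eq_zero.1 h)

lemma alg_four {x0 x1 x2 x3 w0 w1 w2 w3 : F} (h0 : w0 + w1 + w2 + w3 = 0)
    (h1 : w0 * x0 + w1 * x1 + w2 * x2 + w3 * x3 = 0)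
    (h2 : w0 * x0 ^ 2 + w1 * x1 ^ 2 + w2 * x2 ^ 2 + w3 * x3 ^ 2 = 0)
    (h3 : w0 * x0 ^ 3 + w1 * x1 ^ 3 + w2 * x2 ^ 3 + w3 * x3 ^ 3 = 0)
    (hQ : w1 * w0 * x1 * (x1 - x0) ^ 2 + w2 * w0 * x2 * (x2 - x0) ^ 2 +
      w2 * w1 * x2 * (x2 - x1) ^ 2 + w3 * w0 * x3 * (x3 - x0) ^ 2 +
      w3 * w1 * x3 * (x3 - x1) ^ 2 + w3 * w2 * x3 * (x3 - x2) ^ 2 = 0)
    (hw0 : w0 ≠ 0) (hw1 : w1 ≠ 0) (h01 : x0 ≠ x1) (h12 : x1 ≠ x2) (h23 : x2 ≠ x3)
    (h30 : x3 ≠ x0) : False := by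
  have e02 : x0 = x2 := alg_four_eq h0 h1 h2 h3 hw0 h01 h30.symm
  have e13 : x1 = x3 := by
    apply alg_four_eq (x0 := x1) (x1 := x2) (x2 := x3) (x3 := x0) (w0 := w1) (w1 := w2) (w2 := w3)
      (w3 := w0) _ _ _ _ hw1 h12 h01.symm
    · linear_combination h0
    · linear_combination h1
    · linear_combination h2
    · linear_combination h3
  subst e02
  subst e13
  have hne : x0 - x1 ≠ 0 := sub_ne_zero.2 h01
  have e2 : w0 + w2 = 0 := by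
    have : (w0 + w2) * (x0 - x1) = 0 := by linear_combination h1 - x1 * h0
    rcases mul_eq_zero.1 this with h | h
    · exact h
    · exact absurd h hne
  have e3 : w1 + w3 = 0 := by linear_combination h0 - e2
  have hw2 : w2 = -w0 := by linear_combination e2
  have hw3 : w3 = -w1 := by linear_combination e3
  subst hw2
  subst hw3
  have h : w0 * w1 * (x1 - x0) ^ 3 = 0 := by linear_combination hQ
  have hne' : (x1 - x0) ≠ 0 := sub_ne_zero.2 h01.symm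
  exact (mul_ne_zero (mul_ne_zero hw0 hw1) (pow_ne_zero 3 hne')) h

lemma alg_five_ne {x0 x1 x2 x3 x4 w0 w1 w2 w3 w4 : F} (h0 : w0 + w1 + w2 + w3 + w4 = 0)
    (h1 : w0 * x0 + w1 * x1 + w2 * x2 + w3 * x3 + w4 * x4 = 0)
    (h2 : w0 * x0 ^ 2 + w1 * x1 ^ 2 + w2 * x2 ^ 2 + w3 * x3 ^ 2 + w4 * x4 ^ 2 = 0)
    (h3 : w0 * x0 ^ 3 + w1 * x1 ^ 3 + w2 * x2 ^ 3 + w3 * x3 ^ 3 + w4 * x4 ^ 3 = 0)
    (hw3 : w3 ≠ 0) (hw4 : w4 ≠ 0) (h23 : x2 ≠ x3) (h34 : x3 ≠ x4) (h40 : x4 ≠ x0) :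
    x0 ≠ x2 := by
  intro e
  subst e
  have h : w3 * (x3 - x0) * (x3 - x1) * (x3 - x4) = 0 := by
    linear_combination h3 - (x0 + x1 + x4) * h2 + (x0 * x1 + x0 * x4 + x1 * x4) * h1
      - x0 * x1 * x4 * h0
  have e13 : x3 = x1 := by
    rcases mul_eq_zero.1 h with h | h
    · rcases mul_eq_zero.1 h with h | h
      · rcases mul_eq_zero.1 h with h | h
        · exact absurd h hw3
        · exact absurd (sub_eq_zero.1 h).symm h23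
      · exact sub_eq_zero.1 h
    · exact absurd (sub_eq_zero.1 h) h34
  subst e13
  have h' : w4 * (x4 - x0) * (x4 - x3) = 0 := by
    linear_combination h2 - (x0 + x3) * h1 + x0 * x3 * h0
  rcases mul_eq_zero.1 h' with h | h
  · rcases mul_eq_zero.1 h with h | h
    · exact hw4 h
    · exact h40 (sub_eq_zero.1 h)
  · exact h34 (sub_eq_zero.1 h).symm

/-- Monomial identity in the differences. -/
lemma alg_pair {wa wb Pa Pb c s d E D V : F} (ha : wa * Pa = c) (hb : wb * Pb = c)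
    (hP : Pa * Pb = s * d ^ 2 * E) (hV : V = d * E * D) (hs : s * s = 1) :
    wa * wb * d ^ 2 * V = s * c ^ 2 * (d * D) := by
  have h1 : wa * Pa * (wb * Pb) = c ^ 2 := by rw [ha, hb]; ring
  have h2 : wa * wb * (s * d ^ 2 * E) = c ^ 2 := by rw [← h1, ← hP]; ring
  have h3 : wa * wb * (d ^ 2 * E) = s * c ^ 2 := by
    calc wa * wb * (d ^ 2 * E) = (s * s) * (wa * wb * (d ^ 2 * E)) := by rw [hs, one_mul]
      _ = s * (wa * wb * (s * d ^ 2 * E)) := by ring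
      _ = s * c ^ 2 := by rw [h2]
  rw [hV]
  calc wa * wb * d ^ 2 * (d * E * D) = (wa * wb * (d ^ 2 * E)) * (d * D) := by ring
    _ = s * c ^ 2 * (d * D) := by rw [h3]

lemma alg_five {x0 x1 x2 x3 x4 w0 w1 w2 w3 w4 : F} (h0 : w0 + w1 + w2 + w3 + w4 = 0)
    (h1 : w0 * x0 + w1 * x1 + w2 * x2 + w3 * x3 + w4 * x4 = 0)
    (h2 : w0 * x0 ^ 2 + w1 * x1 ^ 2 + w2 * x2 ^ 2 + w3 * x3 ^ 2 + w4 * x4 ^ 2 = 0)
    (h3 : w0 * x0 ^ 3 + w1 * x1 ^ 3 + w2 * x2 ^ 3 + w3 * x3 ^ 3 + w4 * x4 ^ 3 = 0)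
    (hQ : w1 * w0 * x1 * (x1 - x0) ^ 2 + w2 * w0 * x2 * (x2 - x0) ^ 2 +
      w2 * w1 * x2 * (x2 - x1) ^ 2 + w3 * w0 * x3 * (x3 - x0) ^ 2 +
      w3 * w1 * x3 * (x3 - x1) ^ 2 + w3 * w2 * x3 * (x3 - x2) ^ 2 +
      w4 * w0 * x4 * (x4 - x0) ^ 2 + w4 * w1 * x4 * (x4 - x1) ^ 2 +
      w4 * w2 * x4 * (x4 - x2) ^ 2 + w4 * w3 * x4 * (x4 - x3) ^ 2 = 0)
    (hw0 : w0 ≠ 0) (hw1 : w1 ≠ 0) (hw2 : w2 ≠ 0) (hw3 : w3 ≠ 0) (hw4 : w4 ≠ 0)
    (h01 : x0 ≠ x1) (h12 : x1 ≠ x2) (h23 : x2 ≠ x3) (h34 : x3 ≠ x4) (h40 : x4 ≠ x0) : False := by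
  have h02 : x0 ≠ x2 := alg_five_ne h0 h1 h2 h3 hw3 hw4 h23 h34 h40
  have h13 : x1 ≠ x3 := by
    apply alg_five_ne (x0 := x1) (x1 := x2) (x2 := x3) (x3 := x4) (x4 := x0) (w0 := w1) (w1 := w2)
      (w2 := w3) (w3 := w4) (w4 := w0) _ _ _ _ hw4 hw0 h34 h40 h01
    · linear_combination h0
    · linear_combination h1
    · linear_combination h2
    · linear_combination h3
  have h24 : x2 ≠ x4 := by
    apply alg_five_ne (x0 := x2) (x1 := x3) (x2 := x4) (x3 := x0) (x4 := x1) (w0 := w2) (w1 := w3)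
      (w2 := w4) (w3 := w0) (w4 := w1) _ _ _ _ hw0 hw1 h40 h01 h12
    · linear_combination h0
    · linear_combination h1
    · linear_combination h2
    · linear_combination h3
  have h30 : x3 ≠ x0 := by
    apply alg_five_ne (x0 := x3) (x1 := x4) (x2 := x0) (x3 := x1) (x4 := x2) (w0 := w3) (w1 := w4)
      (w2 := w0) (w3 := w1) (w4 := w2) _ _ _ _ hw1 hw2 h01 h12 h23
    · linear_combination h0
    · linear_combination h1
    · linear_combination h2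
    · linear_combination h3
  have h41 : x4 ≠ x1 := by
    apply alg_five_ne (x0 := x4) (x1 := x0) (x2 := x1) (x3 := x2) (x4 := x3) (w0 := w4) (w1 := w0)
      (w2 := w1) (w3 := w2) (w4 := w3) _ _ _ _ hw2 hw3 h12 h23 h34
    · linear_combination h0
    · linear_combination h1
    · linear_combination h2
    · linear_combination h3
  obtain ⟨d01, e01⟩ : ∃ d, d = x0 - x1 := ⟨_, rfl⟩
  obtain ⟨d02, e02⟩ : ∃ d, d = x0 - x2 := ⟨_, rfl⟩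
  obtain ⟨d03, e03⟩ : ∃ d, d = x0 - x3 := ⟨_, rfl⟩
  obtain ⟨d04, e04⟩ : ∃ d, d = x0 - x4 := ⟨_, rfl⟩
  obtain ⟨d12, e12⟩ : ∃ d, d = x1 - x2 := ⟨_, rfl⟩
  obtain ⟨d13, e13⟩ : ∃ d, d = x1 - x3 := ⟨_, rfl⟩
  obtain ⟨d14, e14⟩ : ∃ d, d = x1 - x4 := ⟨_, rfl⟩
  obtain ⟨d23, e23⟩ : ∃ d, d = x2 - x3 := ⟨_, rfl⟩
  obtain ⟨d24, e24⟩ : ∃ d, d = x2 - x4 := ⟨_, rfl⟩
  obtain ⟨d34, e34⟩ : ∃ d, d = x3 - x4 := ⟨_, rfl⟩
  have n01 : d01 ≠ 0 := by rw [e01]; exact sub_ne_zero.2 h01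
  have n02 : d02 ≠ 0 := by rw [e02]; exact sub_ne_zero.2 h02
  have n03 : d03 ≠ 0 := by rw [e03]; exact sub_ne_zero.2 h30.symm
  have n04 : d04 ≠ 0 := by rw [e04]; exact sub_ne_zero.2 h40.symm
  have n12 : d12 ≠ 0 := by rw [e12]; exact sub_ne_zero.2 h12
  have n23 : d23 ≠ 0 := by rw [e23]; exact sub_ne_zero.2 h23
  have n34 : d34 ≠ 0 := by rw [e34]; exact sub_ne_zero.2 h34
  -- the weights
  obtain ⟨c, hc⟩ : ∃ c, c = w0 * (d01 * d02 * d03 * d04) := ⟨_, rfl⟩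
  have hcne : c ≠ 0 := by
    rw [hc]
    exact mul_ne_zero hw0 (mul_ne_zero (mul_ne_zero (mul_ne_zero n01 n02) n03) n04)
  have p0 : w0 * (d01 * d02 * d03 * d04) = c := hc.symm
  have p1 : w1 * (-(d01 * d12 * d13 * d14)) = c := by
    rw [hc, e01, e02, e03, e04, e12, e13, e14]
    have f : w0 * (x0 - x2) * (x0 - x3) * (x0 - x4) + w1 * (x1 - x2) * (x1 - x3) * (x1 - x4) = 0 := by
      linear_combination h3 - (x2 + x3 + x4) * h2 + (x2 * x3 + x2 * x4 + x3 * x4) * h1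
        - x2 * x3 * x4 * h0
    linear_combination (-(x0 - x1)) * f
  have p2 : w2 * (d02 * d12 * d23 * d24) = c := by
    rw [hc, e01, e02, e03, e04, e12, e23, e24]
    have f : w0 * (x0 - x1) * (x0 - x3) * (x0 - x4) + w2 * (x2 - x1) * (x2 - x3) * (x2 - x4) = 0 := by
      linear_combination h3 - (x1 + x3 + x4) * h2 + (x1 * x3 + x1 * x4 + x3 * x4) * h1
        - x1 * x3 * x4 * h0
    linear_combination (-(x0 - x2)) * f
  have p3 : w3 * (-(d03 * d13 * d23 * d34)) = c := by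
    rw [hc, e01, e02, e03, e04, e13, e23, e34]
    have f : w0 * (x0 - x1) * (x0 - x2) * (x0 - x4) + w3 * (x3 - x1) * (x3 - x2) * (x3 - x4) = 0 := by
      linear_combination h3 - (x1 + x2 + x4) * h2 + (x1 * x2 + x1 * x4 + x2 * x4) * h1
        - x1 * x2 * x4 * h0
    linear_combination (-(x0 - x3)) * f
  have p4 : w4 * (d04 * d14 * d24 * d34) = c := by
    rw [hc, e01, e02, e03, e04, e14, e24, e34]
    have f : w0 * (x0 - x1) * (x0 - x2) * (x0 - x3) + w4 * (x4 - x1) * (x4 - x2) * (x4 - x3) = 0 := by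
      linear_combination h3 - (x1 + x2 + x3) * h2 + (x1 * x2 + x1 * x3 + x2 * x3) * h1
        - x1 * x2 * x3 * h0
    linear_combination (-(x0 - x4)) * f
  obtain ⟨V, hV⟩ : ∃ V, V = d01 * d02 * d03 * d04 * d12 * d13 * d14 * d23 * d24 * d34 := ⟨_, rfl⟩
  have t01 : w0 * w1 * d01 ^ 2 * V = (-1) * c ^ 2 * (d01 * (d23 * d24 * d34)) :=
    alg_pair (E := d02 * d03 * d04 * (d12 * d13 * d14)) p0 p1 (by ring) (by rw [hV]; ring) (by ring)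
  have t02 : w0 * w2 * d02 ^ 2 * V = 1 * c ^ 2 * (d02 * (d13 * d14 * d34)) :=
    alg_pair (E := d01 * d03 * d04 * (d12 * d23 * d24)) p0 p2 (by ring) (by rw [hV]; ring) (by ring)
  have t03 : w0 * w3 * d03 ^ 2 * V = (-1) * c ^ 2 * (d03 * (d12 * d14 * d24)) :=
    alg_pair (E := d01 * d02 * d04 * (d13 * d23 * d34)) p0 p3 (by ring) (by rw [hV]; ring) (by ring)
  have t04 : w0 * w4 * d04 ^ 2 * V = 1 * c ^ 2 * (d04 * (d12 * d13 * d23)) :=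
    alg_pair (E := d01 * d02 * d03 * (d14 * d24 * d34)) p0 p4 (by ring) (by rw [hV]; ring) (by ring)
  have t12 : w1 * w2 * d12 ^ 2 * V = (-1) * c ^ 2 * (d12 * (d03 * d04 * d34)) :=
    alg_pair (E := d01 * d13 * d14 * (d02 * d23 * d24)) p1 p2 (by ring) (by rw [hV]; ring) (by ring)
  have t13 : w1 * w3 * d13 ^ 2 * V = 1 * c ^ 2 * (d13 * (d02 * d04 * d24)) :=
    alg_pair (E := d01 * d12 * d14 * (d03 * d23 * d34)) p1 p3 (by ring) (by rw [hV]; ring) (by ring)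
  have t14 : w1 * w4 * d14 ^ 2 * V = (-1) * c ^ 2 * (d14 * (d02 * d03 * d23)) :=
    alg_pair (E := d01 * d12 * d13 * (d04 * d24 * d34)) p1 p4 (by ring) (by rw [hV]; ring) (by ring)
  have t23 : w2 * w3 * d23 ^ 2 * V = (-1) * c ^ 2 * (d23 * (d01 * d04 * d14)) :=
    alg_pair (E := d02 * d12 * d24 * (d03 * d13 * d34)) p2 p3 (by ring) (by rw [hV]; ring) (by ring)
  have t24 : w2 * w4 * d24 ^ 2 * V = 1 * c ^ 2 * (d24 * (d01 * d03 * d13)) :=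
    alg_pair (E := d02 * d12 * d23 * (d04 * d14 * d34)) p2 p4 (by ring) (by rw [hV]; ring) (by ring)
  have t34 : w3 * w4 * d34 ^ 2 * V = (-1) * c ^ 2 * (d34 * (d01 * d02 * d12)) :=
    alg_pair (E := d03 * d13 * d23 * (d04 * d14 * d24)) p3 p4 (by ring) (by rw [hV]; ring) (by ring)
  have hQ' : w0 * w1 * d01 ^ 2 * x1 + w0 * w2 * d02 ^ 2 * x2 + w1 * w2 * d12 ^ 2 * x2 +
      w0 * w3 * d03 ^ 2 * x3 + w1 * w3 * d13 ^ 2 * x3 + w2 * w3 * d23 ^ 2 * x3 +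
      w0 * w4 * d04 ^ 2 * x4 + w1 * w4 * d14 ^ 2 * x4 + w2 * w4 * d24 ^ 2 * x4 +
      w3 * w4 * d34 ^ 2 * x4 = 0 := by
    rw [e01, e02, e03, e04, e12, e13, e14, e23, e24, e34]
    linear_combination hQ
  have hfin : c ^ 2 * ((-1) * (d01 * (d23 * d24 * d34)) * x1 + (d02 * (d13 * d14 * d34)) * x2 +
      (-1) * (d12 * (d03 * d04 * d34)) * x2 + (-1) * (d03 * (d12 * d14 * d24)) * x3 +
      (d13 * (d02 * d04 * d24)) * x3 + (-1) * (d23 * (d01 * d04 * d14)) * x3 +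
      (d04 * (d12 * d13 * d23)) * x4 + (-1) * (d14 * (d02 * d03 * d23)) * x4 +
      (d24 * (d01 * d03 * d13)) * x4 + (-1) * (d34 * (d01 * d02 * d12)) * x4) = 0 := by
    linear_combination V * hQ' - x1 * t01 - x2 * t02 - x2 * t12 - x3 * t03 - x3 * t13 - x3 * t23
      - x4 * t04 - x4 * t14 - x4 * t24 - x4 * t34
  have hid : (-1) * (d01 * (d23 * d24 * d34)) * x1 + (d02 * (d13 * d14 * d34)) * x2 +
      (-1) * (d12 * (d03 * d04 * d34)) * x2 + (-1) * (d03 * (d12 * d14 * d24)) * x3 +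
      (d13 * (d02 * d04 * d24)) * x3 + (-1) * (d23 * (d01 * d04 * d14)) * x3 +
      (d04 * (d12 * d13 * d23)) * x4 + (-1) * (d14 * (d02 * d03 * d23)) * x4 +
      (d24 * (d01 * d03 * d13)) * x4 + (-1) * (d34 * (d01 * d02 * d12)) * x4 =
      -(d01 * d12 * d23 * d34 * d04) := by
    rw [e01, e02, e03, e04, e12, e13, e14, e23, e24, e34]
    ring
  rw [hid] at hfin
  have hne : c ^ 2 * -(d01 * d12 * d23 * d34 * d04) ≠ 0 :=
    mul_ne_zero (pow_ne_zero 2 hcne) (neg_ne_zero.2 (mul_ne_zero (mul_ne_zero (mul_ne_zero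
      (mul_ne_zero n01 n12) n23) n34) n04))
  exact hne hfin

end

end Pool.Agent.Helper72.Cyc
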