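import Pool.Agent.Helper72.Cyc.Alg
import Pool.Agent.Helper72.Cyc.ErdosSachs

/-!
# Short cycles in the algebraic graphs
-/

set_option linter.unusedSectionVars false

namespace Pool.Agent.Helper72.Cyc

open SimpleGraph Finset

section

variable {F : Type*} [Field F]

lemma cyc_two {a b x : Fin 2 → F} (hb : ∀ i, b (i + 1) - b i = x (i + 1) * (a (i + 1) - a i))
    (ha : ∀ i, a (i + 1) ≠ a i) (hx : ∀ i, x (i + 1) ≠ x i) : False := by
  have b0 := hb 0
  have b1 := hb 1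
  have a0 := ha 0
  have x0 := hx 0
  simp only [Fin.isValue, Fin.reduceAdd, zero_add] at b0 b1 a0 x0
  apply alg_two (x0 := x 1) (x1 := x 0) (w0 := a 1 - a 0) (w1 := a 0 - a 1)
  · ring
  · linear_combination -(b0 + b1)
  · exact sub_ne_zero.2 a0
  · exact x0

lemma cyc_three {a b c x : Fin 3 → F}
    (hb : ∀ i, b (i + 1) - b i = x (i + 1) * (a (i + 1) - a i))
    (hc : ∀ i, c (i + 1) - c i = x (i + 1) * (b (i + 1) - b i))
    (ha : ∀ i, a (i + 1) ≠ a i) (hx : ∀ i, x (i + 1) ≠ x i) : False := by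
  have b0 := hb 0
  have b1 := hb 1
  have b2 := hb 2
  have c0 := hc 0
  have c1 := hc 1
  have c2 := hc 2
  have a0 := ha 0
  have x0 := hx 0
  have x1 := hx 1
  simp only [Fin.isValue, Fin.reduceAdd, zero_add] at b0 b1 b2 c0 c1 c2 a0 x0 x1
  apply alg_three (x0 := x 1) (x1 := x 2) (x2 := x 0) (w0 := a 1 - a 0) (w1 := a 2 - a 1)
    (w2 := a 0 - a 2)
  · ring
  · linear_combination -(b0 + b1 + b2)
  · linear_combination -(c0 + c1 + c2) - x 1 * b0 - x 2 * b1 - x 0 * b2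
  · exact sub_ne_zero.2 a0
  · exact x1.symm
  · exact x0

lemma cyc_four {a b c d e x : Fin 4 → F}
    (hb : ∀ i, b (i + 1) - b i = x (i + 1) * (a (i + 1) - a i))
    (hc : ∀ i, c (i + 1) - c i = x (i + 1) * (b (i + 1) - b i))
    (hd : ∀ i, d (i + 1) - d i = x (i + 1) * (c (i + 1) - c i))
    (he : ∀ i, e (i + 1) - e i = (x (i + 1) * a (i + 1) - b (i + 1)) * (c (i + 1) - c i) -
      (x (i + 1) * b (i + 1) - c (i + 1)) * (b (i + 1) - b i))
    (ha : ∀ i, a (i + 1) ≠ a i) (hx : ∀ i, x (i + 1) ≠ x i) : False := by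
  have b0 := hb 0
  have b1 := hb 1
  have b2 := hb 2
  have b3 := hb 3
  have c0 := hc 0
  have c1 := hc 1
  have c2 := hc 2
  have c3 := hc 3
  have d0 := hd 0
  have d1 := hd 1
  have d2 := hd 2
  have d3 := hd 3
  have e0 := he 0
  have e1 := he 1
  have e2 := he 2
  have e3 := he 3
  have a0 := ha 0
  have a1 := ha 1
  have x0 := hx 0
  have x1 := hx 1
  have x2 := hx 2
  have x3 := hx 3
  simp only [Fin.isValue, Fin.reduceAdd, zero_add] at b0 b1 b2 b3 c0 c1 c2 c3 d0 d1 d2 d3 e0 e1 e2 e3 a0 a1 x0 x1 x2 x3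
  generalize x 0 = X3 at *
  generalize x 1 = X0 at *
  generalize x 2 = X1 at *
  generalize x 3 = X2 at *
  generalize a 0 = A0 at *
  generalize a 1 = A1 at *
  generalize a 2 = A2 at *
  generalize a 3 = A3 at *
  generalize b 0 = B0 at *
  generalize b 1 = B1 at *
  generalize b 2 = B2 at *
  generalize b 3 = B3 at *
  generalize c 0 = C0 at *
  generalize c 1 = C1 at *
  generalize c 2 = C2 at *
  generalize c 3 = C3 at *
  have m1 : (A1 - A0) * X0 + (A2 - A1) * X1 + (A3 - A2) * X2 + (A0 - A3) * X3 = 0 := by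
    linear_combination -(b0 + b1 + b2 + b3)
  have m2 : (A1 - A0) * X0 ^ 2 + (A2 - A1) * X1 ^ 2 + (A3 - A2) * X2 ^ 2 + (A0 - A3) * X3 ^ 2 = 0 := by
    linear_combination -(c0 + c1 + c2 + c3) - X0 * b0 - X1 * b1 - X2 * b2 - X3 * b3
  have m3 : (A1 - A0) * X0 ^ 3 + (A2 - A1) * X1 ^ 3 + (A3 - A2) * X2 ^ 3 + (A0 - A3) * X3 ^ 3 = 0 := by
    linear_combination -(d0 + d1 + d2 + d3) - X0 * c0 - X1 * c1 - X2 * c2 - X3 * c3
      - X0 ^ 2 * b0 - X1 ^ 2 * b1 - X2 ^ 2 * b2 - X3 ^ 2 * b3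
  have r1 : B1 = B0 + X0 * (A1 - A0) := by linear_combination b0
  have r2 : B2 = B1 + X1 * (A2 - A1) := by linear_combination b1
  have r3 : B3 = B2 + X2 * (A3 - A2) := by linear_combination b2
  have s1 : C1 = C0 + X0 * (B1 - B0) := by linear_combination c0
  have s2 : C2 = C1 + X1 * (B2 - B1) := by linear_combination c1
  have s3 : C3 = C2 + X2 * (B3 - B2) := by linear_combination c2
  have k0 : C0 - C3 = X3 ^ 2 * (A0 - A3) := by linear_combination c3 + X3 * b3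
  rw [k0, b3] at e3
  have E := congrArg₂ (· + ·) (congrArg₂ (· + ·) e0 e1) (congrArg₂ (· + ·) e2 e3)
  subst s3 s2 s1
  subst r3 r2 r1
  apply alg_four (x0 := X0) (x1 := X1) (x2 := X2) (x3 := X3) (w0 := A1 - A0) (w1 := A2 - A1)
    (w2 := A3 - A2) (w3 := A0 - A3) (by ring) m1 m2 m3
  · linear_combination -E - A0 * m3 + 2 * B0 * m2 - C0 * m1
      - 2 * X3 ^ 2 * (A0 - A3) * m1 + X3 * (A0 - A3) * m2
  · exact sub_ne_zero.2 a0
  · exact sub_ne_zero.2 a1
  · exact x1.symm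
  · exact x2.symm
  · exact x3.symm
  · exact x0.symm

lemma cyc_five {a b c d e x : Fin 5 → F}
    (hb : ∀ i, b (i + 1) - b i = x (i + 1) * (a (i + 1) - a i))
    (hc : ∀ i, c (i + 1) - c i = x (i + 1) * (b (i + 1) - b i))
    (hd : ∀ i, d (i + 1) - d i = x (i + 1) * (c (i + 1) - c i))
    (he : ∀ i, e (i + 1) - e i = (x (i + 1) * a (i + 1) - b (i + 1)) * (c (i + 1) - c i) -
      (x (i + 1) * b (i + 1) - c (i + 1)) * (b (i + 1) - b i))
    (ha : ∀ i, a (i + 1) ≠ a i) (hx : ∀ i, x (i + 1) ≠ x i) : False := by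
  have b0 := hb 0
  have b1 := hb 1
  have b2 := hb 2
  have b3 := hb 3
  have b4 := hb 4
  have c0 := hc 0
  have c1 := hc 1
  have c2 := hc 2
  have c3 := hc 3
  have c4 := hc 4
  have d0 := hd 0
  have d1 := hd 1
  have d2 := hd 2
  have d3 := hd 3
  have d4 := hd 4
  have e0 := he 0
  have e1 := he 1
  have e2 := he 2
  have e3 := he 3
  have e4 := he 4
  have a0 := ha 0
  have a1 := ha 1
  have a2 := ha 2
  have a3 := ha 3
  have a4 := ha 4
  have x0 := hx 0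
  have x1 := hx 1
  have x2 := hx 2
  have x3 := hx 3
  have x4 := hx 4
  simp only [Fin.isValue, Fin.reduceAdd, zero_add] at b0 b1 b2 b3 b4 c0 c1 c2 c3 c4 d0 d1 d2 d3 d4 e0 e1 e2 e3 e4 a0 a1 a2 a3 a4 x0 x1 x2 x3 x4
  generalize x 0 = X4 at *
  generalize x 1 = X0 at *
  generalize x 2 = X1 at *
  generalize x 3 = X2 at *
  generalize x 4 = X3 at *
  generalize a 0 = A0 at *
  generalize a 1 = A1 at *
  generalize a 2 = A2 at *
  generalize a 3 = A3 at *
  generalize a 4 = A4 at *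
  generalize b 0 = B0 at *
  generalize b 1 = B1 at *
  generalize b 2 = B2 at *
  generalize b 3 = B3 at *
  generalize b 4 = B4 at *
  generalize c 0 = C0 at *
  generalize c 1 = C1 at *
  generalize c 2 = C2 at *
  generalize c 3 = C3 at *
  generalize c 4 = C4 at *
  have m1 : (A1 - A0) * X0 + (A2 - A1) * X1 + (A3 - A2) * X2 + (A4 - A3) * X3 +
      (A0 - A4) * X4 = 0 := by
    linear_combination -(b0 + b1 + b2 + b3 + b4)
  have m2 : (A1 - A0) * X0 ^ 2 + (A2 - A1) * X1 ^ 2 + (A3 - A2) * X2 ^ 2 + (A4 - A3) * X3 ^ 2 +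
      (A0 - A4) * X4 ^ 2 = 0 := by
    linear_combination -(c0 + c1 + c2 + c3 + c4) - X0 * b0 - X1 * b1 - X2 * b2 - X3 * b3 - X4 * b4
  have m3 : (A1 - A0) * X0 ^ 3 + (A2 - A1) * X1 ^ 3 + (A3 - A2) * X2 ^ 3 + (A4 - A3) * X3 ^ 3 +
      (A0 - A4) * X4 ^ 3 = 0 := by
    linear_combination -(d0 + d1 + d2 + d3 + d4) - X0 * c0 - X1 * c1 - X2 * c2 - X3 * c3 - X4 * c4
      - X0 ^ 2 * b0 - X1 ^ 2 * b1 - X2 ^ 2 * b2 - X3 ^ 2 * b3 - X4 ^ 2 * b4
  have r1 : B1 = B0 + X0 * (A1 - A0) := by linear_combination b0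
  have r2 : B2 = B1 + X1 * (A2 - A1) := by linear_combination b1
  have r3 : B3 = B2 + X2 * (A3 - A2) := by linear_combination b2
  have r4 : B4 = B3 + X3 * (A4 - A3) := by linear_combination b3
  have s1 : C1 = C0 + X0 * (B1 - B0) := by linear_combination c0
  have s2 : C2 = C1 + X1 * (B2 - B1) := by linear_combination c1
  have s3 : C3 = C2 + X2 * (B3 - B2) := by linear_combination c2
  have s4 : C4 = C3 + X3 * (B4 - B3) := by linear_combination c3
  have k0 : C0 - C4 = X4 ^ 2 * (A0 - A4) := by linear_combination c4 + X4 * b4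
  rw [k0, b4] at e4
  have E := congrArg₂ (· + ·) (congrArg₂ (· + ·) (congrArg₂ (· + ·) e0 e1)
    (congrArg₂ (· + ·) e2 e3)) e4
  subst s4 s3 s2 s1
  subst r4 r3 r2 r1
  apply alg_five (x0 := X0) (x1 := X1) (x2 := X2) (x3 := X3) (x4 := X4) (w0 := A1 - A0)
    (w1 := A2 - A1) (w2 := A3 - A2) (w3 := A4 - A3) (w4 := A0 - A4) (by ring) m1 m2 m3
  · linear_combination -E - A0 * m3 + 2 * B0 * m2 - C0 * m1
      - 2 * X4 ^ 2 * (A0 - A4) * m1 + X4 * (A0 - A4) * m2
  · exact sub_ne_zero.2 a0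
  · exact sub_ne_zero.2 a1
  · exact sub_ne_zero.2 a2
  · exact sub_ne_zero.2 a3
  · exact sub_ne_zero.2 a4
  · exact x1.symm
  · exact x2.symm
  · exact x3.symm
  · exact x4.symm
  · exact x0.symm

end

end Pool.Agent.Helper72.Cyc
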