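import Pool.Agent.Helper72.Cyc.Defs

/-!
# Cycles in graphs of given girth: definitions and basic bounds
-/

namespace Pool.Agent.Helper72.Cyc

open SimpleGraph Finset

/-- No cyclic sequence shorter than `g`. -/
def NoShort {V : Type*} (G : SimpleGraph V) (g : ℕ) : Prop :=
  ∀ (m : ℕ) (f : Fin (m + 3) → V), Function.Injective f →
    (∀ i, G.Adj (f i) (f (i + 1))) → g ≤ m + 3

lemma copy_of_seq {V : Type*} {G : SimpleGraph V} {m : ℕ} {f : Fin (m + 3) → V}
    (hf : Function.Injective f) (hadj : ∀ i, G.Adj (f i) (f (i + 1))) :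
    cycleGraph (m + 3) ⊑ G := by
  refine ⟨⟨⟨f, ?_⟩, hf⟩⟩
  intro a b hab
  rw [cycleGraph_adj] at hab
  rcases hab with h | h
  · have : a = b + 1 := (sub_eq_iff_eq_add.1 h).trans (add_comm _ _)
    rw [this]; exact (hadj b).symm
  · have : b = a + 1 := (sub_eq_iff_eq_add.1 h).trans (add_comm _ _)
    rw [this]; exact hadj a

lemma seq_of_copy {V : Type*} {G : SimpleGraph V} {m : ℕ}
    (h : cycleGraph (m + 3) ⊑ G) : ∃ f : Fin (m + 3) → V, Function.Injective f ∧
      ∀ i, G.Adj (f i) (f (i + 1)) := by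
  obtain ⟨c⟩ := h
  refine ⟨c, c.injective, fun i => ?_⟩
  apply c.toHom.map_rel
  show (cycleGraph (m + 1 + 2)).Adj i (i + 1)
  rw [cycleGraph_adj]
  right; exact add_sub_cancel_left i 1

lemma le_egirth_iff {V : Type*} {G : SimpleGraph V} {g : ℕ} :
    (g : ℕ∞) ≤ G.egirth ↔ NoShort G g := by
  constructor
  · intro h m f hf hadj
    have hc := copy_of_seq hf hadj
    rw [cycleGraph_isContained_iff (by omega)] at hc
    obtain ⟨v, p, hp, hl⟩ := hc
    have := (le_egirth.1 h) v p hp
    rw [hl] at this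
    exact_mod_cast this
  · intro h
    rw [le_egirth]
    intro a w hw
    have h3 := hw.three_le_length
    obtain ⟨m, hm⟩ : ∃ m, w.length = m + 3 := ⟨w.length - 3, by omega⟩
    have hc : cycleGraph (m + 3) ⊑ G := by
      rw [cycleGraph_isContained_iff (by omega)]
      exact ⟨a, w, hw, hm⟩
    obtain ⟨f, hf, hadj⟩ := seq_of_copy hc
    have := h m f hf hadj
    rw [hm]
    exact_mod_cast this

lemma NoShort.comap {V W : Type*} {G : SimpleGraph V} {g : ℕ} (h : NoShort G g)
    {H : SimpleGraph W} (φ : W → V) (hφ : Function.Injective φ)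
    (hadj : ∀ a b, H.Adj a b → G.Adj (φ a) (φ b)) : NoShort H g := by
  intro m f hf hf'
  exact h m (φ ∘ f) (hφ.comp hf) (fun i => hadj _ _ (hf' i))

lemma NoShort.mono {V : Type*} {G H : SimpleGraph V} {g : ℕ} (h : NoShort G g) (hle : H ≤ G) :
    NoShort H g := h.comap id Function.injective_id (fun _ _ hab => hle hab)


lemma cyc_adj_iff {m : ℕ} (i j : Fin (m + 3)) :
    (cycleGraph (m + 3)).Adj i j ↔ i + 1 = j ∨ j + 1 = i := by
  show (cycleGraph (m + 1 + 2)).Adj i j ↔ _
  rw [cycleGraph_adj]
  constructor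
  · rintro (h | h)
    · right
      exact ((sub_eq_iff_eq_add.1 h).trans (add_comm _ _)).symm
    · left
      exact ((sub_eq_iff_eq_add.1 h).trans (add_comm _ _)).symm
  · rintro (h | h)
    · right; rw [← h]; exact add_sub_cancel_left i 1
    · left; rw [← h]; exact add_sub_cancel_left j 1

lemma add_one_ne {m : ℕ} (i : Fin (m + 3)) : i + 1 ≠ i := by
  intro h
  have : (1 : Fin (m + 3)) = 0 := by simp at h
  exact absurd this (by simp)

open scoped Classical in
lemma exists_next {V : Type*} {G : SimpleGraph V} {k : ℕ} (hk : 3 ≤ k) (H : G.Subgraph)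
    (hH : Nonempty (cycleGraph k ≃g H.coe)) :
    ∃ nx : V → V, (∀ v, nx v = v ∨ G.Adj v (nx v)) ∧ (∀ v, v ∈ H.verts ↔ nx v ≠ v) ∧
      (∀ a b, H.Adj a b ↔ a ≠ b ∧ (nx a = b ∨ nx b = a)) := by
  obtain ⟨e⟩ := hH
  obtain ⟨m, rfl⟩ : ∃ m, k = m + 3 := ⟨k - 3, by omega⟩
  set nx : V → V := fun v => if h : v ∈ H.verts then (e (e.symm ⟨v, h⟩ + 1) : V) else v with hnx
  have h1 : ∀ v (h : v ∈ H.verts), nx v = (e (e.symm ⟨v, h⟩ + 1) : V) := by
    intro v h; simp only [hnx]; rw [dif_pos h]
  have h2 : ∀ v, v ∉ H.verts → nx v = v := by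
    intro v h; simp only [hnx]; rw [dif_neg h]
  have h3 : ∀ v (h : v ∈ H.verts), H.Adj v (nx v) := by
    intro v h
    rw [h1 v h]
    have hadj : (cycleGraph (m + 3)).Adj (e.symm ⟨v, h⟩) (e.symm ⟨v, h⟩ + 1) := by
      rw [cyc_adj_iff]; left; rfl
    have := e.map_rel_iff.2 hadj
    rw [RelIso.apply_symm_apply] at this
    exact this
  refine ⟨nx, ?_, ?_, ?_⟩
  · intro v
    by_cases h : v ∈ H.verts
    · right; exact H.adj_sub (h3 v h)
    · left; exact h2 v h
  · intro v
    constructor
    · intro h hv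
      have := h3 v h
      rw [hv] at this
      exact (H.adj_sub this).ne rfl
    · intro h
      by_contra hv
      exact h (h2 v hv)
  · intro a b
    constructor
    · intro hab
      refine ⟨(H.adj_sub hab).ne, ?_⟩
      have ha := H.edge_vert hab
      have hb := H.edge_vert hab.symm
      have hab' : H.coe.Adj ⟨a, ha⟩ ⟨b, hb⟩ := hab
      rw [← e.symm.map_rel_iff, cyc_adj_iff] at hab'
      rcases hab' with h | h
      · left
        rw [h1 a ha]
        have : e.symm ⟨a, ha⟩ + 1 = e.symm ⟨b, hb⟩ := h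
        rw [this, RelIso.apply_symm_apply]
      · right
        rw [h1 b hb]
        have : e.symm ⟨b, hb⟩ + 1 = e.symm ⟨a, ha⟩ := h
        rw [this, RelIso.apply_symm_apply]
    · rintro ⟨hne, h | h⟩
      · have ha : a ∈ H.verts := by
          by_contra hc
          exact hne ((h2 a hc).symm.trans h)
        rw [← h]; exact h3 a ha
      · have hb : b ∈ H.verts := by
          by_contra hc
          exact hne ((h2 b hc).symm.trans h).symm
        rw [← h]; exact (h3 b hb).symm

open scoped Classical in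
lemma numCycles_le_prod {V : Type*} [Fintype V] (G : SimpleGraph V) :
    numCycles G ≤ ∏ v, (G.degree v + 1) := by
  set S : Finset (Σ _ : ℕ, G.Subgraph) := (Finset.Icc 3 (Fintype.card V)).sigma
    (fun k => {H : G.Subgraph | Nonempty (cycleGraph k ≃g H.coe)}) with hSdef
  have hS : S.card = numCycles G := by
    rw [hSdef, Finset.card_sigma]
    unfold numCycles
    apply Finset.sum_congr rfl
    intro k _
    rw [SimpleGraph.copyCount]
  have key : ∀ p ∈ S, ∃ nx : V → V, (∀ v, nx v = v ∨ G.Adj v (nx v)) ∧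
      (∀ v, v ∈ p.2.verts ↔ nx v ≠ v) ∧
      (∀ a b, p.2.Adj a b ↔ a ≠ b ∧ (nx a = b ∨ nx b = a)) := by
    intro p hp
    rw [hSdef, Finset.mem_sigma, Finset.mem_Icc, Finset.mem_filter] at hp
    exact exists_next hp.1.1 p.2 hp.2.2
  have : Nonempty (V → V) := ⟨id⟩
  choose! nx hnx1 hnx2 hnx3 using key
  rw [← hS]
  have hcard : ∏ v, (G.degree v + 1) =
      (Fintype.piFinset (fun v => insert v (G.neighborFinset v))).card := by
    rw [Fintype.card_piFinset]
    apply Finset.prod_congr rfl
    intro v _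
    rw [Finset.card_insert_of_notMem (by simp), G.card_neighborFinset_eq_degree]
  rw [hcard]
  apply Finset.card_le_card_of_injOn nx
  · intro p hp
    rw [Finset.mem_coe, Fintype.mem_piFinset]
    intro v
    rw [Finset.mem_insert, mem_neighborFinset]
    exact hnx1 p hp v
  · intro p hp q hq hpq
    have hsub : p.2 = q.2 := by
      apply Subgraph.ext
      · ext v
        rw [hnx2 p hp v, hnx2 q hq v, hpq]
      · ext a b
        rw [hnx3 p hp a b, hnx3 q hq a b, hpq]
    have hk : p.1 = q.1 := by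
      rw [Finset.mem_coe, hSdef, Finset.mem_sigma, Finset.mem_Icc, Finset.mem_filter] at hp hq
      obtain ⟨e1⟩ := hp.2.2
      obtain ⟨e2⟩ := hq.2.2
      have c1 := Nat.card_congr e1.toEquiv
      have c2 := Nat.card_congr e2.toEquiv
      rw [Nat.card_eq_fintype_card, Fintype.card_fin] at c1 c2
      rw [c1, c2, hsub]
    exact Sigma.ext hk (heq_of_eq hsub)


/-- The subgraph with the edges `{v, π v}`. -/
def permSub {U : Type*} (G : SimpleGraph U) (π : Equiv.Perm U) : G.Subgraph where
  verts := Set.univ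
  Adj a b := G.Adj a b ∧ (π a = b ∨ π b = a)
  adj_sub := And.left
  edge_vert := fun _ => Set.mem_univ _
  symm := ⟨fun _ _ h => ⟨h.1.symm, h.2.symm⟩⟩

lemma perm_iso {U : Type*} [Fintype U] [DecidableEq U] (G : SimpleGraph U) {m : ℕ}
    (hU : Fintype.card U = m + 3) (π : Equiv.Perm U) (hadj : ∀ v, G.Adj v (π v))
    (hcyc : ∀ x y, π.SameCycle x y) : Nonempty (cycleGraph (m + 3) ≃g (permSub G π).coe) := by
  have hne : Nonempty U := by
    rw [← Fintype.card_pos_iff]; omega
  obtain ⟨x0⟩ := hne
  have hfix : ∀ v, π v ≠ v := fun v hv => (hadj v).ne hv.symm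
  have hisc : π.IsCycle := ⟨x0, hfix x0, fun y _ => hcyc x0 y⟩
  have hsupp : π.support = Finset.univ := by
    ext v; simp [hfix v]
  have hord : orderOf π = m + 3 := by
    rw [hisc.orderOf, hsupp, Finset.card_univ, hU]
  have hpow : π ^ (m + 3) = 1 := by rw [← hord]; exact pow_orderOf_eq_one π
  set φ : Fin (m + 3) → U := fun i => (π ^ (i : ℕ)) x0 with hφ
  have hsurj : Function.Surjective φ := by
    intro y
    obtain ⟨i, hi, hiy⟩ := (hcyc x0 y).exists_pow_eq'
    have hle : (π.cycleOf x0).support.card ≤ m + 3 := by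
      rw [← hU]; exact Finset.card_le_univ _
    exact ⟨⟨i, by omega⟩, hiy⟩
  have hbij : Function.Bijective φ := by
    rw [Fintype.bijective_iff_surjective_and_card]
    exact ⟨hsurj, by rw [Fintype.card_fin, hU]⟩
  have hstep : ∀ i : Fin (m + 3), φ (i + 1) = π (φ i) := by
    intro i
    simp only [hφ]
    have h1 : ((i + 1 : Fin (m + 3)) : ℕ) = ((i : ℕ) + 1) % (m + 3) := by
      rw [Fin.val_add]; simp
    rw [h1]
    have h2 : π ^ (((i : ℕ) + 1) % (m + 3)) = π ^ ((i : ℕ) + 1) := by
      conv_rhs => rw [← Nat.mod_add_div ((i : ℕ) + 1) (m + 3)]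
      rw [pow_add, pow_mul, hpow, one_pow, mul_one]
    rw [h2, pow_succ']
    rfl
  let e : Fin (m + 3) ≃ (permSub G π).verts :=
    (Equiv.ofBijective φ hbij).trans (Equiv.Set.univ U).symm
  refine ⟨⟨e, ?_⟩⟩
  intro a b
  have h1 : (permSub G π).coe.Adj (e a) (e b) ↔ (G.Adj (φ a) (φ b) ∧ (π (φ a) = φ b ∨ π (φ b) = φ a)) :=
    Iff.rfl
  rw [h1, cyc_adj_iff, ← hstep, ← hstep]
  constructor
  · rintro ⟨_, h | h⟩
    · exact Or.inl (hbij.1 h)
    · exact Or.inr (hbij.1 h)
  · rintro (h | h)
    · rw [← h, hstep]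
      exact ⟨hadj _, Or.inl rfl⟩
    · rw [← h, hstep]
      exact ⟨(hadj _).symm, Or.inr rfl⟩

open scoped Classical in
lemma card_le_numCycles {U : Type*} [Fintype U] (G : SimpleGraph U)
    (hU : 3 ≤ Fintype.card U) (F : Finset (Equiv.Perm U))
    (hadj : ∀ π ∈ F, ∀ v, G.Adj v (π v)) (hcyc : ∀ π ∈ F, ∀ x y, π.SameCycle x y)
    (x0 y0 : U) (hx : ∀ π ∈ F, π x0 = y0) : F.card ≤ numCycles G := by
  obtain ⟨m, hm⟩ : ∃ m, Fintype.card U = m + 3 := ⟨Fintype.card U - 3, by omega⟩
  have h1 : F.card ≤ G.copyCount (cycleGraph (m + 3)) := by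
    rw [SimpleGraph.copyCount]
    apply Finset.card_le_card_of_injOn (fun π => permSub G π)
    · intro π hπ
      rw [Finset.mem_coe, Finset.mem_filter]
      exact ⟨Finset.mem_univ _, perm_iso G hm π (hadj π hπ) (hcyc π hπ)⟩
    · intro π hπ τ hτ hπτ
      have hA : ∀ a b, (G.Adj a b ∧ (π a = b ∨ π b = a)) ↔ (G.Adj a b ∧ (τ a = b ∨ τ b = a)) := by
        intro a b
        have : (permSub G π).Adj a b ↔ (permSub G τ).Adj a b := by
          simp only at hπτ
          rw [hπτ]
        exact this
      have hstep : ∀ x, π x = τ x → π (π x) = τ (π x) := by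
        intro x hx'
        have := (hA (π x) (π (π x))).1 ⟨hadj π hπ _, Or.inl rfl⟩
        rcases this.2 with h | h
        · exact h.symm
        · exfalso
          have h2 : π (π x) = x := by
            rw [hx'] at h ⊢
            exact τ.injective (h)
          -- the cycle has length two
          have h3 : ∀ y, y = x ∨ y = π x := by
            intro y
            obtain ⟨i, -, hi⟩ := (hcyc π hπ x y).exists_pow_eq'
            have : ∀ i : ℕ, (π ^ i) x = x ∨ (π ^ i) x = π x := by
              intro i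
              induction i with
              | zero => left; rfl
              | succ i ih =>
                rw [pow_succ', Equiv.Perm.mul_apply]
                rcases ih with h | h
                · right; rw [h]
                · left; rw [h, h2]
            rw [← hi]; exact this i
          have h4 : (Finset.univ : Finset U) ⊆ {x, π x} := by
            intro y _
            rw [Finset.mem_insert, Finset.mem_singleton]; exact h3 y
          have h5 := Finset.card_le_card h4
          rw [Finset.card_univ] at h5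
          have h6 : ({x, π x} : Finset U).card ≤ 2 := Finset.card_le_two
          omega
      ext y
      obtain ⟨i, -, hi⟩ := (hcyc π hπ x0 y).exists_pow_eq'
      have hall : ∀ i : ℕ, π ((π ^ i) x0) = τ ((π ^ i) x0) := by
        intro i
        induction i with
        | zero => simp [hx π hπ, hx τ hτ]
        | succ i ih =>
          rw [pow_succ', Equiv.Perm.mul_apply]
          exact hstep _ ih
      rw [← hi]; exact hall i
  refine h1.trans ?_
  unfold numCycles
  exact Finset.single_le_sum (f := fun k => G.copyCount (cycleGraph k))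
    (fun _ _ => Nat.zero_le _) (Finset.mem_Icc.2 ⟨by omega, hm.ge⟩)

end Pool.Agent.Helper72.Cyc
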