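import Pool.Agent.Helper72.Cyc.ErdosSachs

/-!
# The block lemma
-/

set_option linter.unusedSectionVars false

namespace Pool.Agent.Helper72.Cyc

open SimpleGraph Finset

/-- Edge density `e / n`. -/
noncomputable def rho (g m : ℕ) : ℝ := (maxEdges m g : ℝ) / m

/-- Gadgets of size at most `n` with at least `exp x` permutations. -/
def GP (g n : ℕ) (x : ℝ) : Prop := ∃ L : ℕ, HasGadget g n L ∧ Real.exp x ≤ L

lemma GP.mono {g n n' : ℕ} {x x' : ℝ} (h : GP g n x) (hn : n ≤ n') (hx : x' ≤ x) :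
    GP g n' x' := by
  obtain ⟨L, hL, hx1⟩ := h
  exact ⟨L, hL.mono hn le_rfl, (Real.exp_le_exp.2 hx).trans hx1⟩

lemma GP.add {g n₁ n₂ : ℕ} {x₁ x₂ : ℝ} (h₁ : GP g n₁ x₁) (h₂ : GP g n₂ x₂) :
    GP g (n₁ + n₂) (x₁ + x₂) := by
  obtain ⟨L₁, hL₁, hx₁⟩ := h₁
  obtain ⟨L₂, hL₂, hx₂⟩ := h₂
  refine ⟨L₁ * L₂, hL₁.add hL₂, ?_⟩
  rw [Real.exp_add]; push_cast
  exact mul_le_mul hx₁ hx₂ (Real.exp_pos _).le (by positivity)

lemma GP_of_nonpos (g n : ℕ) {x : ℝ} (hx : x ≤ 0) : GP g n x :=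
  ⟨1, (hasGadget_zero g).mono (Nat.zero_le _) le_rfl, by
    rw [Nat.cast_one]; exact Real.exp_le_one_iff.2 hx⟩

lemma rho_nonneg (g m : ℕ) : 0 ≤ rho g m := by unfold rho; positivity

lemma rho_mul (g : ℕ) {m : ℕ} (hm : 1 ≤ m) : rho g m * m = maxEdges m g := by
  unfold rho
  have : (m : ℝ) ≠ 0 := by positivity
  field_simp

lemma maxEdges_le (g m : ℕ) : maxEdges m g ≤ m * m := by
  classical
  obtain ⟨G, hG, hcard⟩ := exists_maxEdges m g
  rw [← hcard]
  have h1 := G.sum_degrees_eq_twice_card_edges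
  have h2 : ∑ v, G.degree v ≤ ∑ v : Fin m, m := by
    apply Finset.sum_le_sum
    intro v _
    have := G.degree_lt_card_verts v
    rw [Fintype.card_fin] at this
    exact this.le
  rw [Finset.sum_const, Finset.card_univ, Fintype.card_fin, smul_eq_mul] at h2
  omega

lemma rho_le (g : ℕ) {m : ℕ} (hm : 1 ≤ m) : rho g m ≤ m := by
  have h1 := rho_mul g hm
  have h2 : ((maxEdges m g : ℕ) : ℝ) ≤ m * m := by exact_mod_cast maxEdges_le g m
  rw [← h1] at h2
  have h3 : (0 : ℝ) < m := by exact_mod_cast hm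
  exact le_of_mul_le_mul_right h2 h3

/-- Polynomial lower bound for the density. -/
lemma le_rho_pow {g m : ℕ} (hg : 1 ≤ g) (hm : 1 ≤ m) (h : 1 ≤ rho g m) :
    (m : ℝ) ≤ 2 * (12 * rho g m) ^ g := by
  have hmpos : (0 : ℝ) < m := by exact_mod_cast hm
  by_cases hP : 2 * (1 + 1) ^ g ≤ m
  · set D := Nat.findGreatest (fun D => 2 * (D + 1) ^ g ≤ m) m with hD
    have h1m : 1 ≤ m := hm
    have hspec : 2 * (D + 1) ^ g ≤ m := Nat.findGreatest_spec (P := fun D => 2 * (D + 1) ^ g ≤ m) h1m hP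
    have hD1 : 1 ≤ D := Nat.le_findGreatest (P := fun D => 2 * (D + 1) ^ g ≤ m) h1m hP
    have hlt : D < m := by
      have h1 : D + 1 ≤ (D + 1) ^ g := Nat.le_self_pow (by omega) _
      omega
    have hnot : ¬ (2 * (D + 1 + 1) ^ g ≤ m) :=
      Nat.findGreatest_is_greatest (P := fun D => 2 * (D + 1) ^ g ≤ m) (Nat.lt_succ_self D) hlt
    have h2 := erdos_sachs hg hspec
    have h3 : (D : ℝ) * m ≤ 4 * (rho g m * m) := by
      rw [rho_mul g hm]; exact_mod_cast h2
    have h4 : (D : ℝ) ≤ 4 * rho g m := by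
      have : (D : ℝ) * m ≤ (4 * rho g m) * m := by linarith
      exact le_of_mul_le_mul_right this hmpos
    have h5 : (m : ℝ) ≤ 2 * ((D : ℝ) + 2) ^ g := by
      push Not at hnot
      have h6 : m ≤ 2 * (D + 1 + 1) ^ g := hnot.le
      calc (m : ℝ) ≤ ((2 * (D + 1 + 1) ^ g : ℕ) : ℝ) := by exact_mod_cast h6
        _ = 2 * ((D : ℝ) + 2) ^ g := by push_cast; ring
    have h7 : (D : ℝ) + 2 ≤ 12 * rho g m := by
      have : (1 : ℝ) ≤ D := by exact_mod_cast hD1
      nlinarith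
    calc (m : ℝ) ≤ 2 * ((D : ℝ) + 2) ^ g := h5
      _ ≤ 2 * (12 * rho g m) ^ g := by gcongr
  · push Not at hP
    calc (m : ℝ) ≤ ((2 * (1 + 1) ^ g : ℕ) : ℝ) := by exact_mod_cast hP.le
      _ = 2 * (2 : ℝ) ^ g := by push_cast; norm_num
      _ ≤ 2 * (12 * rho g m) ^ g := by
          gcongr
          linarith

lemma log_le_rho {g m : ℕ} (hg : 1 ≤ g) (hm : 1 ≤ m) (h : 1 ≤ rho g m) :
    Real.log m ≤ g * Real.log (rho g m) + (g * Real.log 12 + Real.log 2) := by
  have hmpos : (0 : ℝ) < m := by exact_mod_cast hm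
  have h1 := Real.log_le_log hmpos (le_rho_pow hg hm h)
  have hr : 0 < rho g m := by linarith
  rw [Real.log_mul (by norm_num) (by positivity), Real.log_pow,
    Real.log_mul (by norm_num) hr.ne'] at h1
  linarith

/-- The cleaned extremal graph. -/
lemma exists_clean {g m K2 D : ℕ} {K δ : ℝ} (hδ : 0 < δ) (hK : 0 ≤ K) (hm : 1 ≤ m)
    (hK2 : 8 ≤ K2) (hKK : 8 * K * ((4 : ℝ) / K2) ^ δ ≤ 1)
    (hcond : ∀ m' ≤ m, rho g m' ≤ K * rho g m * ((m' : ℝ) / m) ^ δ)
    (hD : (K2 : ℝ) * rho g m ≤ D) (hρ : 0 < rho g m) :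
    ∃ (G : SimpleGraph (Fin m)) (_ : DecidableRel G.Adj), NoShort G g ∧ (∀ v, G.degree v ≤ D) ∧
      maxEdges m g ≤ 2 * G.edgeFinset.card := by
  classical
  obtain ⟨G, hG, hcard⟩ := exists_maxEdges m g
  set S := Finset.univ.filter (fun v => D < G.degree v) with hS
  refine ⟨delS G S, inferInstance, hG.mono (delS_le G S), fun v => degree_delS G v, ?_⟩
  have hmpos : (0 : ℝ) < m := by exact_mod_cast hm
  have hhigh := card_high_le G (D := D)
  rw [← hS] at hhigh
  set k := S.card with hk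
  have hK2pos : (0 : ℝ) < K2 := by
    have : (8 : ℝ) ≤ K2 := by exact_mod_cast hK2
    linarith
  have hkm : (k : ℝ) ≤ 2 * m / K2 := by
    have h1 : (k : ℝ) * D ≤ 2 * (rho g m * m) := by
      rw [rho_mul g hm, ← hcard]; exact_mod_cast hhigh
    have h2 : (k : ℝ) * (K2 * rho g m) ≤ 2 * (rho g m * m) :=
      (mul_le_mul_of_nonneg_left hD (by positivity)).trans h1
    rw [le_div_iff₀ hK2pos]
    have h3 : ((k : ℝ) * K2) * rho g m ≤ (2 * m) * rho g m := by linarith
    exact le_of_mul_le_mul_right h3 hρ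
  have h2k : 2 * k ≤ m := by
    have h1 : (k : ℝ) ≤ m / 4 := by
      refine hkm.trans ?_
      rw [div_le_div_iff₀ hK2pos (by norm_num)]
      have : (8 : ℝ) ≤ K2 := by exact_mod_cast hK2
      nlinarith
    have h2 : (2 : ℝ) * k ≤ m := by linarith
    exact_mod_cast h2
  rcases Nat.eq_zero_or_pos k with hk0 | hkpos
  · have hSe : S = ∅ := Finset.card_eq_zero.1 (hk ▸ hk0)
    have h1 := card_delS G hG S
    have h2 : ∑ b ∈ Sᶜ, nb G S b = 0 := by
      apply Finset.sum_eq_zero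
      intro b _
      unfold nb
      rw [hSe]; simp
    have h3 : maxEdges S.card g = 0 := by
      rw [← hk, hk0]
      have := maxEdges_le g 0
      omega
    rw [h2, h3] at h1
    rw [← hcard]
    omega
  · have hc := clean G (g := g) (D := D) (k := k) hG (by rw [← hS]) (by rw [Fintype.card_fin]; exact h2k)
    rw [← hS, Fintype.card_fin] at hc
    have hkr : (0 : ℝ) < k := by exact_mod_cast hkpos
    have hmono : (maxEdges k g : ℝ) ≤ maxEdges (2 * k) g := by
      exact_mod_cast maxEdges_mono (by omega) g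
    have h1 := hcond (2 * k) h2k
    have h2 : ((maxEdges (2 * k) g : ℕ) : ℝ) = rho g (2 * k) * (2 * k : ℕ) :=
      (rho_mul g (by omega)).symm
    have h3 : (((2 * k : ℕ) : ℝ) / m) ^ δ ≤ ((4 : ℝ) / K2) ^ δ := by
      apply Real.rpow_le_rpow (by positivity) _ hδ.le
      rw [div_le_div_iff₀ hmpos hK2pos]
      push_cast
      rw [le_div_iff₀ hK2pos] at hkm
      nlinarith
    have h4 : rho g (2 * k) ≤ K * rho g m * ((4 : ℝ) / K2) ^ δ := by
      refine h1.trans ?_
      apply mul_le_mul_of_nonneg_left h3 (by positivity)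
    have h5 : 8 * rho g (2 * k) ≤ rho g m := by
      have h6 : 8 * (K * rho g m * ((4 : ℝ) / K2) ^ δ) = (8 * K * ((4 : ℝ) / K2) ^ δ) * rho g m := by
        ring
      have h7 : (8 * K * ((4 : ℝ) / K2) ^ δ) * rho g m ≤ 1 * rho g m :=
        mul_le_mul_of_nonneg_right hKK hρ.le
      linarith
    have hE : (G.edgeFinset.card : ℝ) = rho g m * m := by rw [rho_mul g hm, ← hcard]
    have h8 : (maxEdges (2 * k) g : ℝ) ≤ rho g m * k / 4 := by
      rw [h2]; push_cast
      nlinarith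
    have hmk : (k : ℝ) ≤ m := by exact_mod_cast (by omega : k ≤ m)
    set e' := ((delS G S).edgeFinset.card : ℝ) with he'
    have h9 : (k : ℝ) * (rho g m * m) ≤ k * e' + k * (rho g m * m / 4) + k * (rho g m * m / 4) := by
      rw [hE] at hc
      have h10 : (k : ℝ) * maxEdges k g ≤ k * (rho g m * m / 4) := by
        apply mul_le_mul_of_nonneg_left _ hkr.le
        have : rho g m * k ≤ rho g m * m := mul_le_mul_of_nonneg_left hmk hρ.le
        linarith
      have h11 : (m : ℝ) * maxEdges (2 * k) g ≤ k * (rho g m * m / 4) := by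
        calc (m : ℝ) * maxEdges (2 * k) g ≤ m * (rho g m * k / 4) :=
              mul_le_mul_of_nonneg_left h8 hmpos.le
          _ = k * (rho g m * m / 4) := by ring
      linarith
    have h12 : rho g m * m ≤ 2 * e' := by
      have : (k : ℝ) * (rho g m * m) ≤ k * (2 * e') := by nlinarith
      exact le_of_mul_le_mul_left this hkr
    rw [rho_mul g hm] at h12
    have h13 : ((maxEdges m g : ℕ) : ℝ) ≤ ((2 * (delS G S).edgeFinset.card : ℕ) : ℝ) := by
      push_cast; exact h12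
    exact_mod_cast h13

end Pool.Agent.Helper72.Cyc
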