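import Pool.Agent.Helper72.Cyc.Block

/-!
# The block lemma: conclusion
-/

set_option linter.unusedSectionVars false

namespace Pool.Agent.Helper72.Cyc

open SimpleGraph Finset

lemma log16_le : Real.log 16 ≤ 3 := by
  have h : (16 : ℝ) ≤ Real.exp 3 := by
    have h1 : (2.7 : ℝ) ≤ Real.exp 1 := by
      have := Real.exp_one_gt_d9
      linarith
    calc (16 : ℝ) ≤ 2.7 ^ 3 := by norm_num
      _ ≤ (Real.exp 1) ^ 3 := by gcongr
      _ = Real.exp 3 := by rw [← Real.exp_nat_mul]; norm_num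
  calc Real.log 16 ≤ Real.log (Real.exp 3) := Real.log_le_log (by norm_num) h
    _ = 3 := Real.log_exp 3

/-- The quantitative step: from a graph with bounded degrees and many edges to a gadget. -/
lemma gp_of_graph {g m K2 D : ℕ} (hg : 3 ≤ g) (hK2 : g + 8 ≤ K2) (hm : 64 * K2 ≤ m)
    (hD : (K2 : ℝ) * rho g m ≤ D) (hD' : (D : ℝ) ≤ 2 * K2 * rho g m)
    (hρ : 1 ≤ rho g m) (hlog : 128 * (K2 : ℝ) ≤ Real.log (rho g m))
    (G : SimpleGraph (Fin m)) [DecidableRel G.Adj] (hG : NoShort G g)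
    (hdeg : ∀ v, G.degree v ≤ D) (hedge : maxEdges m g ≤ 2 * G.edgeFinset.card) :
    ∃ s, 1 ≤ s ∧ s ≤ m ∧ GP g s (s * (Real.log (rho g m) -
      16 * K2 * (2 * g * (2 * K2 + 5) + 4 + (g * Real.log 12 + Real.log 2)))) := by
  classical
  set ρ := rho g m with hρdef
  have hK2pos : (0 : ℝ) < K2 := by
    have : (8 : ℝ) ≤ K2 := by exact_mod_cast (by omega : 8 ≤ K2)
    linarith
  have hK28 : (8 : ℝ) ≤ K2 := by exact_mod_cast (by omega : 8 ≤ K2)
  have hm1 : 1 ≤ m := by omega
  have hmpos : (0 : ℝ) < m := by exact_mod_cast hm1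
  have hmK : 64 * (K2 : ℝ) ≤ m := by exact_mod_cast hm
  have hDpos : (0 : ℝ) < D := by nlinarith
  have hD1 : 1 ≤ D := by
    have : 0 < D := by exact_mod_cast hDpos
    omega
  set e := maxEdges m g with he
  have hE : (e : ℝ) = ρ * m := (rho_mul g hm1).symm
  set r := e / (8 * D) with hr
  have hr8 : 8 * D * r ≤ e := Nat.mul_div_le e (8 * D)
  have hr4 : 4 * r * D ≤ G.edgeFinset.card := by
    have : 8 * D * r = 2 * (4 * r * D) := by ring
    omega
  have hrlow : (m : ℝ) ≤ 32 * K2 * r := by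
    have h1 : e < 8 * D * (r + 1) := by
      have := Nat.lt_mul_div_succ e (show 0 < 8 * D by omega)
      rw [hr]
      exact this
    have h2 : ρ * m < 8 * D * (r + 1) := by
      rw [← hE]; exact_mod_cast h1
    have h3 : ρ * m < 16 * K2 * ρ * (r + 1) := by
      refine h2.trans_le ?_
      have : (0 : ℝ) ≤ (r : ℝ) + 1 := by positivity
      nlinarith
    have h4 : (m : ℝ) < 16 * K2 * (r + 1) := by
      have h5 : ρ * m < ρ * (16 * K2 * (r + 1)) := by linarith
      exact lt_of_mul_lt_mul_left h5 (by linarith)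
    nlinarith
  have hrpos : (0 : ℝ) < r := by
    by_contra hcon
    push Not at hcon
    nlinarith
  have hr1 : 1 ≤ r := by
    have : 0 < r := by exact_mod_cast hrpos
    omega
  have hrup : (8 : ℝ) * K2 * r ≤ m := by
    have h1 : (8 : ℝ) * D * r ≤ ρ * m := by rw [← hE]; exact_mod_cast hr8
    have h2 : 8 * (K2 * ρ) * r ≤ ρ * m := by
      refine le_trans ?_ h1
      have : 8 * (K2 * ρ) ≤ 8 * (D : ℝ) := by linarith
      exact mul_le_mul_of_nonneg_right this hrpos.le
    have h3 : ρ * (8 * K2 * r) ≤ ρ * m := by linarith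
    exact le_of_mul_le_mul_left h3 (by linarith)
  -- the number of cycles allowed
  have hlogD : Real.log ρ ≤ Real.log D := by
    apply Real.log_le_log (by linarith)
    nlinarith
  have hlogDpos : 0 < Real.log D := by nlinarith
  have hlog2 : Real.log 2 ≤ 1 := by
    have := Real.log_two_lt_d9
    linarith
  have hlog2' : 0 ≤ Real.log 2 := Real.log_nonneg (by norm_num)
  set t := ⌈(m * Real.log 16 + Real.log 2) / Real.log D⌉₊ with ht
  have hnum : m * Real.log 16 + Real.log 2 ≤ 4 * (m : ℝ) := by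
    have h1 := log16_le
    have h2 : (1 : ℝ) ≤ m := by exact_mod_cast hm1
    nlinarith
  have hnum0 : 0 ≤ m * Real.log 16 + Real.log 2 := by
    have : 0 ≤ Real.log 16 := Real.log_nonneg (by norm_num)
    positivity
  have ht1 : m * Real.log 16 + Real.log 2 ≤ t * Real.log D := by
    have := Nat.le_ceil ((m * Real.log 16 + Real.log 2) / Real.log D)
    rwa [div_le_iff₀ hlogDpos] at this
  have ht2 : (t : ℝ) * Real.log D ≤ 4 * m + Real.log D := by
    have h1 : (t : ℝ) < (m * Real.log 16 + Real.log 2) / Real.log D + 1 :=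
      Nat.ceil_lt_add_one (by positivity)
    have h2 : (t : ℝ) * Real.log D ≤ ((m * Real.log 16 + Real.log 2) / Real.log D + 1) * Real.log D :=
      mul_le_mul_of_nonneg_right h1.le hlogDpos.le
    have h3 : ((m * Real.log 16 + Real.log 2) / Real.log D + 1) * Real.log D =
        (m * Real.log 16 + Real.log 2) + Real.log D := by
      field_simp
    linarith
  have ht3 : t ≤ 2 * r := by
    have h1 : (t : ℝ) * (128 * K2) ≤ 4 * m + 128 * K2 := by
      have h2 : (t : ℝ) * Real.log D - Real.log D ≤ 4 * m := by linarith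
      by_cases ht0 : (t : ℝ) ≤ 1
      · nlinarith
      · push Not at ht0
        have h3 : ((t : ℝ) - 1) * (128 * K2) ≤ ((t : ℝ) - 1) * Real.log D :=
          mul_le_mul_of_nonneg_left (by linarith) (by linarith)
        nlinarith
    have h2 : (t : ℝ) * (128 * K2) ≤ (2 * r) * (128 * K2) := by
      have h3 : (1 : ℝ) ≤ r := by exact_mod_cast hr1
      nlinarith
    have h3 : (t : ℝ) ≤ 2 * r := le_of_mul_le_mul_right h2 (by positivity)
    exact_mod_cast h3
  -- the gadget
  obtain ⟨L, hL, hcount⟩ := gadget_of_dense G (g := g) (D := D) (r := r) (t := t) hG hD1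
    (fun v => (degree_inst G v _ _).trans_le (hdeg v)) hr1
    (hr4.trans_eq (card_edges_inst G _ _)) ht3
  rw [Fintype.card_fin] at hcount
  have hDt : 2 * (16 : ℝ) ^ m ≤ (D : ℝ) ^ t := by
    have h1 : Real.log (2 * (16 : ℝ) ^ m) ≤ Real.log ((D : ℝ) ^ t) := by
      rw [Real.log_mul (by norm_num) (by positivity), Real.log_pow, Real.log_pow]
      linarith
    exact (Real.log_le_log_iff (by positivity) (by positivity)).1 h1
  have hmain : (D : ℝ) ^ (2 * r) ≤ 2 * 16 ^ m * (L * (2 * r : ℝ) ^ t) := by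
    have h1 : 16 ^ m * (D : ℝ) ^ (2 * r - t) ≤ (D : ℝ) ^ (2 * r) / 2 := by
      have h2 : (D : ℝ) ^ (2 * r) = (D : ℝ) ^ t * (D : ℝ) ^ (2 * r - t) := by
        rw [← pow_add]; congr 1; omega
      rw [h2]
      have h3 : (0 : ℝ) ≤ (D : ℝ) ^ (2 * r - t) := by positivity
      nlinarith
    nlinarith
  have hLpos : (0 : ℝ) < L := by
    by_contra hcon
    push Not at hcon
    have hL0 : (L : ℝ) = 0 := le_antisymm hcon (by positivity)
    rw [hL0] at hmain
    have : (0 : ℝ) < (D : ℝ) ^ (2 * r) := by positivity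
    nlinarith
  have hlogmain : 2 * r * Real.log D ≤ m * Real.log 16 + Real.log 2 + Real.log L +
      t * Real.log (2 * r) := by
    have h1 := Real.log_le_log (by positivity) hmain
    rw [Real.log_pow, Real.log_mul (by positivity) (by positivity),
      Real.log_mul (by norm_num) (by positivity), Real.log_pow,
      Real.log_mul hLpos.ne' (by positivity), Real.log_pow] at h1
    push_cast at h1
    linarith
  -- size
  have hsize : 2 * r + g * t ≤ m := by
    have h1 : g * t ≤ g * (2 * r) := Nat.mul_le_mul_left _ ht3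
    have h2 : ((2 * r + g * (2 * r) : ℕ) : ℝ) ≤ m := by
      refine le_trans ?_ hrup
      push_cast
      have h3 : ((g : ℝ) + 8) ≤ K2 := by exact_mod_cast hK2
      nlinarith
    have h3 : 2 * r + g * (2 * r) ≤ m := by exact_mod_cast h2
    omega
  refine ⟨2 * r + g * t, by omega, hsize, L, hL, ?_⟩
  rw [← Real.exp_log hLpos]
  apply Real.exp_le_exp.2
  push_cast
  -- final estimate
  have hlogm : Real.log m ≤ g * Real.log ρ + (g * Real.log 12 + Real.log 2) :=
    log_le_rho (by omega) hm1 hρ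
  have hlog2r : Real.log (2 * r) ≤ g * Real.log D + (g * Real.log 12 + Real.log 2) := by
    have h1 : Real.log (2 * r) ≤ Real.log m := by
      apply Real.log_le_log (by positivity)
      nlinarith
    have h2 : (g : ℝ) * Real.log ρ ≤ g * Real.log D :=
      mul_le_mul_of_nonneg_left hlogD (by positivity)
    linarith
  have hlogDm : Real.log D ≤ (2 * K2 + 1) * m := by
    have h1 : (D : ℝ) ≤ 2 * K2 * m := by
      refine hD'.trans ?_
      have := rho_le g hm1
      exact mul_le_mul_of_nonneg_left this (by positivity)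
    have h2 : Real.log D ≤ D - 1 := Real.log_le_sub_one_of_pos hDpos
    nlinarith
  have htD : (t : ℝ) * Real.log D ≤ (2 * K2 + 5) * m := by nlinarith
  have htm : (t : ℝ) ≤ m := by
    have h1 : (t : ℝ) ≤ 2 * r := by exact_mod_cast ht3
    nlinarith
  set c2 := (g : ℝ) * Real.log 12 + Real.log 2 with hc2
  have hc2pos : 0 ≤ c2 := by
    have : 0 ≤ Real.log 12 := Real.log_nonneg (by norm_num)
    positivity
  have ht2r : (t : ℝ) * Real.log (2 * r) ≤ g * ((2 * K2 + 5) * m) + c2 * m := by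
    have h1 : (t : ℝ) * Real.log (2 * r) ≤ t * (g * Real.log D + c2) :=
      mul_le_mul_of_nonneg_left hlog2r (by positivity)
    have h2 : (t : ℝ) * (g * Real.log D + c2) = g * (t * Real.log D) + c2 * t := by ring
    have h3 : (g : ℝ) * (t * Real.log D) ≤ g * ((2 * K2 + 5) * m) :=
      mul_le_mul_of_nonneg_left htD (by positivity)
    have h4 : c2 * (t : ℝ) ≤ c2 * m := mul_le_mul_of_nonneg_left htm hc2pos
    linarith
  have hgt : (g : ℝ) * t * Real.log ρ ≤ g * ((2 * K2 + 5) * m) := by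
    have h1 : (g : ℝ) * t * Real.log ρ ≤ g * t * Real.log D :=
      mul_le_mul_of_nonneg_left hlogD (by positivity)
    have h2 : (g : ℝ) * (t * Real.log D) ≤ g * ((2 * K2 + 5) * m) :=
      mul_le_mul_of_nonneg_left htD (by positivity)
    linarith
  have hrr : (2 : ℝ) * r * Real.log ρ ≤ 2 * r * Real.log D :=
    mul_le_mul_of_nonneg_left hlogD (by positivity)
  have hloss : (2 * (r : ℝ) + g * t) * Real.log ρ - Real.log L ≤
      (2 * g * (2 * K2 + 5) + 4 + c2) * m := by
    have h1 : (2 * (r : ℝ) + g * t) * Real.log ρ = 2 * r * Real.log ρ + g * t * Real.log ρ := by ring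
    rw [h1]
    nlinarith
  have hms : (m : ℝ) ≤ 16 * K2 * (2 * r + g * t) := by
    have : (0 : ℝ) ≤ 16 * K2 * (g * t) := by positivity
    nlinarith
  have hconst : 0 ≤ 2 * (g : ℝ) * (2 * K2 + 5) + 4 + c2 := by positivity
  have h2 : (2 * (g : ℝ) * (2 * K2 + 5) + 4 + c2) * m ≤
      (2 * g * (2 * K2 + 5) + 4 + c2) * (16 * K2 * (2 * r + g * t)) :=
    mul_le_mul_of_nonneg_left hms hconst
  nlinarith

/-- The block lemma. -/
lemma block {g : ℕ} (hg : 3 ≤ g) {K δ : ℝ} (hK : 0 < K) (hδ : 0 < δ) :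
    ∃ C : ℝ, 0 ≤ C ∧ ∀ m : ℕ, 1 ≤ m →
      (∀ m' ≤ m, rho g m' ≤ K * rho g m * ((m' : ℝ) / m) ^ δ) →
      ∃ s, 1 ≤ s ∧ s ≤ m ∧ GP g s (s * (Real.log (rho g m) - C)) := by
  -- choice of the constant
  obtain ⟨K2, hK2, hKK⟩ : ∃ K2 : ℕ, g + 8 ≤ K2 ∧ 8 * K * ((4 : ℝ) / K2) ^ δ ≤ 1 := by
    obtain ⟨n, hn⟩ := exists_nat_ge (4 * (8 * K) ^ (1 / δ))
    refine ⟨n + (g + 8), by omega, ?_⟩
    have hpos : (0 : ℝ) < (8 * K) ^ (1 / δ) := Real.rpow_pos_of_pos (by positivity) _
    have hn' : (4 : ℝ) / ((n + (g + 8) : ℕ) : ℝ) ≤ ((8 * K) ^ (1 / δ))⁻¹ := by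
      rw [div_le_iff₀ (by positivity), inv_mul_eq_div, le_div_iff₀ hpos]
      push_cast
      have : (0 : ℝ) ≤ g := by positivity
      linarith
    have h1 : ((4 : ℝ) / ((n + (g + 8) : ℕ) : ℝ)) ^ δ ≤ (((8 * K) ^ (1 / δ))⁻¹) ^ δ :=
      Real.rpow_le_rpow (by positivity) hn' hδ.le
    have h2 : (((8 * K) ^ (1 / δ))⁻¹) ^ δ = (8 * K)⁻¹ := by
      rw [Real.inv_rpow hpos.le, ← Real.rpow_mul (by positivity), one_div, inv_mul_cancel₀ hδ.ne',
        Real.rpow_one]
    rw [h2] at h1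
    calc 8 * K * ((4 : ℝ) / ((n + (g + 8) : ℕ) : ℝ)) ^ δ ≤ 8 * K * (8 * K)⁻¹ :=
          mul_le_mul_of_nonneg_left h1 (by positivity)
      _ = 1 := mul_inv_cancel₀ (by positivity)
  set C0 := 16 * (K2 : ℝ) * (2 * g * (2 * K2 + 5) + 4 + (g * Real.log 12 + Real.log 2)) with hC0
  have hlog12 : 0 ≤ Real.log 12 := Real.log_nonneg (by norm_num)
  have hlog2 : 0 ≤ Real.log 2 := Real.log_nonneg (by norm_num)
  have hC0pos : 0 ≤ C0 := by positivity
  have hK2pos : (0 : ℝ) < K2 := by
    have : (8 : ℝ) ≤ K2 := by exact_mod_cast (by omega : 8 ≤ K2)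
    linarith
  refine ⟨C0 + 128 * K2, by positivity, ?_⟩
  intro m hm hcond
  by_cases htriv : Real.log (rho g m) ≤ 128 * K2
  · exact ⟨1, le_rfl, hm, GP_of_nonpos g 1 (by push_cast; linarith)⟩
  push Not at htriv
  have hρpos : 0 < rho g m := by
    rcases (rho_nonneg g m).lt_or_eq with h | h
    · exact h
    · rw [← h, Real.log_zero] at htriv
      nlinarith
  have hρ1 : 1 ≤ rho g m := by
    by_contra hcon
    push Not at hcon
    have := Real.log_nonpos hρpos.le hcon.le
    nlinarith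
  have hm64 : 64 * K2 ≤ m := by
    have h1 : Real.log (rho g m) ≤ Real.log m := Real.log_le_log hρpos (rho_le g hm)
    have h2 : Real.log m ≤ m - 1 := Real.log_le_sub_one_of_pos (by exact_mod_cast hm)
    have h3 : 64 * (K2 : ℝ) ≤ m := by nlinarith
    exact_mod_cast h3
  set D := ⌈(K2 : ℝ) * rho g m⌉₊ with hDdef
  have hD : (K2 : ℝ) * rho g m ≤ D := Nat.le_ceil _
  have hD' : (D : ℝ) ≤ 2 * K2 * rho g m := by
    have h1 : (D : ℝ) < K2 * rho g m + 1 := Nat.ceil_lt_add_one (by positivity)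
    have h2 : 1 ≤ (K2 : ℝ) * rho g m := by
      have : (1 : ℝ) ≤ K2 := by exact_mod_cast (by omega : 1 ≤ K2)
      nlinarith
    nlinarith
  obtain ⟨G, hdec, hG, hdeg, hedge⟩ := exists_clean (g := g) (m := m) (K2 := K2) (D := D) hδ hK.le hm
    (by omega) hKK hcond hD hρpos
  obtain ⟨s, hs1, hs2, hGP⟩ := gp_of_graph hg hK2 hm64 hD hD' hρ1 htriv.le G hG hdeg hedge
  refine ⟨s, hs1, hs2, hGP.mono le_rfl ?_⟩
  apply mul_le_mul_of_nonneg_left _ (by positivity)
  rw [← hC0]
  linarith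

end Pool.Agent.Helper72.Cyc
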