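import Pool.Agent.Helper72.Cyc.Dense

/-!
# Removing the vertices of large degree
-/

set_option linter.unusedSectionVars false

namespace Pool.Agent.Helper72.Cyc

open SimpleGraph Finset

section

variable {V : Type*} [Fintype V] [DecidableEq V] (G : SimpleGraph V) [DecidableRel G.Adj]

lemma card_inside_le {g : ℕ} (hG : NoShort G g) (Y : Finset V) :
    (Finset.univ.filter (fun p : V × V => p.1 ∈ Y ∧ p.2 ∈ Y ∧ G.Adj p.1 p.2)).card ≤
      2 * maxEdges Y.card g := by
  classical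
  let H : SimpleGraph Y := G.comap (Subtype.val : Y → V)
  have hH : NoShort H g := hG.comap Subtype.val Subtype.val_injective (fun _ _ h => h)
  have h1 : H.edgeFinset.card ≤ maxEdges Y.card g :=
    card_edges_le_maxEdges' hH (by rw [Fintype.card_coe])
  have h2 : (Finset.univ.filter (fun p : V × V => p.1 ∈ Y ∧ p.2 ∈ Y ∧ G.Adj p.1 p.2)).card ≤
      (darts2 H).card := by
    have h3 : (Finset.univ.filter (fun p : V × V => p.1 ∈ Y ∧ p.2 ∈ Y ∧ G.Adj p.1 p.2)) ⊆
        (darts2 H).image (fun q : Y × Y => ((q.1 : V), (q.2 : V))) := by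
      rintro ⟨a, b⟩ hp
      rw [Finset.mem_filter] at hp
      rw [Finset.mem_image]
      refine ⟨(⟨a, hp.2.1⟩, ⟨b, hp.2.2.1⟩), ?_, rfl⟩
      simp only [darts2, Finset.mem_filter, Finset.mem_univ, true_and]
      exact hp.2.2.2
    exact (Finset.card_le_card h3).trans Finset.card_image_le
  rw [card_darts2] at h2
  omega

/-- number of neighbours in `S` -/
def nb (S : Finset V) (b : V) : ℕ := (S.filter (fun a => G.Adj a b)).card

lemma card_between (S T : Finset V) :
    (Finset.univ.filter (fun p : V × V => p.1 ∈ S ∧ p.2 ∈ T ∧ G.Adj p.1 p.2)).card =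
      ∑ b ∈ T, nb G S b := by
  have : (Finset.univ.filter (fun p : V × V => p.1 ∈ S ∧ p.2 ∈ T ∧ G.Adj p.1 p.2)) =
      T.biUnion (fun b => (S.filter (fun a => G.Adj a b)).image (fun a => (a, b))) := by
    ext ⟨a, b⟩
    simp only [Finset.mem_filter, Finset.mem_univ, true_and, Finset.mem_biUnion, Finset.mem_image,
      Prod.mk.injEq]
    constructor
    · rintro ⟨h1, h2, h3⟩
      exact ⟨b, h2, a, ⟨h1, h3⟩, rfl, rfl⟩
    · rintro ⟨b', h2, a', ⟨h1, h3⟩, rfl, rfl⟩
      exact ⟨h1, h2, h3⟩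
  rw [this, Finset.card_biUnion]
  · apply Finset.sum_congr rfl
    intro b _
    rw [Finset.card_image_of_injective _ (fun a a' h => by simpa using h)]
    rfl
  · intro b _ b' _ hbb
    rw [Function.onFun, Finset.disjoint_left]
    rintro ⟨x, y⟩ hx hy
    simp only [Finset.mem_image, Finset.mem_filter, Prod.mk.injEq] at hx hy
    obtain ⟨_, _, _, h1⟩ := hx
    obtain ⟨_, _, _, h2⟩ := hy
    exact hbb (h1.trans h2.symm)

lemma card_between_symm (S T : Finset V) :
    (Finset.univ.filter (fun p : V × V => p.1 ∈ T ∧ p.2 ∈ S ∧ G.Adj p.1 p.2)).card =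
      (Finset.univ.filter (fun p : V × V => p.1 ∈ S ∧ p.2 ∈ T ∧ G.Adj p.1 p.2)).card := by
  apply Finset.card_bij (fun p _ => (p.2, p.1))
  · rintro ⟨a, b⟩ hp
    rw [Finset.mem_filter] at hp ⊢
    exact ⟨Finset.mem_univ _, hp.2.2.1, hp.2.1, hp.2.2.2.symm⟩
  · rintro ⟨a, b⟩ _ ⟨a', b'⟩ _ h
    simp only [Prod.mk.injEq] at h
    rw [h.1, h.2]
  · rintro ⟨a, b⟩ hp
    rw [Finset.mem_filter] at hp
    refine ⟨(b, a), ?_, rfl⟩
    rw [Finset.mem_filter]
    exact ⟨Finset.mem_univ _, hp.2.2.1, hp.2.1, hp.2.2.2.symm⟩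

lemma sum_nb_le {g : ℕ} (hG : NoShort G g) {S T : Finset V} (hST : Disjoint S T)
    (hT : T.card = S.card) : ∑ b ∈ T, nb G S b ≤ maxEdges (2 * S.card) g := by
  have h1 := card_inside_le G hG (S ∪ T)
  have h2 : (S ∪ T).card = 2 * S.card := by
    rw [Finset.card_union_of_disjoint hST, hT]; ring
  rw [h2] at h1
  have h3 : (Finset.univ.filter (fun p : V × V => p.1 ∈ S ∧ p.2 ∈ T ∧ G.Adj p.1 p.2)) ∪
      (Finset.univ.filter (fun p : V × V => p.1 ∈ T ∧ p.2 ∈ S ∧ G.Adj p.1 p.2)) ⊆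
      (Finset.univ.filter (fun p : V × V => p.1 ∈ S ∪ T ∧ p.2 ∈ S ∪ T ∧ G.Adj p.1 p.2)) := by
    intro p hp
    rw [Finset.mem_union, Finset.mem_filter, Finset.mem_filter] at hp
    rw [Finset.mem_filter, Finset.mem_union, Finset.mem_union]
    rcases hp with h | h
    · exact ⟨Finset.mem_univ _, Or.inl h.2.1, Or.inr h.2.2.1, h.2.2.2⟩
    · exact ⟨Finset.mem_univ _, Or.inr h.2.1, Or.inl h.2.2.1, h.2.2.2⟩
  have h4 := Finset.card_le_card h3
  rw [Finset.card_union_of_disjoint, card_between_symm G S T, card_between G S T] at h4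
  · omega
  · rw [Finset.disjoint_left]
    intro p hp hp'
    rw [Finset.mem_filter] at hp hp'
    exact Finset.disjoint_left.1 hST hp.2.1 hp'.2.1

/-- Removing the edges that touch `S`. -/
def delS (S : Finset V) : SimpleGraph V where
  Adj a b := G.Adj a b ∧ a ∉ S ∧ b ∉ S
  symm := ⟨fun _ _ h => ⟨h.1.symm, h.2.2, h.2.1⟩⟩
  loopless := ⟨fun a h => G.loopless.irrefl a h.1⟩

instance (S : Finset V) : DecidableRel (delS G S).Adj := fun a b =>
  inferInstanceAs (Decidable (G.Adj a b ∧ a ∉ S ∧ b ∉ S))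

lemma delS_le (S : Finset V) : delS G S ≤ G := fun _ _ h => h.1

lemma card_delS {g : ℕ} (hG : NoShort G g) (S : Finset V) :
    G.edgeFinset.card ≤ (delS G S).edgeFinset.card + maxEdges S.card g +
      ∑ b ∈ Sᶜ, nb G S b := by
  have h1 := card_darts2 G
  have h2 := card_darts2 (delS G S)
  have h3 := card_inside_le G hG S
  have h4 := card_between G S Sᶜ
  have h5 := card_between_symm G S Sᶜ
  have h6 : darts2 G ⊆ (darts2 (delS G S)) ∪
      ((Finset.univ.filter (fun p : V × V => p.1 ∈ S ∧ p.2 ∈ S ∧ G.Adj p.1 p.2)) ∪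
      ((Finset.univ.filter (fun p : V × V => p.1 ∈ S ∧ p.2 ∈ Sᶜ ∧ G.Adj p.1 p.2)) ∪
      (Finset.univ.filter (fun p : V × V => p.1 ∈ Sᶜ ∧ p.2 ∈ S ∧ G.Adj p.1 p.2)))) := by
    rintro ⟨a, b⟩ hab
    have hadj : G.Adj a b := by simpa [darts2] using hab
    simp only [Finset.mem_union, Finset.mem_filter, Finset.mem_univ, true_and, darts2,
      Finset.mem_compl]
    by_cases ha : a ∈ S
    · by_cases hb : b ∈ S
      · right; left; exact ⟨ha, hb, hadj⟩
      · right; right; left; exact ⟨ha, hb, hadj⟩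
    · by_cases hb : b ∈ S
      · right; right; right; exact ⟨ha, hb, hadj⟩
      · left; exact ⟨hadj, ha, hb⟩
  have h7 := Finset.card_le_card h6
  have h8 := Finset.card_union_le (darts2 (delS G S))
      ((Finset.univ.filter (fun p : V × V => p.1 ∈ S ∧ p.2 ∈ S ∧ G.Adj p.1 p.2)) ∪
      ((Finset.univ.filter (fun p : V × V => p.1 ∈ S ∧ p.2 ∈ Sᶜ ∧ G.Adj p.1 p.2)) ∪
      (Finset.univ.filter (fun p : V × V => p.1 ∈ Sᶜ ∧ p.2 ∈ S ∧ G.Adj p.1 p.2))))
  have h9 := Finset.card_union_le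
      (Finset.univ.filter (fun p : V × V => p.1 ∈ S ∧ p.2 ∈ S ∧ G.Adj p.1 p.2))
      ((Finset.univ.filter (fun p : V × V => p.1 ∈ S ∧ p.2 ∈ Sᶜ ∧ G.Adj p.1 p.2)) ∪
      (Finset.univ.filter (fun p : V × V => p.1 ∈ Sᶜ ∧ p.2 ∈ S ∧ G.Adj p.1 p.2)))
  have h10 := Finset.card_union_le
      (Finset.univ.filter (fun p : V × V => p.1 ∈ S ∧ p.2 ∈ Sᶜ ∧ G.Adj p.1 p.2))
      (Finset.univ.filter (fun p : V × V => p.1 ∈ Sᶜ ∧ p.2 ∈ S ∧ G.Adj p.1 p.2))
  omega

lemma degree_delS {D : ℕ} (v : V) :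
    (delS G (Finset.univ.filter (fun v => D < G.degree v))).degree v ≤ D := by
  by_cases hv : D < G.degree v
  · have : (delS G (Finset.univ.filter (fun v => D < G.degree v))).degree v = 0 := by
      rw [← card_neighborFinset_eq_degree, Finset.card_eq_zero]
      ext w
      rw [mem_neighborFinset]
      simp only [delS, Finset.mem_filter, Finset.mem_univ, true_and, hv, not_true_eq_false,
        false_and, and_false, Finset.notMem_empty]
    omega
  · have : (delS G (Finset.univ.filter (fun v => D < G.degree v))).degree v ≤ G.degree v := by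
      rw [← card_neighborFinset_eq_degree, ← card_neighborFinset_eq_degree]
      apply Finset.card_le_card
      intro w hw
      rw [mem_neighborFinset] at hw ⊢
      exact hw.1
    omega

/-- The set of vertices of degree above `D` is small. -/
lemma card_high_le {D : ℕ} :
    (Finset.univ.filter (fun v => D < G.degree v)).card * D ≤ 2 * G.edgeFinset.card := by
  rw [← G.sum_degrees_eq_twice_card_edges]
  calc (Finset.univ.filter (fun v => D < G.degree v)).card * D
      = ∑ v ∈ (Finset.univ.filter (fun v => D < G.degree v)), D := by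
        rw [Finset.sum_const, smul_eq_mul]
    _ ≤ ∑ v ∈ (Finset.univ.filter (fun v => D < G.degree v)), G.degree v := by
        apply Finset.sum_le_sum
        intro v hv
        rw [Finset.mem_filter] at hv
        exact hv.2.le
    _ ≤ ∑ v, G.degree v := Finset.sum_le_sum_of_subset (Finset.subset_univ _)

/-- The cleaning lemma. -/
lemma clean {g D k : ℕ} (hG : NoShort G g)
    (hk : (Finset.univ.filter (fun v => D < G.degree v)).card = k)
    (hk2 : 2 * k ≤ Fintype.card V) :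
    (k : ℝ) * G.edgeFinset.card ≤
      k * (delS G (Finset.univ.filter (fun v => D < G.degree v))).edgeFinset.card +
      k * maxEdges k g + Fintype.card V * maxEdges (2 * k) g := by
  set S := Finset.univ.filter (fun v => D < G.degree v) with hS
  have h1 := card_delS G hG S
  rw [hk] at h1
  have hc : (Sᶜ).card = Fintype.card V - k := by rw [Finset.card_compl, hk]
  obtain ⟨T, hT, hTk, hTs⟩ := exists_subset_avg (fun b => (nb G S b : ℝ)) k
    (Fintype.card V - k - k) (Sᶜ) (by rw [hc]; omega)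
  have hdisj : Disjoint S T := by
    rw [Finset.disjoint_left]
    intro x hx hx'
    exact (Finset.mem_compl.1 (hT hx')) hx
  have h2 := sum_nb_le G hG hdisj (hTk.trans hk.symm)
  rw [hk] at h2
  have h3 : (∑ z ∈ T, (nb G S z : ℝ)) ≤ maxEdges (2 * k) g := by exact_mod_cast h2
  have h4 : ((Sᶜ).card : ℝ) ≤ Fintype.card V := by
    rw [hc]; exact_mod_cast Nat.sub_le _ _
  have h5 : (G.edgeFinset.card : ℝ) ≤ (delS G S).edgeFinset.card + maxEdges k g +
      ∑ b ∈ Sᶜ, (nb G S b : ℝ) := by exact_mod_cast h1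
  have h6 : (0 : ℝ) ≤ ∑ z ∈ T, (nb G S z : ℝ) := by positivity
  have h7 : (k : ℝ) * ∑ z ∈ Sᶜ, (nb G S z : ℝ) ≤ Fintype.card V * maxEdges (2 * k) g := by
    refine hTs.trans ?_
    exact mul_le_mul h4 h3 h6 (by positivity)
  have h8 : (k : ℝ) * G.edgeFinset.card ≤ k * ((delS G S).edgeFinset.card + maxEdges k g +
      ∑ b ∈ Sᶜ, (nb G S b : ℝ)) := mul_le_mul_of_nonneg_left h5 (by positivity)
  nlinarith

end

end Pool.Agent.Helper72.Cyc
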