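import Mathlib

/-!
# The number of cycles and the number of edges in graphs of given girth: definitions
-/

namespace Pool.Agent.Helper72.Cyc

open SimpleGraph Finset

/-- The number of cycles of a finite graph: the number of its subgraphs isomorphic to
a cycle `C_k` with `k ≥ 3`. -/
noncomputable def numCycles {V : Type*} [Fintype V] (G : SimpleGraph V) : ℕ :=
  ∑ k ∈ Finset.Icc 3 (Fintype.card V), G.copyCount (cycleGraph k)

open scoped Classical in
/-- `maxCycles n g` is the largest number of cycles of a graph on `n` vertices of girth at
least `g`. -/
noncomputable def maxCycles (n g : ℕ) : ℕ :=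
  Finset.sup {G : SimpleGraph (Fin n) | (g : ℕ∞) ≤ G.egirth} numCycles

open scoped Classical in
/-- `maxEdges n g` is the largest number of edges of a graph on `n` vertices of girth at
least `g`. -/
noncomputable def maxEdges (n g : ℕ) : ℕ :=
  Finset.sup {G : SimpleGraph (Fin n) | (g : ℕ∞) ≤ G.egirth} (fun G => G.edgeFinset.card)

end Pool.Agent.Helper72.Cyc
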