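import Pool.Agent.Helper72.Cyc.Reps

/-!
# Gadgets from graphs with bounded degrees
-/

set_option linter.unusedSectionVars false

namespace Pool.Agent.Helper72.Cyc

open SimpleGraph Finset

open scoped Classical in
/-- The combinatorial core, combined. -/
lemma gadget_of_dense {V : Type} [Fintype V] (G : SimpleGraph V) {g D r t : ℕ}
    (hG : NoShort G g) (hD1 : 1 ≤ D) (hD : ∀ v, G.degree v ≤ D) (hr1 : 1 ≤ r)
    (hr : 4 * r * D ≤ G.edgeFinset.card) (ht : t ≤ 2 * r) :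
    ∃ L : ℕ, HasGadget g (2 * r + g * t) L ∧
      (D : ℝ) ^ (2 * r) ≤ 16 ^ Fintype.card V * ((D : ℝ) ^ (2 * r - t) + L * (2 * r : ℝ) ^ t) := by
  have he : 0 < G.edgeFinset.card := by
    have : 0 < 4 * r * D := by positivity
    omega
  obtain ⟨A, B, hA, hB, hAB, hcard⟩ := exists_AB G hD hr he
  have hWcard : Fintype.card (A ⊕ B) = 2 * r := by
    rw [Fintype.card_sum, Fintype.card_coe, Fintype.card_coe, hA, hB]; ring
  obtain ⟨L, hL, hcount⟩ := gadget_of_graph (biGraph G A B) (g := g) (D := D) (t := t)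
    (noShort_biGraph G hAB hG) hD1 (fun v => degree_biGraph G hAB hD v) (by rw [hWcard]; exact ht)
    (by rw [hWcard]; omega)
  rw [hWcard] at hL hcount
  refine ⟨L, hL, ?_⟩
  have hEP := card_EP_ge G A B
  set X := (Mt G A B).card with hX
  -- real inequalities
  have h1 : ((4 * r * D : ℕ) : ℝ) ^ r ≤ 4 ^ Fintype.card V * (X * (r : ℝ) ^ r) := by
    have h2 : (4 * r * D) ^ r ≤ G.edgeFinset.card ^ r := Nat.pow_le_pow_left hr r
    exact_mod_cast h2.trans hcard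
  have hrpos : (0 : ℝ) < (r : ℝ) ^ r := by
    have : (0 : ℝ) < r := by exact_mod_cast hr1
    positivity
  have h3 : (4 * (D : ℝ)) ^ r ≤ 4 ^ Fintype.card V * X := by
    have h4 : ((4 * r * D : ℕ) : ℝ) ^ r = (4 * (D : ℝ)) ^ r * (r : ℝ) ^ r := by
      rw [← mul_pow]; push_cast; ring
    rw [h4, ← mul_assoc] at h1
    exact le_of_mul_le_mul_right h1 hrpos
  have h5 : ((X : ℝ)) * X ≤ 4 ^ (2 * r) * (D : ℝ) ^ (2 * r - t) + L * (2 ^ (2 * r) * (2 * r : ℝ) ^ t) := by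
    have h6 := hEP.trans hcount
    exact_mod_cast h6
  have h7 : (4 * (D : ℝ)) ^ (2 * r) ≤ 16 ^ Fintype.card V *
      (4 ^ (2 * r) * (D : ℝ) ^ (2 * r - t) + L * (2 ^ (2 * r) * (2 * r : ℝ) ^ t)) := by
    calc (4 * (D : ℝ)) ^ (2 * r) = (4 * (D : ℝ)) ^ r * (4 * (D : ℝ)) ^ r := by
          rw [two_mul, pow_add]
      _ ≤ (4 ^ Fintype.card V * X) * (4 ^ Fintype.card V * X) := by
          apply mul_le_mul h3 h3 (by positivity) (by positivity)
      _ = 16 ^ Fintype.card V * ((X : ℝ) * X) := by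
          rw [show (16 : ℝ) = 4 * 4 by norm_num, mul_pow]; ring
      _ ≤ _ := by
          apply mul_le_mul_of_nonneg_left h5 (by positivity)
  have h8 : (2 : ℝ) ^ (2 * r) ≤ 4 ^ (2 * r) := by gcongr; norm_num
  have h9 : 4 ^ (2 * r) * (D : ℝ) ^ (2 * r - t) + L * (2 ^ (2 * r) * (2 * r : ℝ) ^ t) ≤
      4 ^ (2 * r) * ((D : ℝ) ^ (2 * r - t) + L * (2 * r : ℝ) ^ t) := by
    have : (L : ℝ) * (2 ^ (2 * r) * (2 * r : ℝ) ^ t) ≤ L * (4 ^ (2 * r) * (2 * r : ℝ) ^ t) := by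
      gcongr
    nlinarith
  have h10 : (4 : ℝ) ^ (2 * r) * (D : ℝ) ^ (2 * r) ≤ 4 ^ (2 * r) * (16 ^ Fintype.card V *
      ((D : ℝ) ^ (2 * r - t) + L * (2 * r : ℝ) ^ t)) := by
    calc (4 : ℝ) ^ (2 * r) * (D : ℝ) ^ (2 * r) = (4 * (D : ℝ)) ^ (2 * r) := by rw [mul_pow]
      _ ≤ _ := h7
      _ ≤ 16 ^ Fintype.card V * (4 ^ (2 * r) * ((D : ℝ) ^ (2 * r - t) + L * (2 * r : ℝ) ^ t)) := by
          apply mul_le_mul_of_nonneg_left h9 (by positivity)
      _ = _ := by ring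
  exact le_of_mul_le_mul_left h10 (by positivity)

/-- Averaging: a subset of prescribed size with at least average weight. -/
lemma exists_subset_avg {α : Type*} [DecidableEq α] (f : α → ℝ) (k : ℕ) :
    ∀ (j : ℕ) (Z : Finset α), Z.card = k + j → ∃ T ⊆ Z, T.card = k ∧
      (k : ℝ) * ∑ z ∈ Z, f z ≤ Z.card * ∑ z ∈ T, f z := by
  intro j
  induction j with
  | zero =>
    intro Z hZ
    exact ⟨Z, Finset.Subset.refl _, by simpa using hZ, by rw [hZ]; simp⟩
  | succ j ih =>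
    intro Z hZ
    have hne : Z.Nonempty := by rw [← Finset.card_pos]; omega
    obtain ⟨z0, hz0, hmin⟩ := Finset.exists_min_image Z f hne
    have h1 : (Z.card : ℝ) * f z0 ≤ ∑ z ∈ Z, f z := by
      have := Finset.card_nsmul_le_sum Z f (f z0) hmin
      rwa [nsmul_eq_mul] at this
    have hcard : (Z.erase z0).card = k + j := by
      rw [Finset.card_erase_of_mem hz0, hZ]; omega
    obtain ⟨T, hT, hTk, hTs⟩ := ih (Z.erase z0) hcard
    refine ⟨T, hT.trans (Finset.erase_subset _ _), hTk, ?_⟩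
    have h2 : ∑ z ∈ Z.erase z0, f z = ∑ z ∈ Z, f z - f z0 := by
      rw [← Finset.add_sum_erase Z f hz0]; ring
    rw [h2, hcard] at hTs
    have hZr : (Z.card : ℝ) = k + j + 1 := by rw [hZ]; push_cast; ring
    rw [hZr] at h1 ⊢
    push_cast at hTs
    rcases Nat.eq_zero_or_pos (k + j) with h0 | h0
    · have hk0 : k = 0 := by omega
      have hT0 : T = ∅ := by rw [← Finset.card_eq_zero, hTk, hk0]
      rw [hT0, hk0]; simp
    · have hpos : (0 : ℝ) < k + j := by exact_mod_cast h0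
      have h3 : ((k : ℝ) + j) * ((k : ℝ) * ∑ z ∈ Z, f z) ≤
          ((k : ℝ) + j) * ((k + j + 1) * ∑ z ∈ T, f z) := by
        have h4 : ((k : ℝ) + j) * ∑ z ∈ Z, f z ≤ (k + j + 1) * (∑ z ∈ Z, f z - f z0) := by
          nlinarith
        have hk : (0 : ℝ) ≤ k := by positivity
        calc ((k : ℝ) + j) * ((k : ℝ) * ∑ z ∈ Z, f z)
            = k * (((k : ℝ) + j) * ∑ z ∈ Z, f z) := by ring
          _ ≤ k * ((k + j + 1) * (∑ z ∈ Z, f z - f z0)) := mul_le_mul_of_nonneg_left h4 hk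
          _ = (k + j + 1) * (k * (∑ z ∈ Z, f z - f z0)) := by ring
          _ ≤ (k + j + 1) * ((k + j) * ∑ z ∈ T, f z) := by
              apply mul_le_mul_of_nonneg_left hTs (by positivity)
          _ = _ := by ring
      exact le_of_mul_le_mul_left h3 hpos

end Pool.Agent.Helper72.Cyc
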