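import Pool.Agent.Helper72.Cyc.Trans

/-!
# Gadgets: families of permutations with a common closing pattern
-/

namespace Pool.Agent.Helper72.Cyc

open SimpleGraph Finset

/-- A permutation along the edges of `G`, whose cycles each contain exactly one element of `R`,
the element `s r` being the predecessor of `r`. -/
structure Good {W : Type*} (G : SimpleGraph W) (R : Finset W) (s : W → W)
    (σ : Equiv.Perm W) : Prop where
  adj : ∀ v, G.Adj v (σ v)
  close : ∀ r ∈ R, σ (s r) = r
  cover : ∀ v, ∃ r ∈ R, σ.SameCycle r v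
  uniq : ∀ r ∈ R, ∀ r' ∈ R, σ.SameCycle r r' → r = r'

/-- There is a graph with no cycle shorter than `g` and a closing pattern, of total size at most
`n`, with at least `L` permutations. -/
def HasGadget (g n L : ℕ) : Prop :=
  ∃ (W : Type) (_ : Fintype W) (G : SimpleGraph W) (R : Finset W) (s : W → W),
    NoShort G g ∧ Fintype.card W + g * R.card ≤ n ∧
    ∃ F : Finset (Equiv.Perm W), L ≤ F.card ∧ ∀ σ ∈ F, Good G R s σ

lemma HasGadget.mono {g n n' L L' : ℕ} (h : HasGadget g n L) (hn : n ≤ n') (hL : L' ≤ L) :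
    HasGadget g n' L' := by
  obtain ⟨W, i1, G, R, s, h1, h2, F, h3, h4⟩ := h
  exact ⟨W, i1, G, R, s, h1, h2.trans hn, F, hL.trans h3, h4⟩

lemma hasGadget_zero (g : ℕ) : HasGadget g 0 1 := by
  refine ⟨Empty, inferInstance, ⊥, ∅, id, noShort_bot g, by simp, {1}, by simp, ?_⟩
  intro σ _
  exact ⟨fun v => v.elim, fun v => v.elim, fun v => v.elim, fun v => v.elim⟩

lemma seq_prop {V : Type*} {G : SimpleGraph V} {m : ℕ} {f : Fin (m + 3) → V}
    (hadj : ∀ i, G.Adj (f i) (f (i + 1))) {P : V → Prop}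
    (hP : ∀ a b, G.Adj a b → P a → P b) (h0 : P (f 0)) : ∀ i, P (f i) := by
  intro i
  induction i using Fin.induction with
  | zero => exact h0
  | succ i ih =>
    have := hP _ _ (hadj i.castSucc) ih
    rwa [Fin.coeSucc_eq_succ] at this

lemma NoShort.sum {V W : Type*} {G : SimpleGraph V} {H : SimpleGraph W} {g : ℕ}
    (hG : NoShort G g) (hH : NoShort H g) : NoShort (G ⊕g H) g := by
  intro m f hf hadj
  rcases h0 : f 0 with a | b
  · have h : ∀ i, ∃ x, f i = Sum.inl x := by
      apply seq_prop hadj (P := fun y => ∃ x, y = Sum.inl x)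
      · rintro y z hyz ⟨x, rfl⟩
        rcases z with z | z
        · exact ⟨z, rfl⟩
        · simp at hyz
      · exact ⟨a, h0⟩
    choose f' hf' using h
    apply hG m f'
    · intro i j hij
      apply hf
      rw [hf', hf', hij]
    · intro i
      have := hadj i
      rw [hf' i, hf' (i + 1)] at this
      simpa using this
  · have h : ∀ i, ∃ x, f i = Sum.inr x := by
      apply seq_prop hadj (P := fun y => ∃ x, y = Sum.inr x)
      · rintro y z hyz ⟨x, rfl⟩
        rcases z with z | z
        · simp at hyz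
        · exact ⟨z, rfl⟩
      · exact ⟨b, h0⟩
    choose f' hf' using h
    apply hH m f'
    · intro i j hij
      apply hf
      rw [hf', hf', hij]
    · intro i
      have := hadj i
      rw [hf' i, hf' (i + 1)] at this
      simpa using this

lemma sumCongr_zpow {V W : Type*} (σ : Equiv.Perm V) (τ : Equiv.Perm W) (k : ℤ) :
    (Equiv.Perm.sumCongr σ τ) ^ k = Equiv.Perm.sumCongr (σ ^ k) (τ ^ k) := by
  have := map_zpow (Equiv.Perm.sumCongrHom V W) (σ, τ) k
  simpa using this.symm

lemma HasGadget.add {g n₁ n₂ L₁ L₂ : ℕ} (h₁ : HasGadget g n₁ L₁) (h₂ : HasGadget g n₂ L₂) :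
    HasGadget g (n₁ + n₂) (L₁ * L₂) := by
  classical
  obtain ⟨W₁, i₁, G₁, R₁, s₁, a₁, b₁, F₁, c₁, d₁⟩ := h₁
  obtain ⟨W₂, i₂, G₂, R₂, s₂, a₂, b₂, F₂, c₂, d₂⟩ := h₂
  refine ⟨W₁ ⊕ W₂, inferInstance, G₁ ⊕g G₂, R₁.disjSum R₂, Sum.map s₁ s₂, a₁.sum a₂, ?_,
    (F₁ ×ˢ F₂).image (fun p => Equiv.Perm.sumCongr p.1 p.2), ?_, ?_⟩
  · rw [Fintype.card_sum, Finset.card_disjSum]
    nlinarith
  · rw [Finset.card_image_of_injective, Finset.card_product]
    · exact Nat.mul_le_mul c₁ c₂
    · intro p q hpq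
      have := Equiv.Perm.sumCongrHom_injective (α := W₁) (β := W₂)
      exact this (by simpa using hpq)
  · intro σ hσ
    rw [Finset.mem_image] at hσ
    obtain ⟨⟨σ₁, σ₂⟩, hp, rfl⟩ := hσ
    rw [Finset.mem_product] at hp
    have g₁ := d₁ σ₁ hp.1
    have g₂ := d₂ σ₂ hp.2
    refine ⟨?_, ?_, ?_, ?_⟩
    · rintro (v | v)
      · simpa using g₁.adj v
      · simpa using g₂.adj v
    · rintro (r | r) hr
      · have hr' : r ∈ R₁ := by simpa using hr
        simpa using g₁.close r hr'
      · have hr' : r ∈ R₂ := by simpa using hr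
        simpa using g₂.close r hr'
    · rintro (v | v)
      · obtain ⟨r, hr, k, hk⟩ := g₁.cover v
        refine ⟨Sum.inl r, by simpa using hr, k, ?_⟩
        rw [sumCongr_zpow]; simpa using hk
      · obtain ⟨r, hr, k, hk⟩ := g₂.cover v
        refine ⟨Sum.inr r, by simpa using hr, k, ?_⟩
        rw [sumCongr_zpow]; simpa using hk
    · rintro (r | r) hr (r' | r') hr' ⟨k, hk⟩
      · rw [sumCongr_zpow] at hk
        have := g₁.uniq r (by simpa using hr) r' (by simpa using hr') ⟨k, by simpa using hk⟩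
        rw [this]
      · rw [sumCongr_zpow] at hk
        simp at hk
      · rw [sumCongr_zpow] at hk
        simp at hk
      · rw [sumCongr_zpow] at hk
        have := g₂.uniq r (by simpa using hr) r' (by simpa using hr') ⟨k, by simpa using hk⟩
        rw [this]

end Pool.Agent.Helper72.Cyc
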