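import Pool.Agent.Helper72.Cyc.Main

/-!
# Limit theorems
-/

set_option linter.unusedSectionVars false

namespace Pool.Agent.Helper72.Cyc

open SimpleGraph Finset Filter Topology

lemma tendsto_rho {g : ℕ} (hg : 1 ≤ g) : Tendsto (fun n : ℕ => rho g n) atTop atTop := by
  rw [tendsto_atTop]
  intro b
  obtain ⟨D, hD⟩ := exists_nat_ge (4 * b)
  filter_upwards [eventually_ge_atTop (2 * (D + 1) ^ g), eventually_ge_atTop 1] with n hn hn1
  have h1 := erdos_sachs hg hn
  have hnpos : (0 : ℝ) < n := by exact_mod_cast hn1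
  have h2 : (D : ℝ) * n ≤ 4 * (rho g n * n) := by
    rw [rho_mul g hn1]; exact_mod_cast h1
  have h3 : (D : ℝ) * n ≤ (4 * rho g n) * n := by linarith
  have h4 := le_of_mul_le_mul_right h3 hnpos
  linarith

lemma le_maxCycles_of_GP {g n : ℕ} {x : ℝ} (hg : 3 ≤ g) (h : GP g n x) (hx : Real.log 2 ≤ x) :
    Real.exp x ≤ maxCycles n g := by
  obtain ⟨L, hL, hxL⟩ := h
  have h2 : (2 : ℝ) ≤ L := by
    have := Real.exp_le_exp.2 hx
    rw [Real.exp_log (by norm_num)] at this
    linarith
  have h3 : L ≤ maxCycles n g := hL.le_maxCycles hg (by exact_mod_cast h2)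
  exact hxL.trans (by exact_mod_cast h3)

/-- Main theorem, first form. -/
theorem log_maxCycles_tendsto {g : ℕ} (hg : 3 ≤ g) :
    Tendsto (fun n : ℕ => Real.log (maxCycles n g) /
      (n * Real.log ((maxEdges n g : ℝ) / n))) atTop (𝓝 1) := by
  have hlog : Tendsto (fun n : ℕ => Real.log (rho g n)) atTop atTop :=
    Real.tendsto_log_atTop.comp (tendsto_rho (by omega))
  rw [Metric.tendsto_atTop']
  intro ε' hε'
  set ε := min (ε' / 4) (1 / 2) with hε
  have hε0 : 0 < ε := by positivity
  have hε1 : ε < 1 := (min_le_right _ _).trans_lt (by norm_num)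
  have hε4 : ε ≤ ε' / 4 := min_le_left _ _
  obtain ⟨C, hC⟩ := lower_general hg hε0 hε1
  -- thresholds
  have hev := hlog.eventually_ge_atTop (max 1 (4 * (|C| + Real.log 3 + 1) / ε'))
  have hev1 := hlog.eventually_ge_atTop ((|C| + 1) / (1 - ε))
  obtain ⟨N, hN⟩ := (hev.and (hev1.and (eventually_ge_atTop 1))).exists_forall_of_atTop
  refine ⟨N, fun n hn => ?_⟩
  obtain ⟨h1, h2, h3⟩ := hN n hn.le
  have hnpos : (0 : ℝ) < n := by exact_mod_cast h3
  have hn1 : (1 : ℝ) ≤ n := by exact_mod_cast h3
  show dist (Real.log (maxCycles n g) / (n * Real.log (rho g n))) 1 < ε'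
  set x := Real.log (rho g n) with hx
  have hx1 : 1 ≤ x := (le_max_left _ _).trans h1
  have hx2 : 4 * (|C| + Real.log 3 + 1) / ε' ≤ x := (le_max_right _ _).trans h1
  have hxpos : 0 < x := by linarith
  have hρpos : 0 < rho g n := by
    rcases (rho_nonneg g n).lt_or_eq with h | h
    · exact h
    · rw [hx, ← h, Real.log_zero] at hx1; linarith
  have hρ1 : 1 ≤ rho g n := by
    by_contra hcon
    push Not at hcon
    have := Real.log_nonpos hρpos.le hcon.le
    linarith
  have hlog3 : 0 ≤ Real.log 3 := Real.log_nonneg (by norm_num)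
  have hx3 : 4 * (|C| + Real.log 3 + 1) ≤ x * ε' := by
    rwa [div_le_iff₀ hε'] at hx2
  have hlog2 : Real.log 2 ≤ 1 := by
    have := Real.log_two_lt_d9
    linarith
  have hCabs := le_abs_self C
  -- lower bound
  have hlow1 : x ≤ Real.log (1 + rho g n) := Real.log_le_log hρpos (by linarith)
  have hlow2 : (1 - ε) * x - C ≤ (1 - ε) * Real.log (1 + rho g n) - C := by
    have := mul_le_mul_of_nonneg_left hlow1 (by linarith : (0 : ℝ) ≤ 1 - ε)
    linarith
  have hx4 : |C| + 1 ≤ (1 - ε) * x := by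
    rw [div_le_iff₀ (by linarith)] at h2
    linarith
  have hGP : GP g n (n * ((1 - ε) * x - C)) :=
    (hC n).mono le_rfl (mul_le_mul_of_nonneg_left hlow2 hnpos.le)
  have hbig : Real.log 2 ≤ n * ((1 - ε) * x - C) := by
    have h4 : 1 ≤ (1 - ε) * x - C := by linarith
    nlinarith
  have hle := le_maxCycles_of_GP hg hGP hbig
  have hlogle : n * ((1 - ε) * x - C) ≤ Real.log (maxCycles n g) := by
    have := Real.log_le_log (Real.exp_pos _) hle
    rwa [Real.log_exp] at this
  -- upper bound
  have hcpos : (0 : ℝ) < maxCycles n g := (Real.exp_pos _).trans_le hle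
  have hup : Real.log (maxCycles n g) ≤ n * (x + Real.log 3) := by
    have h4 := maxCycles_le g h3
    have h5 := Real.log_le_log hcpos h4
    rw [Real.log_pow] at h5
    have h6 : Real.log (2 * rho g n + 1) ≤ x + Real.log 3 := by
      rw [hx, ← Real.log_mul hρpos.ne' (by norm_num)]
      apply Real.log_le_log (by linarith)
      linarith
    exact h5.trans (mul_le_mul_of_nonneg_left h6 hnpos.le)
  have hnx : 0 < n * x := by positivity
  rw [Real.dist_eq, abs_lt]
  constructor
  · have h4 : 1 - ε' < Real.log (maxCycles n g) / (n * x) := by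
      rw [lt_div_iff₀ hnx]
      refine lt_of_lt_of_le ?_ hlogle
      have h5 : (1 - ε') * x < (1 - ε) * x - C := by nlinarith
      calc (1 - ε') * (n * x) = n * ((1 - ε') * x) := by ring
        _ < n * ((1 - ε) * x - C) := mul_lt_mul_of_pos_left h5 hnpos
    linarith
  · have h4 : Real.log (maxCycles n g) / (n * x) < 1 + ε' := by
      rw [div_lt_iff₀ hnx]
      refine lt_of_le_of_lt hup ?_
      have h5 : x + Real.log 3 < (1 + ε') * x := by nlinarith [abs_nonneg C]
      calc n * (x + Real.log 3) < n * ((1 + ε') * x) := mul_lt_mul_of_pos_left h5 hnpos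
        _ = (1 + ε') * (n * x) := by ring
    linarith

/-- Order of magnitude under a power law for the number of edges. -/
theorem maxCycles_of_power {g : ℕ} (hg : 3 ≤ g) {α a b : ℝ} (hα : 0 < α) (ha : 0 < a) (hb : 0 < b)
    (hlow : ∀ᶠ n : ℕ in atTop, a * (n : ℝ) ^ (1 + α) ≤ maxEdges n g)
    (hup : ∀ᶠ n : ℕ in atTop, (maxEdges n g : ℝ) ≤ b * (n : ℝ) ^ (1 + α)) :
    ∃ a' b' : ℝ, 0 < a' ∧ 0 < b' ∧ ∀ᶠ n : ℕ in atTop,
      (a' * (n : ℝ) ^ α) ^ n ≤ (maxCycles n g : ℝ) ∧
      (maxCycles n g : ℝ) ≤ (b' * (n : ℝ) ^ α) ^ n := by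
  obtain ⟨N, hN⟩ := (hlow.and (hup.and (eventually_ge_atTop 1))).exists_forall_of_atTop
  -- the densities
  have hdens : ∀ n : ℕ, N ≤ n → a * (n : ℝ) ^ α ≤ rho g n ∧ rho g n ≤ b * (n : ℝ) ^ α := by
    intro n hn
    obtain ⟨h1, h2, h3⟩ := hN n hn
    have hnpos : (0 : ℝ) < n := by exact_mod_cast h3
    rw [← rho_mul g h3, Real.rpow_add hnpos, Real.rpow_one] at h1 h2
    constructor
    · have : (a * (n : ℝ) ^ α) * n ≤ rho g n * n := by linarith
      exact le_of_mul_le_mul_right this hnpos
    · have : rho g n * n ≤ (b * (n : ℝ) ^ α) * n := by linarith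
      exact le_of_mul_le_mul_right this hnpos
  have hN1 : 1 ≤ N := (hN N le_rfl).2.2
  have hNpos : (0 : ℝ) < N := by exact_mod_cast hN1
  set b1 := max b N with hb1
  have hb1pos : 0 < b1 := hb.trans_le (le_max_left _ _)
  have hall : ∀ n : ℕ, rho g n ≤ b1 * (n : ℝ) ^ α := by
    intro n
    by_cases hn : N ≤ n
    · refine (hdens n hn).2.trans ?_
      exact mul_le_mul_of_nonneg_right (le_max_left _ _) (by positivity)
    · push Not at hn
      rcases Nat.eq_zero_or_pos n with h0 | hpos
      · subst h0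
        have : rho g 0 = 0 := by unfold rho; simp
        rw [this]; positivity
      · have h1 : rho g n ≤ N := (rho_le g hpos).trans (by exact_mod_cast hn.le)
        have h2 : (1 : ℝ) ≤ (n : ℝ) ^ α := Real.one_le_rpow (by exact_mod_cast hpos) hα.le
        calc rho g n ≤ N := h1
          _ ≤ b1 := le_max_right _ _
          _ ≤ b1 * (n : ℝ) ^ α := by nlinarith
  obtain ⟨C, hC, hblock⟩ := block hg (K := b1 / a) (δ := α) (by positivity) hα
  set C1 := max (C - Real.log a) (α * Real.log N) with hC1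
  have hGP : ∀ n : ℕ, GP g n (n * (α * Real.log n - (α + C1))) := by
    apply gp_induct (fun n => α * Real.log n)
    · intro n s hs hsn
      rcases Nat.eq_zero_or_pos (n - s) with h0 | hpos
      · rw [h0]; simp; positivity
      · have hj : (0 : ℝ) < ((n - s : ℕ) : ℝ) := by exact_mod_cast hpos
        have hnpos : (0 : ℝ) < n := by exact_mod_cast (show 0 < n by omega)
        have hjn : ((n - s : ℕ) : ℝ) ≤ n := by exact_mod_cast Nat.sub_le n s
        have h3 := mul_log_div_le hj hjn
        have h4 : (n : ℝ) - ((n - s : ℕ) : ℝ) = s := by rw [Nat.cast_sub hsn]; ring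
        rw [h4, Real.log_div hnpos.ne' hj.ne'] at h3
        calc ((n - s : ℕ) : ℝ) * (α * Real.log n - α * Real.log ((n - s : ℕ) : ℝ))
            = α * (((n - s : ℕ) : ℝ) * (Real.log n - Real.log ((n - s : ℕ) : ℝ))) := by ring
          _ ≤ α * s := mul_le_mul_of_nonneg_left h3 hα.le
    · intro n hn
      have hnpos : (0 : ℝ) < n := by exact_mod_cast hn
      by_cases hnN : N ≤ n
      · obtain ⟨s, hs1, hs2, hG⟩ := hblock n hn (by
          intro m' hm'
          have hd := (hdens n hnN).1
          have h1 : (n : ℝ) ^ α ≤ rho g n / a := by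
            rw [le_div_iff₀ ha]; linarith
          have hnα : (0 : ℝ) < (n : ℝ) ^ α := Real.rpow_pos_of_pos hnpos _
          rw [Real.div_rpow (by positivity) hnpos.le]
          calc rho g m' ≤ b1 * (m' : ℝ) ^ α := hall m'
            _ = b1 * (n : ℝ) ^ α * ((m' : ℝ) ^ α / (n : ℝ) ^ α) := by field_simp
            _ ≤ b1 * (rho g n / a) * ((m' : ℝ) ^ α / (n : ℝ) ^ α) := by
                apply mul_le_mul_of_nonneg_right _ (by positivity)
                exact mul_le_mul_of_nonneg_left h1 hb1pos.le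
            _ = b1 / a * rho g n * ((m' : ℝ) ^ α / (n : ℝ) ^ α) := by ring)
        refine ⟨s, hs1, hs2, hG.mono le_rfl ?_⟩
        apply mul_le_mul_of_nonneg_left _ (by positivity)
        have h1 : Real.log (a * (n : ℝ) ^ α) ≤ Real.log (rho g n) :=
          Real.log_le_log (by positivity) (hdens n hnN).1
        rw [Real.log_mul ha.ne' (by positivity), Real.log_rpow hnpos] at h1
        have h2 : C - Real.log a ≤ C1 := le_max_left _ _
        linarith
      · push Not at hnN
        refine ⟨1, le_rfl, hn, GP_of_nonpos g 1 ?_⟩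
        have h1 : Real.log n ≤ Real.log N := Real.log_le_log hnpos (by exact_mod_cast hnN.le)
        have h2 : α * Real.log n ≤ α * Real.log N := mul_le_mul_of_nonneg_left h1 hα.le
        have h3 : α * Real.log N ≤ C1 := le_max_right _ _
        push_cast
        linarith
  refine ⟨Real.exp (-(α + C1)), 2 * b + 1, Real.exp_pos _, by positivity, ?_⟩
  have hlogt : Tendsto (fun n : ℕ => Real.log (n : ℝ)) atTop atTop :=
    Real.tendsto_log_atTop.comp tendsto_natCast_atTop_atTop
  filter_upwards [eventually_ge_atTop N, hlogt.eventually_ge_atTop ((|α + C1| + 1) / α)]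
    with n hn hlogn
  obtain ⟨-, -, h3⟩ := hN n hn
  have hnpos : (0 : ℝ) < n := by exact_mod_cast h3
  have hn1 : (1 : ℝ) ≤ n := by exact_mod_cast h3
  have hlog2 : Real.log 2 ≤ 1 := by
    have := Real.log_two_lt_d9
    linarith
  constructor
  · have h1 : |α + C1| + 1 ≤ α * Real.log n := by
      rw [div_le_iff₀ hα] at hlogn
      linarith
    have h2 : Real.log 2 ≤ n * (α * Real.log n - (α + C1)) := by
      have h4 := le_abs_self (α + C1)
      have h5 : 1 ≤ α * Real.log n - (α + C1) := by linarith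
      nlinarith
    have h4 := le_maxCycles_of_GP hg (hGP n) h2
    refine le_trans (le_of_eq ?_) h4
    have h5 : Real.exp (-(α + C1)) * (n : ℝ) ^ α = Real.exp (α * Real.log n - (α + C1)) := by
      rw [Real.rpow_def_of_pos hnpos, ← Real.exp_add]
      congr 1; ring
    rw [h5, ← Real.exp_nat_mul]
  · refine (maxCycles_le g h3).trans ?_
    have h1 := (hdens n hn).2
    have h2 : (1 : ℝ) ≤ (n : ℝ) ^ α := Real.one_le_rpow hn1 hα.le
    have h4 := rho_nonneg g n
    apply pow_le_pow_left₀ (by linarith)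
    nlinarith

end Pool.Agent.Helper72.Cyc
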