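import Pool.Agent.Helper72.Cyc.Gadget

/-!
# Ordered oriented matchings
-/

set_option linter.unusedSectionVars false

namespace Pool.Agent.Helper72.Cyc

open SimpleGraph Finset

section

variable {V : Type*} [Fintype V] [DecidableEq V] (G : SimpleGraph V) [DecidableRel G.Adj]

/-- Ordered oriented matching of size `i`. -/
def IsOM (i : ℕ) (f : Fin i → V × V) : Prop :=
  (∀ j, G.Adj (f j).1 (f j).2) ∧ (∀ j k, (f j).1 = (f k).1 → j = k) ∧
    (∀ j k, (f j).2 = (f k).2 → j = k) ∧ (∀ j k, (f j).1 ≠ (f k).2)

open scoped Classical in
/-- The finset of ordered oriented matchings of size `i`. -/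
noncomputable def OM (i : ℕ) : Finset (Fin i → V × V) := {f | IsOM G i f}

lemma mem_OM {i : ℕ} {f : Fin i → V × V} : f ∈ OM G i ↔ IsOM G i f := by
  simp only [OM, Finset.mem_filter, Finset.mem_univ, true_and]

/-- The oriented edges. -/
def darts2 : Finset (V × V) := {p | G.Adj p.1 p.2}

lemma card_darts2 : (darts2 G).card = 2 * G.edgeFinset.card := by
  rw [← G.sum_degrees_eq_twice_card_edges]
  have : (darts2 G) = Finset.univ.biUnion (fun v => (G.neighborFinset v).image (fun w => (v, w))) := by
    ext ⟨a, b⟩
    simp [darts2]
  rw [this, Finset.card_biUnion]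
  · apply Finset.sum_congr rfl
    intro v _
    rw [Finset.card_image_of_injective _ (fun a b h => by simpa using h),
      G.card_neighborFinset_eq_degree]
  · intro a _ b _ hab
    rw [Function.onFun, Finset.disjoint_left]
    rintro ⟨x, y⟩ hx hy
    simp at hx hy
    exact hab (hx.2.trans hy.2.symm)

/-- The oriented edges avoiding a set. -/
lemma card_avoid {D : ℕ} (hD : ∀ v, G.degree v ≤ D) (U : Finset V) :
    2 * G.edgeFinset.card ≤
      ((darts2 G).filter (fun p => p.1 ∉ U ∧ p.2 ∉ U)).card + 2 * (U.card * D) := by
  rw [← card_darts2 G]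
  have h1 : (darts2 G) ⊆ ((darts2 G).filter (fun p => p.1 ∉ U ∧ p.2 ∉ U)) ∪
      ((U.biUnion (fun v => (G.neighborFinset v).image (fun w => (v, w)))) ∪
        (U.biUnion (fun v => (G.neighborFinset v).image (fun w => (w, v))))) := by
    rintro ⟨a, b⟩ hab
    have hadj : G.Adj a b := by simpa [darts2] using hab
    rw [Finset.mem_union, Finset.mem_union, Finset.mem_filter]
    by_cases ha : a ∈ U
    · right; left
      rw [Finset.mem_biUnion]
      exact ⟨a, ha, by simpa using hadj⟩
    · by_cases hb : b ∈ U
      · right; right
        rw [Finset.mem_biUnion]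
        exact ⟨b, hb, by simpa using hadj.symm⟩
      · left; exact ⟨hab, ha, hb⟩
  have h2 := Finset.card_le_card h1
  have h3 := Finset.card_union_le ((darts2 G).filter (fun p => p.1 ∉ U ∧ p.2 ∉ U))
    ((U.biUnion (fun v => (G.neighborFinset v).image (fun w => (v, w)))) ∪
        (U.biUnion (fun v => (G.neighborFinset v).image (fun w => (w, v)))))
  have h4 := Finset.card_union_le (U.biUnion (fun v => (G.neighborFinset v).image (fun w => (v, w))))
    (U.biUnion (fun v => (G.neighborFinset v).image (fun w => (w, v))))
  have h5 : (U.biUnion (fun v => (G.neighborFinset v).image (fun w => (v, w)))).card ≤ U.card * D := by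
    apply Finset.card_biUnion_le_card_mul
    intro v _
    refine (Finset.card_image_le).trans ?_
    rw [G.card_neighborFinset_eq_degree]; exact hD v
  have h6 : (U.biUnion (fun v => (G.neighborFinset v).image (fun w => (w, v)))).card ≤ U.card * D := by
    apply Finset.card_biUnion_le_card_mul
    intro v _
    refine (Finset.card_image_le).trans ?_
    rw [G.card_neighborFinset_eq_degree]; exact hD v
  omega

lemma isOM_cons {i : ℕ} {f : Fin i → V × V} (hf : IsOM G i f) {p : V × V} (hp : G.Adj p.1 p.2)
    (h1 : ∀ j, (f j).1 ≠ p.1 ∧ (f j).2 ≠ p.1) (h2 : ∀ j, (f j).1 ≠ p.2 ∧ (f j).2 ≠ p.2) :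
    IsOM G (i + 1) (Fin.cons p f) := by
  obtain ⟨a1, a2, a3, a4⟩ := hf
  refine ⟨?_, ?_, ?_, ?_⟩
  · intro j
    induction j using Fin.cases with
    | zero => simpa using hp
    | succ j => simpa using a1 j
  · intro j k
    induction j using Fin.cases with
    | zero =>
      induction k using Fin.cases with
      | zero => intro _; rfl
      | succ k => intro h; simp only [Fin.cons_zero, Fin.cons_succ] at h; exact absurd h.symm (h1 k).1
    | succ j =>
      induction k using Fin.cases with
      | zero => intro h; simp only [Fin.cons_zero, Fin.cons_succ] at h; exact absurd h (h1 j).1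
      | succ k => intro h; simp only [Fin.cons_succ] at h; rw [a2 j k h]
  · intro j k
    induction j using Fin.cases with
    | zero =>
      induction k using Fin.cases with
      | zero => intro _; rfl
      | succ k => intro h; simp only [Fin.cons_zero, Fin.cons_succ] at h; exact absurd h.symm (h2 k).2
    | succ j =>
      induction k using Fin.cases with
      | zero => intro h; simp only [Fin.cons_zero, Fin.cons_succ] at h; exact absurd h (h2 j).2
      | succ k => intro h; simp only [Fin.cons_succ] at h; rw [a3 j k h]
  · intro j k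
    induction j using Fin.cases with
    | zero =>
      induction k using Fin.cases with
      | zero => simpa using hp.ne
      | succ k => simpa using (h1 k).2.symm
    | succ j =>
      induction k using Fin.cases with
      | zero => simpa using (h2 j).1
      | succ k => simpa using a4 j k

lemma card_OM_step {D i : ℕ} (hD : ∀ v, G.degree v ≤ D) :
    (OM G i).card * (2 * G.edgeFinset.card - 4 * i * D) ≤ (OM G (i + 1)).card := by
  classical
  have key : ∀ f ∈ OM G i, 2 * G.edgeFinset.card - 4 * i * D ≤
      ((darts2 G).filter (fun p => p.1 ∉ (Finset.univ.image (fun j => (f j).1)) ∪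
        (Finset.univ.image (fun j => (f j).2)) ∧ p.2 ∉ (Finset.univ.image (fun j => (f j).1)) ∪
        (Finset.univ.image (fun j => (f j).2)))).card := by
    intro f hf
    set U := (Finset.univ.image (fun j => (f j).1)) ∪ (Finset.univ.image (fun j => (f j).2)) with hU
    have h1 := card_avoid G hD U
    have h2 : U.card ≤ 2 * i := by
      rw [hU]
      refine (Finset.card_union_le _ _).trans ?_
      have h3 : (Finset.univ.image (fun j => (f j).1)).card ≤ i := by
        refine Finset.card_image_le.trans ?_
        simp
      have h4 : (Finset.univ.image (fun j => (f j).2)).card ≤ i := by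
        refine Finset.card_image_le.trans ?_
        simp
      omega
    have h3 : U.card * D ≤ 2 * i * D := Nat.mul_le_mul_right _ h2
    have h4 : 2 * (2 * i * D) = 4 * i * D := by ring
    omega
  have h1 : (OM G i).card * (2 * G.edgeFinset.card - 4 * i * D) ≤
      ((OM G i).sigma (fun f => ((darts2 G).filter (fun p => p.1 ∉ (Finset.univ.image (fun j => (f j).1)) ∪
        (Finset.univ.image (fun j => (f j).2)) ∧ p.2 ∉ (Finset.univ.image (fun j => (f j).1)) ∪
        (Finset.univ.image (fun j => (f j).2)))))).card := by
    rw [Finset.card_sigma, ← smul_eq_mul]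
    exact Finset.card_nsmul_le_sum _ _ _ key
  refine h1.trans ?_
  apply Finset.card_le_card_of_injOn
    (fun q : (_ : Fin i → V × V) × (V × V) => (Fin.cons q.2 q.1 : Fin (i + 1) → V × V))
  · rintro ⟨f, p⟩ hq
    rw [Finset.mem_coe, Finset.mem_sigma, Finset.mem_filter] at hq
    rw [Finset.mem_coe, mem_OM]
    have hp : G.Adj p.1 p.2 := by simpa [darts2] using hq.2.1
    apply isOM_cons G ((mem_OM G).1 hq.1) hp
    · intro j
      constructor
      · intro h; apply hq.2.2.1
        rw [Finset.mem_union]; left; rw [Finset.mem_image]; exact ⟨j, Finset.mem_univ _, h⟩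
      · intro h; apply hq.2.2.1
        rw [Finset.mem_union]; right; rw [Finset.mem_image]; exact ⟨j, Finset.mem_univ _, h⟩
    · intro j
      constructor
      · intro h; apply hq.2.2.2
        rw [Finset.mem_union]; left; rw [Finset.mem_image]; exact ⟨j, Finset.mem_univ _, h⟩
      · intro h; apply hq.2.2.2
        rw [Finset.mem_union]; right; rw [Finset.mem_image]; exact ⟨j, Finset.mem_univ _, h⟩
  · rintro ⟨f, p⟩ _ ⟨f', p'⟩ _ h
    simp only at h
    have h0 := congrFun h 0
    have hs : ∀ j : Fin i, f j = f' j := fun j => by
      have := congrFun h j.succ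
      simpa using this
    simp only [Fin.cons_zero] at h0
    have : f = f' := funext hs
    rw [this, h0]

/-- The number of ordered oriented matchings of size `r` is at least `e ^ r`. -/
lemma card_OM_ge {D r : ℕ} (hD : ∀ v, G.degree v ≤ D) (hr : 4 * r * D ≤ G.edgeFinset.card) :
    G.edgeFinset.card ^ r ≤ (OM G r).card := by
  have h : ∀ i ≤ r, G.edgeFinset.card ^ i ≤ (OM G i).card := by
    intro i
    induction i with
    | zero =>
      intro _
      rw [pow_zero]
      apply Finset.card_pos.2
      refine ⟨Fin.elim0, ?_⟩
      rw [mem_OM]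
      exact ⟨fun j => j.elim0, fun j => j.elim0, fun j => j.elim0, fun j => j.elim0⟩
    | succ i ih =>
      intro hi
      have h1 := card_OM_step G (i := i) hD
      have h2 : 4 * i * D ≤ 4 * r * D := Nat.mul_le_mul_right _ (by omega)
      have h3 : G.edgeFinset.card ≤ 2 * G.edgeFinset.card - 4 * i * D := by omega
      calc G.edgeFinset.card ^ (i + 1) = G.edgeFinset.card ^ i * G.edgeFinset.card := pow_succ _ _
        _ ≤ (OM G i).card * (2 * G.edgeFinset.card - 4 * i * D) :=
            Nat.mul_le_mul (ih (by omega)) h3
        _ ≤ _ := h1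
  exact h r le_rfl

end

end Pool.Agent.Helper72.Cyc
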