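import Pool.Agent.Helper72.Cyc.AlgGraph
import Pool.Agent.Helper72.Cyc.Moore
import Pool.Agent.Helper72.Cyc.Limits

/-!
# Order of magnitude for girth 5, 6, 7, 8, 11, 12
-/

set_option linter.unusedSectionVars false

namespace Pool.Agent.Helper72.Cyc

open SimpleGraph Finset Filter Topology

lemma NoShort.of_le {V : Type*} {G : SimpleGraph V} {g g' : ℕ} (h : NoShort G g) (hle : g' ≤ g) :
    NoShort G g' := fun m f hf hadj => hle.trans (h m f hf hadj)

lemma maxEdges_prime_two {p g : ℕ} (hp : p.Prime) (hg : g ≤ 6) :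
    p ^ (2 + 1) ≤ maxEdges (2 * p ^ 2) g := by
  classical
  have : Fact p.Prime := ⟨hp⟩
  have h1 := card_edges_le_maxEdges' (n := 2 * p ^ 2) (noShort_inc2 (F := ZMod p) |>.of_le hg) (by
    rw [Fintype.card_sum, Fintype.card_prod, ZMod.card]
    apply le_of_eq; ring)
  have h2 := card_bip_edges (T := (ZMod p × ZMod p) × ZMod p) (I := inc2 (F := ZMod p))
    (fun t => t.1) (fun t => (t.2, t.1.1 * t.2 - t.1.2)) (fun t => by simp only [inc2]; ring)
    (fun s t h h' => Prod.ext h (congrArg Prod.fst h'))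
  have h3 : Fintype.card ((ZMod p × ZMod p) × ZMod p) = p ^ (2 + 1) := by
    rw [Fintype.card_prod, Fintype.card_prod, ZMod.card]; ring
  rw [h3] at h2
  refine h2.trans (le_trans (le_of_eq ?_) h1)
  exact card_edges_inst _ _ _

lemma maxEdges_prime_three {p g : ℕ} (hp : p.Prime) (hg : g ≤ 8) :
    p ^ (3 + 1) ≤ maxEdges (2 * p ^ 3) g := by
  classical
  have : Fact p.Prime := ⟨hp⟩
  have h1 := card_edges_le_maxEdges' (n := 2 * p ^ 3) (noShort_inc3 (F := ZMod p) |>.of_le hg) (by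
    simp only [Fintype.card_sum, Fintype.card_prod, ZMod.card]
    apply le_of_eq; ring)
  have h2 := card_bip_edges (T := (ZMod p × ZMod p × ZMod p) × ZMod p) (I := inc3 (F := ZMod p))
    (fun t => t.1) (fun t => (t.2, t.1.1 * t.2 - t.1.2.1, t.1.1 * (t.1.1 * t.2 - t.1.2.1) - t.1.2.2))
    (fun t => ⟨by ring, by ring⟩)
    (fun s t h h' => Prod.ext h (congrArg Prod.fst h'))
  have h3 : Fintype.card ((ZMod p × ZMod p × ZMod p) × ZMod p) = p ^ (3 + 1) := by
    simp only [Fintype.card_prod, ZMod.card]; ring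
  rw [h3] at h2
  refine h2.trans (le_trans (le_of_eq ?_) h1)
  exact card_edges_inst _ _ _

lemma maxEdges_prime_five {p g : ℕ} (hp : p.Prime) (hg : g ≤ 12) :
    p ^ (5 + 1) ≤ maxEdges (2 * p ^ 5) g := by
  classical
  have : Fact p.Prime := ⟨hp⟩
  have h1 := card_edges_le_maxEdges' (n := 2 * p ^ 5) (noShort_inc5 (F := ZMod p) |>.of_le hg) (by
    simp only [Fintype.card_sum, Fintype.card_prod, ZMod.card]
    apply le_of_eq; ring)
  have h2 := card_bip_edges (T := (ZMod p × ZMod p × ZMod p × ZMod p × ZMod p) × ZMod p)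
    (I := inc5 (F := ZMod p))
    (fun t => t.1) (fun t => (t.2, t.1.1 * t.2 - t.1.2.1,
      t.1.1 * (t.1.1 * t.2 - t.1.2.1) - t.1.2.2.1,
      t.1.1 * (t.1.1 * (t.1.1 * t.2 - t.1.2.1) - t.1.2.2.1) - t.1.2.2.2.1,
      t.1.2.1 * (t.1.1 * (t.1.1 * t.2 - t.1.2.1) - t.1.2.2.1)
        - t.1.2.2.1 * (t.1.1 * t.2 - t.1.2.1) - t.1.2.2.2.2))
    (fun t => ⟨by ring, by ring, by ring, by ring⟩)
    (fun s t h h' => Prod.ext h (congrArg Prod.fst h'))
  have h3 : Fintype.card ((ZMod p × ZMod p × ZMod p × ZMod p × ZMod p) × ZMod p) = p ^ (5 + 1) := by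
    simp only [Fintype.card_prod, ZMod.card]; ring
  rw [h3] at h2
  refine h2.trans (le_trans (le_of_eq ?_) h1)
  exact card_edges_inst _ _ _

lemma maxEdges_lower_of_prime {k g : ℕ} (hk : 1 ≤ k)
    (h : ∀ p : ℕ, p.Prime → p ^ (k + 1) ≤ maxEdges (2 * p ^ k) g) :
    ∃ a : ℝ, 0 < a ∧ ∀ᶠ n : ℕ in atTop, a * (n : ℝ) ^ (1 + (1 : ℝ) / k) ≤ maxEdges n g := by
  have hkpos : (0 : ℝ) < k := by exact_mod_cast hk
  refine ⟨1 / (2 ^ (1 + (1 : ℝ) / k) * 2 ^ (k + 1)), by positivity, ?_⟩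
  filter_upwards [eventually_ge_atTop (2 * 2 ^ k)] with n hn
  have hnR : (2 : ℝ) * 2 ^ k ≤ n := by exact_mod_cast hn
  have hnpos : (0 : ℝ) < n := lt_of_lt_of_le (by positivity) hnR
  set t : ℝ := ((n : ℝ) / 2) ^ ((1 : ℝ) / k) with ht
  have htk : t ^ k = n / 2 := by
    rw [ht, ← Real.rpow_natCast, ← Real.rpow_mul (by positivity), one_div_mul_cancel hkpos.ne',
      Real.rpow_one]
  have htpos : 0 < t := Real.rpow_pos_of_pos (by positivity) _
  have ht2 : 2 ≤ t := by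
    by_contra hcon
    push Not at hcon
    have h1 : t ^ k < 2 ^ k := pow_lt_pow_left₀ hcon htpos.le (by omega)
    rw [htk] at h1
    linarith
  set q := ⌊t / 2⌋₊ with hq
  have hq1 : 1 ≤ q := by
    rw [hq, Nat.one_le_floor_iff]
    linarith
  have hq2 : (q : ℝ) ≤ t / 2 := Nat.floor_le (by positivity)
  have hq3 : t / 2 < q + 1 := Nat.lt_floor_add_one _
  obtain ⟨p, hp, hqp, hp2⟩ := Nat.exists_prime_lt_and_le_two_mul q (by omega)
  have hpt : (p : ℝ) ≤ t := by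
    have : (p : ℝ) ≤ 2 * q := by exact_mod_cast hp2
    linarith
  have hpt' : t / 2 ≤ p := by
    have : (q : ℝ) + 1 ≤ p := by exact_mod_cast hqp
    linarith
  have hle : 2 * p ^ k ≤ n := by
    have h1 : (p : ℝ) ^ k ≤ t ^ k := pow_le_pow_left₀ (by positivity) hpt k
    rw [htk] at h1
    have h2 : ((2 * p ^ k : ℕ) : ℝ) ≤ n := by push_cast; linarith
    exact_mod_cast h2
  have h1 := (h p hp).trans (maxEdges_mono hle g)
  have h2 : ((p : ℝ)) ^ (k + 1) ≤ maxEdges n g := by exact_mod_cast h1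
  have h3 : (t / 2) ^ (k + 1) ≤ (p : ℝ) ^ (k + 1) := pow_le_pow_left₀ (by positivity) hpt' _
  have h4 : t ^ (k + 1) = ((n : ℝ) / 2) ^ (1 + (1 : ℝ) / k) := by
    rw [pow_succ, htk, ht, Real.rpow_add (by positivity), Real.rpow_one]
  rw [div_pow, h4, Real.div_rpow hnpos.le (by norm_num)] at h3
  refine le_trans (le_of_eq ?_) (h3.trans h2)
  field_simp

lemma maxEdges_upper {k g : ℕ} (hk : 1 ≤ k) (hg : 2 * k + 1 ≤ g) :
    ∀ᶠ n : ℕ in atTop, (maxEdges n g : ℝ) ≤ 2 * (n : ℝ) ^ (1 + (1 : ℝ) / k) := by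
  filter_upwards [eventually_ge_atTop 1] with n hn
  have hnpos : (0 : ℝ) < n := by exact_mod_cast hn
  have h1 := maxEdges_le_moore hk hg n
  have h2 : (1 : ℝ) ≤ (n : ℝ) ^ ((1 : ℝ) / k) :=
    Real.one_le_rpow (by exact_mod_cast hn) (by positivity)
  rw [Real.rpow_add hnpos, Real.rpow_one]
  nlinarith

/-- The order of magnitude of the number of cycles. -/
theorem order_of_magnitude {k g : ℕ} (hk : k = 2 ∨ k = 3 ∨ k = 5)
    (hg : g = 2 * k + 1 ∨ g = 2 * k + 2) :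
    ∃ a b : ℝ, 0 < a ∧ 0 < b ∧ ∀ᶠ n : ℕ in atTop,
      (a * (n : ℝ) ^ ((1 : ℝ) / k)) ^ n ≤ (maxCycles n g : ℝ) ∧
      (maxCycles n g : ℝ) ≤ (b * (n : ℝ) ^ ((1 : ℝ) / k)) ^ n := by
  have hk1 : 1 ≤ k := by omega
  have hkpos : (0 : ℝ) < k := by exact_mod_cast hk1
  obtain ⟨a, ha, hlow⟩ : ∃ a : ℝ, 0 < a ∧ ∀ᶠ n : ℕ in atTop,
      a * (n : ℝ) ^ (1 + (1 : ℝ) / k) ≤ maxEdges n g := by
    apply maxEdges_lower_of_prime hk1
    intro p hp
    rcases hk with rfl | rfl | rfl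
    · exact maxEdges_prime_two hp (by omega)
    · exact maxEdges_prime_three hp (by omega)
    · exact maxEdges_prime_five hp (by omega)
  exact maxCycles_of_power (by omega) (by positivity) ha (by norm_num : (0 : ℝ) < 2) hlow
    (maxEdges_upper hk1 (by omega))

end Pool.Agent.Helper72.Cyc
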