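import Pool.Agent.Helper72.Cyc.Perms

/-!
# Few cycles: encoding bound and pigeonhole over closing patterns
-/

set_option linter.unusedSectionVars false

namespace Pool.Agent.Helper72.Cyc

open SimpleGraph Finset

section

variable {W : Type*} [Fintype W]

/-- The chosen representative of the cycle of `v`. -/
noncomputable def rep (σ : Equiv.Perm W) (v : W) : W :=
  Quotient.out (Quotient.mk (Equiv.Perm.SameCycle.setoid σ) v)

lemma rep_same (σ : Equiv.Perm W) (v : W) : σ.SameCycle (rep σ v) v :=
  Quotient.mk_out (s := Equiv.Perm.SameCycle.setoid σ) v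

lemma rep_eq {σ : Equiv.Perm W} {v w : W} (h : σ.SameCycle v w) : rep σ v = rep σ w := by
  unfold rep
  have : (Quotient.mk (Equiv.Perm.SameCycle.setoid σ) v) =
      (Quotient.mk (Equiv.Perm.SameCycle.setoid σ) w) := Quotient.sound h
  rw [this]

open scoped Classical in
/-- The set of representatives of the cycles of `σ`. -/
noncomputable def reps (σ : Equiv.Perm W) : Finset W := {v | rep σ v = v}

lemma mem_reps {σ : Equiv.Perm W} {v : W} : v ∈ reps σ ↔ rep σ v = v := by
  simp only [reps, Finset.mem_filter, Finset.mem_univ, true_and]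

lemma rep_mem (σ : Equiv.Perm W) (v : W) : rep σ v ∈ reps σ := by
  rw [mem_reps]; exact rep_eq (rep_same σ v)

lemma reps_uniq {σ : Equiv.Perm W} {r r' : W} (hr : r ∈ reps σ) (hr' : r' ∈ reps σ)
    (h : σ.SameCycle r r') : r = r' := by
  rw [mem_reps] at hr hr'
  rw [← hr, ← hr']; exact rep_eq h

open scoped Classical in
/-- The closing map. -/
noncomputable def clo (σ : Equiv.Perm W) (v : W) : W := if v ∈ reps σ then σ.symm v else v

lemma good_of_mem {H : SimpleGraph W} {σ : Equiv.Perm W} (h : σ ∈ EP H) :
    Good H (reps σ) (clo σ) σ := by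
  refine ⟨mem_EP.1 h, ?_, ?_, ?_⟩
  · intro r hr
    unfold clo
    rw [if_pos hr, Equiv.apply_symm_apply]
  · intro v
    exact ⟨rep σ v, rep_mem σ v, rep_same σ v⟩
  · intro r hr r' hr' h'
    exact reps_uniq hr hr' h'

/-- Decoding: a permutation is determined by the representatives, their predecessors and its
values elsewhere. -/
lemma decode {σ τ : Equiv.Perm W} (hR : reps σ = reps τ)
    (hP : ∀ v, σ v ∈ reps σ ↔ τ v ∈ reps τ) (hag : ∀ v, σ v ∉ reps σ → σ v = τ v) : σ = τ := by
  classical
  ext p
  by_cases hp : σ p ∈ reps σ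
  · set r := σ p with hr
    -- follow the cycle of `σ` starting at `r`
    have hex : ∃ k : ℕ, σ ((σ ^ k) r) ∈ reps σ := by
      have h1 : σ.SameCycle r p := ⟨-1, by rw [hr]; simp⟩
      obtain ⟨k, -, hk⟩ := h1.exists_pow_eq'
      exact ⟨k, by rw [hk]; exact hp⟩
    set k0 := Nat.find hex with hk0
    have hk0P := Nat.find_spec hex
    have hmin : ∀ j < k0, σ ((σ ^ j) r) ∉ reps σ := fun j hj => Nat.find_min hex hj
    have hpow : ∀ j ≤ k0, (τ ^ j) r = (σ ^ j) r := by
      intro j
      induction j with
      | zero => intro _; rfl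
      | succ j ih =>
        intro hj
        rw [pow_succ', pow_succ', Equiv.Perm.mul_apply, Equiv.Perm.mul_apply, ih (by omega)]
        exact (hag _ (hmin j (by omega))).symm
    have h2 : σ ((σ ^ k0) r) = r := by
      have h3 : σ.SameCycle r (σ ((σ ^ k0) r)) := ⟨((k0 + 1 : ℕ) : ℤ), by
        rw [zpow_natCast, pow_succ', Equiv.Perm.mul_apply]⟩
      exact (reps_uniq hp hk0P h3).symm
    have h3 : (σ ^ k0) r = p := σ.injective (h2.trans hr)
    have h4 : (τ ^ k0) r = p := (hpow k0 le_rfl).trans h3
    have h5 : τ p ∈ reps τ := (hP p).1 hp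
    have h6 : τ.SameCycle r (τ p) := ⟨((k0 + 1 : ℕ) : ℤ), by
      rw [zpow_natCast, pow_succ', Equiv.Perm.mul_apply, h4]⟩
    exact reps_uniq (hR ▸ hp) h5 h6
  · exact hag p hp

open scoped Classical in
lemma card_many_reps (H : SimpleGraph W) {D t : ℕ} (hD1 : 1 ≤ D) (hD : ∀ v, H.degree v ≤ D)
    (ht : t ≤ Fintype.card W) :
    ((EP H).filter (fun σ => t < (reps σ).card)).card ≤
      4 ^ Fintype.card W * D ^ (Fintype.card W - t) := by
  set S := (EP H).filter (fun σ => t < (reps σ).card) with hS
  let key : Equiv.Perm W → Finset W × Finset W :=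
    fun σ => (reps σ, Finset.univ.filter (fun v => σ v ∈ reps σ))
  have hfib : ∀ b ∈ (Finset.univ : Finset (Finset W × Finset W)),
      (S.filter (fun σ => key σ = b)).card ≤ D ^ (Fintype.card W - t) := by
    rintro ⟨R, P⟩ -
    by_cases hne : (S.filter (fun σ => key σ = (R, P))).Nonempty
    · obtain ⟨σ0, h0⟩ := hne
      rw [Finset.mem_filter, hS, Finset.mem_filter, Prod.mk.injEq] at h0
      obtain ⟨⟨h01, h02⟩, h03, h04⟩ := h0
      have hPcard : t < P.card := by
        have h5 : P.card = (reps σ0).card := by
          rw [← h04]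
          apply Finset.card_bij (fun v _ => σ0 v)
          · intro v hv; rw [Finset.mem_filter] at hv; exact hv.2
          · intro a _ b _ hab; exact σ0.injective hab
          · intro b hb
            refine ⟨σ0.symm b, ?_, by simp⟩
            rw [Finset.mem_filter]
            exact ⟨Finset.mem_univ _, by simpa using hb⟩
        omega
      have h1 : (S.filter (fun σ => key σ = (R, P))).card ≤
          (Fintype.piFinset (fun v => if v ∈ P then {v} else H.neighborFinset v)).card := by
        apply Finset.card_le_card_of_injOn (fun σ v => if v ∈ P then v else σ v)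
        · intro σ hσ
          rw [Finset.mem_coe, Finset.mem_filter, hS, Finset.mem_filter, mem_EP] at hσ
          rw [Finset.mem_coe, Fintype.mem_piFinset]
          intro v
          simp only
          by_cases hv : v ∈ P
          · rw [if_pos hv, if_pos hv, Finset.mem_singleton]
          · rw [if_neg hv, if_neg hv, mem_neighborFinset]
            exact hσ.1.1 v
        · intro σ hσ τ hτ hst
          rw [Finset.mem_coe, Finset.mem_filter, Prod.mk.injEq] at hσ hτ
          have hPσ : ∀ v, v ∈ P ↔ σ v ∈ reps σ := by
            intro v; rw [← hσ.2.2, Finset.mem_filter]; simp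
          have hPτ : ∀ v, v ∈ P ↔ τ v ∈ reps τ := by
            intro v; rw [← hτ.2.2, Finset.mem_filter]; simp
          apply decode (hσ.2.1.trans hτ.2.1.symm)
          · intro v; rw [← hPσ, ← hPτ]
          · intro v hv
            have hv' : v ∉ P := fun h => hv ((hPσ v).1 h)
            have := congrFun hst v
            simp only [if_neg hv'] at this
            exact this
      refine h1.trans ?_
      rw [Fintype.card_piFinset]
      have h2 : ∀ v ∈ (Finset.univ : Finset W), (if v ∈ P then ({v} : Finset W) else H.neighborFinset v).card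
          ≤ if v ∈ P then 1 else D := by
        intro v _
        by_cases hv : v ∈ P
        · rw [if_pos hv, if_pos hv, Finset.card_singleton]
        · rw [if_neg hv, if_neg hv, card_neighborFinset_eq_degree]; exact hD v
      refine (Finset.prod_le_prod' h2).trans ?_
      rw [Finset.prod_ite, Finset.prod_const_one, one_mul, Finset.prod_const]
      have h3 : (Finset.univ.filter (fun v => v ∉ P)).card = Fintype.card W - P.card := by
        rw [← Finset.card_univ, ← Finset.card_sdiff_of_subset (Finset.subset_univ P)]
        congr 1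
        ext v; simp
      rw [h3]
      exact Nat.pow_le_pow_right hD1 (by omega)
    · rw [Finset.not_nonempty_iff_eq_empty] at hne
      rw [hne]; simp
  have h1 := Finset.card_le_mul_card_image_of_maps_to (f := key) (s := S)
    (fun σ _ => Finset.mem_univ (key σ)) _ hfib
  rw [Finset.card_univ, Fintype.card_prod, Fintype.card_finset, ← mul_pow] at h1
  rw [mul_comm]
  exact h1

open scoped Classical in
lemma exists_pattern (H : SimpleGraph W) (t : ℕ) (hW : 1 ≤ Fintype.card W) :
    ∃ (R : Finset W) (s : W → W), R.card ≤ t ∧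
      ((EP H).filter (fun σ => ¬ t < (reps σ).card)).card ≤
        (((EP H).filter (fun σ => reps σ = R ∧ clo σ = s)).card) *
          (2 ^ Fintype.card W * Fintype.card W ^ t) := by
  set S := (EP H).filter (fun σ => ¬ t < (reps σ).card) with hS
  set K : Finset (Σ _ : Finset W, W → W) :=
    (Finset.univ.filter (fun R : Finset W => R.card ≤ t)).sigma
      (fun R => Fintype.piFinset (fun v => if v ∈ R then (Finset.univ : Finset W) else {v})) with hK
  have hKcard : K.card ≤ 2 ^ Fintype.card W * Fintype.card W ^ t := by
    rw [hK, Finset.card_sigma]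
    have h1 : ∀ R ∈ (Finset.univ.filter (fun R : Finset W => R.card ≤ t)),
        (Fintype.piFinset (fun v => if v ∈ R then (Finset.univ : Finset W) else {v})).card ≤
          Fintype.card W ^ t := by
      intro R hR
      rw [Finset.mem_filter] at hR
      rw [Fintype.card_piFinset]
      have h2 : ∀ v ∈ (Finset.univ : Finset W), (if v ∈ R then (Finset.univ : Finset W) else {v}).card
          ≤ if v ∈ R then Fintype.card W else 1 := by
        intro v _
        by_cases hv : v ∈ R
        · rw [if_pos hv, if_pos hv, Finset.card_univ]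
        · rw [if_neg hv, if_neg hv, Finset.card_singleton]
      refine (Finset.prod_le_prod' h2).trans ?_
      rw [Finset.prod_ite, Finset.prod_const_one, mul_one, Finset.prod_const]
      have h3 : (Finset.univ.filter (fun v => v ∈ R)) = R := by ext v; simp
      rw [h3]
      exact Nat.pow_le_pow_right hW hR.2
    refine (Finset.sum_le_card_nsmul _ _ _ h1).trans ?_
    rw [smul_eq_mul]
    apply Nat.mul_le_mul_right
    refine (Finset.card_le_univ _).trans ?_
    rw [Fintype.card_finset]
  let key : Equiv.Perm W → (Σ _ : Finset W, W → W) := fun σ => ⟨reps σ, clo σ⟩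
  have hmaps : ∀ σ ∈ S, key σ ∈ K := by
    intro σ hσ
    rw [hS, Finset.mem_filter] at hσ
    rw [hK, Finset.mem_sigma, Finset.mem_filter, Fintype.mem_piFinset]
    refine ⟨⟨Finset.mem_univ _, by simp only [key]; omega⟩, ?_⟩
    intro v
    by_cases hv : v ∈ reps σ
    · simp only [key]; rw [if_pos hv]; exact Finset.mem_univ _
    · simp only [key]; rw [if_neg hv, Finset.mem_singleton]; unfold clo; rw [if_neg hv]
  have hKne : K.Nonempty := by
    refine ⟨⟨∅, id⟩, ?_⟩
    rw [hK, Finset.mem_sigma, Finset.mem_filter, Fintype.mem_piFinset]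
    refine ⟨⟨Finset.mem_univ _, by simp⟩, ?_⟩
    intro v; simp
  obtain ⟨⟨R, s⟩, hb, hmax⟩ := Finset.exists_max_image K
    (fun b => (S.filter (fun σ => key σ = b)).card) hKne
  have h1 := Finset.card_le_mul_card_image_of_maps_to (f := key) (s := S) hmaps
    ((S.filter (fun σ => key σ = ⟨R, s⟩)).card) (fun b hb' => hmax b hb')
  rw [hK, Finset.mem_sigma, Finset.mem_filter] at hb
  refine ⟨R, s, hb.1.2, ?_⟩
  refine h1.trans ?_
  apply Nat.mul_le_mul _ hKcard
  apply Finset.card_le_card
  intro σ hσ
  rw [Finset.mem_filter, hS, Finset.mem_filter] at hσ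
  rw [Finset.mem_filter]
  refine ⟨hσ.1.1, ?_⟩
  have := hσ.2
  simp only [key, Sigma.mk.injEq, heq_eq_eq] at this
  exact this

end

open scoped Classical in
/-- The combinatorial core: a gadget from any graph with bounded degrees. -/
lemma gadget_of_graph {W : Type} [Fintype W] (H : SimpleGraph W) {g D t : ℕ} (hH : NoShort H g)
    (hD1 : 1 ≤ D) (hD : ∀ v, H.degree v ≤ D) (ht : t ≤ Fintype.card W)
    (hW : 1 ≤ Fintype.card W) :
    ∃ L, HasGadget g (Fintype.card W + g * t) L ∧
      (EP H).card ≤ 4 ^ Fintype.card W * D ^ (Fintype.card W - t) +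
        L * (2 ^ Fintype.card W * Fintype.card W ^ t) := by
  obtain ⟨R, s, hR, hcard⟩ := exists_pattern H t hW
  refine ⟨((EP H).filter (fun σ => reps σ = R ∧ clo σ = s)).card, ?_, ?_⟩
  · refine ⟨W, inferInstance, H, R, s, hH, ?_, _, le_rfl, ?_⟩
    · exact Nat.add_le_add_left (Nat.mul_le_mul_left _ hR) _
    · intro σ hσ
      rw [Finset.mem_filter] at hσ
      have := good_of_mem hσ.1
      rw [hσ.2.1, hσ.2.2] at this
      exact this
  · have h1 := card_many_reps H hD1 hD ht
    have h2 := Finset.card_filter_add_card_filter_not (s := EP H) (fun σ => t < (reps σ).card)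
    omega

end Pool.Agent.Helper72.Cyc
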