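import Pool.Agent.Helper72.Cyc.Basic

/-!
# Transport lemmas for the extremal functions
-/

namespace Pool.Agent.Helper72.Cyc

open SimpleGraph Finset

open scoped Classical in
lemma copyCount_le_of_copy {V W X : Type*} [Fintype V] [Fintype W] {G : SimpleGraph V}
    {G' : SimpleGraph W} (c : Copy G G') (H : SimpleGraph X) :
    G.copyCount H ≤ G'.copyCount H := by
  rw [SimpleGraph.copyCount, SimpleGraph.copyCount]
  apply Finset.card_le_card_of_injOn (fun A : G.Subgraph => A.map c.toHom)
  · intro A hA
    rw [Finset.mem_coe, Finset.mem_filter] at hA ⊢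
    obtain ⟨-, ⟨e⟩⟩ := hA
    exact ⟨Finset.mem_univ _, ⟨e.trans (c.isoSubgraphMap A)⟩⟩
  · intro A _ B _ hAB
    simp only at hAB
    have hinj := c.injective
    apply Subgraph.ext
    · have := congrArg Subgraph.verts hAB
      rw [Subgraph.map_verts, Subgraph.map_verts] at this
      exact hinj.image_injective this
    · ext a b
      have h1 : (A.map c.toHom).Adj (c a) (c b) ↔ (B.map c.toHom).Adj (c a) (c b) := by
        rw [hAB]
      have key : ∀ D : G.Subgraph, (D.map c.toHom).Adj (c a) (c b) ↔ D.Adj a b := by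
        intro D
        rw [Subgraph.map_adj]
        constructor
        · rintro ⟨x, y, hxy, hx, hy⟩
          have hx' : x = a := hinj hx
          have hy' : y = b := hinj hy
          rw [← hx', ← hy']; exact hxy
        · intro h
          exact ⟨a, b, h, rfl, rfl⟩
      rw [key A, key B] at h1
      exact h1

lemma numCycles_le_of_copy {V W : Type*} [Fintype V] [Fintype W] {G : SimpleGraph V}
    {G' : SimpleGraph W} (c : Copy G G') : numCycles G ≤ numCycles G' := by
  unfold numCycles
  have hcard : Fintype.card V ≤ Fintype.card W := Fintype.card_le_of_injective c c.injective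
  calc ∑ k ∈ Finset.Icc 3 (Fintype.card V), G.copyCount (cycleGraph k)
      ≤ ∑ k ∈ Finset.Icc 3 (Fintype.card V), G'.copyCount (cycleGraph k) :=
        Finset.sum_le_sum (fun k _ => copyCount_le_of_copy c _)
    _ ≤ ∑ k ∈ Finset.Icc 3 (Fintype.card W), G'.copyCount (cycleGraph k) :=
        Finset.sum_le_sum_of_subset (Finset.Icc_subset_Icc_right hcard)

lemma NoShort.map {V W : Type*} {G : SimpleGraph V} {g : ℕ} (h : NoShort G g) (φ : V ↪ W) :
    NoShort (G.map φ) g := by
  intro m f hf hadj
  have h1 : ∀ i, ∃ a, φ a = f i := by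
    intro i
    obtain ⟨_, a, b, -, ha, -⟩ := hadj i
    exact ⟨a, ha⟩
  choose f' hf' using h1
  apply h m f'
  · intro i j hij
    apply hf
    rw [← hf', ← hf', hij]
  · intro i
    have := hadj i
    rw [← hf' i, ← hf' (i + 1), SimpleGraph.map_adj_apply] at this
    exact this

lemma exists_embedding {U : Type*} [Fintype U] {n : ℕ} (hU : Fintype.card U ≤ n) :
    Nonempty (U ↪ Fin n) := by
  apply Function.Embedding.nonempty_of_card_le
  rw [Fintype.card_fin]; exact hU

lemma numCycles_le_maxCycles {U : Type*} [Fintype U] {G : SimpleGraph U} {n g : ℕ}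
    (hG : NoShort G g) (hU : Fintype.card U ≤ n) : numCycles G ≤ maxCycles n g := by
  classical
  obtain ⟨φ⟩ := exists_embedding hU
  have h1 : numCycles G ≤ numCycles (G.map φ) :=
    numCycles_le_of_copy (SimpleGraph.Embedding.map φ G).toCopy
  refine h1.trans ?_
  unfold maxCycles
  apply Finset.le_sup (f := numCycles)
  rw [Finset.mem_filter]
  exact ⟨Finset.mem_univ _, le_egirth_iff.2 (hG.map φ)⟩

lemma card_edges_inst {U : Type*} (G : SimpleGraph U) (i1 i2 : Fintype G.edgeSet) :
    (@edgeFinset U G i1).card = (@edgeFinset U G i2).card := by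
  rw [Subsingleton.elim i1 i2]

lemma degree_inst {U : Type*} (G : SimpleGraph U) (v : U) (i1 i2 : Fintype (G.neighborSet v)) :
    @SimpleGraph.degree U G v i1 = @SimpleGraph.degree U G v i2 := by
  rw [Subsingleton.elim i1 i2]

open scoped Classical in
lemma card_edges_le_maxEdges {U : Type*} [Fintype U] {G : SimpleGraph U} {n g : ℕ}
    (hG : NoShort G g) (hU : Fintype.card U ≤ n) : G.edgeFinset.card ≤ maxEdges n g := by
  obtain ⟨φ⟩ := exists_embedding hU
  have h1 : G.edgeFinset.card = (G.map φ).edgeFinset.card := by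
    rw [SimpleGraph.card_edgeFinset_map]
  rw [h1]
  unfold maxEdges
  have hmem : G.map φ ∈ (Finset.filter (fun G : SimpleGraph (Fin n) => (g : ℕ∞) ≤ G.egirth)
      Finset.univ) := by
    rw [Finset.mem_filter]
    exact ⟨Finset.mem_univ _, le_egirth_iff.2 (hG.map φ)⟩
  have := Finset.le_sup (f := fun G : SimpleGraph (Fin n) => G.edgeFinset.card) hmem
  refine le_trans (le_of_eq ?_) this
  exact card_edges_inst _ _ _

lemma card_edges_le_maxEdges' {U : Type*} [Fintype U] {G : SimpleGraph U} [Fintype G.edgeSet]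
    {n g : ℕ} (hG : NoShort G g) (hU : Fintype.card U ≤ n) :
    G.edgeFinset.card ≤ maxEdges n g := by
  have := card_edges_le_maxEdges hG hU
  refine le_trans (le_of_eq ?_) this
  exact card_edges_inst _ _ _

lemma noShort_bot {V : Type*} (g : ℕ) : NoShort (⊥ : SimpleGraph V) g := by
  intro m f _ hadj
  exact absurd (hadj 0) (by simp)

open scoped Classical in
lemma exists_maxEdges (n g : ℕ) : ∃ G : SimpleGraph (Fin n), NoShort G g ∧
    G.edgeFinset.card = maxEdges n g := by
  have hne : (Finset.filter (fun G : SimpleGraph (Fin n) => (g : ℕ∞) ≤ G.egirth)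
      Finset.univ).Nonempty := ⟨⊥, by
        rw [Finset.mem_filter]; exact ⟨Finset.mem_univ _, le_egirth_iff.2 (noShort_bot g)⟩⟩
  obtain ⟨G, hG, h⟩ := Finset.exists_mem_eq_sup _ hne
    (fun G : SimpleGraph (Fin n) => G.edgeFinset.card)
  rw [Finset.mem_filter] at hG
  exact ⟨G, le_egirth_iff.1 hG.2, h.symm⟩

open scoped Classical in
lemma exists_maxCycles (n g : ℕ) : ∃ G : SimpleGraph (Fin n), NoShort G g ∧
    numCycles G = maxCycles n g := by
  have hne : (Finset.filter (fun G : SimpleGraph (Fin n) => (g : ℕ∞) ≤ G.egirth)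
      Finset.univ).Nonempty := ⟨⊥, by
        rw [Finset.mem_filter]; exact ⟨Finset.mem_univ _, le_egirth_iff.2 (noShort_bot g)⟩⟩
  obtain ⟨G, hG, h⟩ := Finset.exists_mem_eq_sup _ hne numCycles
  rw [Finset.mem_filter] at hG
  exact ⟨G, le_egirth_iff.1 hG.2, h.symm⟩

lemma maxEdges_mono {m n : ℕ} (h : m ≤ n) (g : ℕ) : maxEdges m g ≤ maxEdges n g := by
  classical
  obtain ⟨G, hG, hcard⟩ := exists_maxEdges m g
  rw [← hcard]
  exact card_edges_le_maxEdges hG (by rw [Fintype.card_fin]; exact h)

/-- Removing a vertex of minimum degree. -/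
lemma maxEdges_step (n g : ℕ) :
    (maxEdges (n + 1) g : ℝ) * (n - 1) ≤ maxEdges n g * (n + 1) := by
  classical
  obtain ⟨G, hG, hcard⟩ := exists_maxEdges (n + 1) g
  -- a vertex of small degree
  have hsum : ∑ v, G.degree v = 2 * G.edgeFinset.card := G.sum_degrees_eq_twice_card_edges
  obtain ⟨v, hv⟩ : ∃ v : Fin (n + 1), G.degree v * (n + 1) ≤ 2 * G.edgeFinset.card := by
    by_contra hcon
    push Not at hcon
    have h1 : ∑ v : Fin (n + 1), 2 * G.edgeFinset.card < ∑ v : Fin (n + 1), G.degree v * (n + 1) :=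
      Finset.sum_lt_sum_of_nonempty ⟨0, Finset.mem_univ _⟩ (fun v _ => hcon v)
    rw [← Finset.sum_mul (f := fun v => G.degree v), hsum, Finset.sum_const, Finset.card_univ,
      Fintype.card_fin, smul_eq_mul, mul_comm] at h1
    exact lt_irrefl _ h1
  have h2 : (G.induce {v}ᶜ).edgeFinset.card = G.edgeFinset.card - G.degree v :=
    by rw [card_edgeFinset_induce_compl_singleton, card_edgeFinset_deleteIncidenceSet]
  have h3 : (G.induce {v}ᶜ).edgeFinset.card ≤ maxEdges n g := by
    apply card_edges_le_maxEdges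
    · exact hG.comap Subtype.val Subtype.val_injective (fun a b hab => hab)
    · rw [Fintype.card_compl_set, Fintype.card_fin]; simp
  have h4 : G.edgeFinset.card ≤ maxEdges n g + G.degree v := by omega
  have h5 : (G.edgeFinset.card : ℝ) ≤ maxEdges n g + G.degree v := by exact_mod_cast h4
  have h6 : (G.degree v : ℝ) * (n + 1) ≤ 2 * G.edgeFinset.card := by exact_mod_cast hv
  rw [← hcard]
  nlinarith

end Pool.Agent.Helper72.Cyc
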